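import Pool.Agent.Lib_helper95.NP.Base
import Mathlib.Analysis.Normed.Unbundled.SpectralNorm
import Mathlib.Analysis.Normed.Field.WithAbs

/-!
# Extensions of nonarchimedean absolute values (blocks of helper89 and helper94)
-/

set_option autoImplicit false

universe u

namespace Pool.Agent.Lib_helper95.NP

open Polynomial Real Pool.Agent.Lib_helper95.FP

theorem X1_aux {K : Type u} [NontriviallyNormedField K] [CompleteSpace K] [IsUltrametricDist K] :
    ∃ (L' : Type u) (_ : Field L') (_ : IsAlgClosed L') (w' : AbsoluteValue L' ℝ)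
      (ψ : K →+* L'), ∀ x, w' (ψ x) = ‖x‖ := by
  refine ⟨AlgebraicClosure K, inferInstance, inferInstance,
    { toFun := fun x => spectralMulAlgNorm K (AlgebraicClosure K) x
      map_mul' := fun x y => map_mul _ x y
      nonneg' := fun x => apply_nonneg _ x
      eq_zero' := fun x => ⟨fun h => eq_zero_of_map_eq_zero _ h, fun h => by rw [h, map_zero]⟩
      add_le' := fun x y => map_add_le_add _ x y },
    algebraMap K (AlgebraicClosure K), ?_⟩
  intro x
  exact spectralNorm_extends (K := K) (L := AlgebraicClosure K) x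

theorem alg_ext {L : Type u} [Field L] (w : AbsoluteValue L ℝ) (hw : IsNonarchimedean w) {a : L}
    (ha : a ≠ 0) (ha1 : w a < 1) :
    ∃ (L' : Type u) (_ : Field L') (_ : IsAlgClosed L') (w' : AbsoluteValue L' ℝ)
      (ψ : L →+* L'), ∀ x, w' (ψ x) = w x := by
  let _ : NormedField L := w.toNormedField
  have hnorm : ∀ x : L, ‖x‖ = w x := fun x => rfl
  let K := UniformSpace.Completion L
  let _ : NontriviallyNormedField K :=
    { (inferInstance : NormedField K) with
      non_trivial := by
        refine ⟨((a⁻¹ : L) : UniformSpace.Completion L), ?_⟩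
        have h1 : ‖((a⁻¹ : L) : UniformSpace.Completion L)‖ = ‖a⁻¹‖ :=
          UniformSpace.Completion.norm_coe _
        rw [h1, norm_inv]
        have h2 : 0 < ‖a‖ := norm_pos_iff.2 ha
        have h3 : ‖a‖ < 1 := ha1
        exact (one_lt_inv₀ h2).2 h3 }
  have : IsUltrametricDist K := by
    apply IsUltrametricDist.isUltrametricDist_of_forall_norm_natCast_le_one
    intro n
    have h1 : ((n : L) : UniformSpace.Completion L) = (n : UniformSpace.Completion L) := by
      exact map_natCast (UniformSpace.Completion.coeRingHom (α := L)) n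
    have h2 : ‖(n : UniformSpace.Completion L)‖ = ‖(n : L)‖ := by
      rw [← h1]
      exact UniformSpace.Completion.norm_coe _
    have h3 : ‖(n : L)‖ ≤ 1 := IsNonarchimedean.apply_natCast_le_one hw
    exact h2.le.trans h3
  have : CompleteSpace K := inferInstanceAs (CompleteSpace (UniformSpace.Completion L))
  obtain ⟨L', i1, i2, w', ψ, h⟩ := X1_aux (K := K)
  refine ⟨L', i1, i2, w', ψ.comp (UniformSpace.Completion.coeRingHom (α := L)), ?_⟩
  intro x
  rw [RingHom.comp_apply, h]
  exact UniformSpace.Completion.norm_coe x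

section X2

variable {L : Type u} [Field L]

theorem X2_gn_pos (w : AbsoluteValue L ℝ) {p : L[X]} (hp : p ≠ 0) : 0 < gn w p := by
  obtain ⟨j, hj⟩ : ∃ j, p.coeff j ≠ 0 := by
    by_contra hcon
    push Not at hcon
    exact hp (Polynomial.ext (fun j => by rw [hcon j, coeff_zero]))
  exact (w.pos hj).trans_le (le_gn w p j)

/-- The Gauss norm of a rational function. -/
noncomputable def X2_N (w : AbsoluteValue L ℝ) (x : FractionRing L[X]) : ℝ :=
  gn w (IsLocalization.sec (nonZeroDivisors L[X]) x).1 /
    gn w ((IsLocalization.sec (nonZeroDivisors L[X]) x).2 : L[X])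

theorem X2_N_div {w : AbsoluteValue L ℝ} (hw : IsNonarchimedean w) (p q : L[X]) (hq : q ≠ 0) :
    X2_N w (algebraMap L[X] (FractionRing L[X]) p / algebraMap L[X] (FractionRing L[X]) q) =
      gn w p / gn w q := by
  set x := algebraMap L[X] (FractionRing L[X]) p / algebraMap L[X] (FractionRing L[X]) q with hx
  have h1 := IsLocalization.sec_spec (nonZeroDivisors L[X]) x
  have h2 : ((IsLocalization.sec (nonZeroDivisors L[X]) x).2 : L[X]) ≠ 0 :=
    nonZeroDivisors.ne_zero (IsLocalization.sec (nonZeroDivisors L[X]) x).2.2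
  have hq' : algebraMap L[X] (FractionRing L[X]) q ≠ 0 := by
    intro h0
    exact hq ((IsFractionRing.injective L[X] (FractionRing L[X])) (by rw [h0, map_zero]))
  unfold X2_N
  set a := (IsLocalization.sec (nonZeroDivisors L[X]) x).1 with ha
  set b := ((IsLocalization.sec (nonZeroDivisors L[X]) x).2 : L[X]) with hb
  have h3 : p * b = a * q := by
    apply IsFractionRing.injective L[X] (FractionRing L[X])
    rw [map_mul, map_mul, ← h1, hx]
    field_simp
  have h4 : gn w p * gn w b = gn w a * gn w q := by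
    rw [← gn_mul hw, ← gn_mul hw, h3]
  rw [div_eq_div_iff (X2_gn_pos w h2).ne' (X2_gn_pos w hq).ne', h4]

theorem X2_exists (x : FractionRing L[X]) : ∃ p q : L[X], q ≠ 0 ∧
    x = algebraMap L[X] (FractionRing L[X]) p / algebraMap L[X] (FractionRing L[X]) q := by
  obtain ⟨p, q, hq, h⟩ := IsFractionRing.div_surjective (A := L[X]) x
  exact ⟨p, q, nonZeroDivisors.ne_zero hq, h.symm⟩

theorem X2_map_ne {q : L[X]} (hq : q ≠ 0) : algebraMap L[X] (FractionRing L[X]) q ≠ 0 := by
  intro h0
  exact hq ((IsFractionRing.injective L[X] (FractionRing L[X])) (by rw [h0, map_zero]))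

/-- The Gauss norm as an absolute value on the field of rational functions. -/
noncomputable def X2_abv {w : AbsoluteValue L ℝ} (hw : IsNonarchimedean w) :
    AbsoluteValue (FractionRing L[X]) ℝ where
  toFun := X2_N w
  map_mul' x y := by
    obtain ⟨p, q, hq, rfl⟩ := X2_exists x
    obtain ⟨p', q', hq', rfl⟩ := X2_exists y
    rw [div_mul_div_comm, ← map_mul, ← map_mul, X2_N_div hw _ _ (mul_ne_zero hq hq'),
      X2_N_div hw _ _ hq, X2_N_div hw _ _ hq', gn_mul hw, gn_mul hw, div_mul_div_comm]
  nonneg' x := div_nonneg (gn_nonneg w _) (gn_nonneg w _)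
  eq_zero' x := by
    obtain ⟨p, q, hq, rfl⟩ := X2_exists x
    rw [X2_N_div hw _ _ hq, div_eq_zero_iff, div_eq_zero_iff, or_iff_left (X2_gn_pos w hq).ne',
      or_iff_left (X2_map_ne hq)]
    constructor
    · intro h
      by_contra hcon
      exact (X2_gn_pos w (fun h0 => hcon (by rw [h0, map_zero]))).ne' h
    · intro h
      have : p = 0 := (IsFractionRing.injective L[X] (FractionRing L[X])) (by rw [h, map_zero])
      rw [this, gn_zero]
  add_le' x y := by
    obtain ⟨p, q, hq, rfl⟩ := X2_exists x
    obtain ⟨p', q', hq', rfl⟩ := X2_exists y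
    have hg := X2_gn_pos w hq
    have hg' := X2_gn_pos w hq'
    rw [div_add_div _ _ (X2_map_ne hq) (X2_map_ne hq'), ← map_mul, ← map_mul, ← map_mul, ← map_add,
      X2_N_div hw _ _ (mul_ne_zero hq hq'), X2_N_div hw _ _ hq, X2_N_div hw _ _ hq', gn_mul hw q,
      div_add_div _ _ hg.ne' hg'.ne']
    apply div_le_div_of_nonneg_right _ (mul_pos hg hg').le
    refine (gn_add_le hw _ _).trans ?_
    rw [gn_mul hw, gn_mul hw]
    exact max_le_add_of_nonneg (mul_nonneg (gn_nonneg w _) (gn_nonneg w _))
      (mul_nonneg (gn_nonneg w _) (gn_nonneg w _))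

/-- X2: the Gauss norm on the field of rational functions -/
theorem gauss_ext {L : Type u} [Field L] (w : AbsoluteValue L ℝ) (hw : IsNonarchimedean w) :
    ∃ (L' : Type u) (_ : Field L') (w' : AbsoluteValue L' ℝ) (ψ : L →+* L') (t : L'),
      Gen w w' ψ t := by
  refine ⟨FractionRing L[X], inferInstance, X2_abv hw,
    (algebraMap L[X] (FractionRing L[X])).comp C, algebraMap L[X] (FractionRing L[X]) X, ?_⟩
  intro p
  rw [← Polynomial.hom_eval₂, Polynomial.eval₂_C_X]
  have h := X2_N_div hw p 1 one_ne_zero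
  rw [map_one, div_one, gn_one, div_one] at h
  exact h

end X2

end Pool.Agent.Lib_helper95.NP
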