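import Pool.Agent.Lib_helper95.NP.PotB
import Pool.Agent.Lib_helper95.NP.Ext

/-!
# The auxiliary points
-/

set_option autoImplicit false

universe u

namespace Pool.Agent.Lib_helper95.NP

open Polynomial Real Pool.Agent.Lib_helper95.FP

/-- The potential of `x` against the fibre `z` is small. -/
def PG {L : Type*} [Field L] (w : AbsoluteValue L ℝ) (d : ℕ) (G : Fin 2 → L[X]) (n : ℕ)
    (x : Fin 2 → L) (z : Fin (d ^ n) → Fin 2 → L) : Prop :=
  2 * (log (w (res d G)) / (d - 1)) ≤ ∑ i, gg w d G x (z i) ∧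
    ∑ i, gg w d G x (z i) ≤ -log (w (res d G)) / (d * (d - 1)) ∧
    ∀ i, w (res d G) ^ (d ^ n) ≤ w (FP.wd x (z i))

/-- The auxiliary points. -/
structure AuxP {L₀ : Type u} [Field L₀] (w₀ : AbsoluteValue L₀ ℝ) (d : ℕ) (G₀ : Fin 2 → L₀[X])
    (n C₁ : ℕ) (A B : Fin 2 → L₀) {L : Type u} [Field L] (w : AbsoluteValue L ℝ) (χ : L₀ →+* L)
    (a b : ℕ → Fin 2 → L) (z : ℕ → Fin (d ^ n) → Fin 2 → L) : Prop where
  ext : ∀ x, w (χ x) = w₀ x
  ua : ∀ k, nv w (a k) = 1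
  ub : ∀ k, nv w (b k) = 1
  uz : ∀ k i, nv w (z k i) = 1
  da : ∀ k, w (FP.wd (a k) (fun i => χ (A i))) ≤ w₀ (res d G₀) ^ C₁
  db : ∀ k, w (FP.wd (b k) (fun i => χ (B i))) ≤ w₀ (res d G₀) ^ C₁
  sa : ∀ k l, k ≠ l → w₀ (res d G₀) ^ C₁ ≤ w (FP.wd (a k) (a l))
  sb : ∀ k l, k ≠ l → w₀ (res d G₀) ^ C₁ ≤ w (FP.wd (b k) (b l))
  xa : ∀ x : Fin 2 → L₀, nv w₀ x = 1 → ∀ k,
    w (FP.wd (fun i => χ (x i)) (a k)) = max (w₀ (FP.wd x A)) (w₀ (res d G₀) ^ C₁)
  xb : ∀ x : Fin 2 → L₀, nv w₀ x = 1 → ∀ k,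
    w (FP.wd (fun i => χ (x i)) (b k)) = max (w₀ (FP.wd x B)) (w₀ (res d G₀) ^ C₁)
  px : ∀ x : Fin 2 → L₀, nv w₀ x = 1 → ∀ k, PG w d (mp χ G₀) n (fun i => χ (x i)) (z k)
  pa : ∀ l k, PG w d (mp χ G₀) n (a l) (z k)
  pb : ∀ l k, PG w d (mp χ G₀) n (b l) (z k)
  pz : ∀ l i k, l ≠ k → PG w d (mp χ G₀) n (z l i) (z k)

theorem wd_add_left {L : Type*} [Field L] (x y z : Fin 2 → L) (c : L) :
    FP.wd (fun i => y i + c * z i) x = FP.wd y x + c * FP.wd z x := by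
  unfold FP.wd; ring

theorem gn_bin {L : Type*} [Field L] (w : AbsoluteValue L ℝ) (α β : L) {m : ℕ} (hm : 1 ≤ m) :
    gn w (C α + C β * X ^ m) = max (w α) (w β) := by
  apply le_antisymm
  · apply gn_le
    intro j
    rw [coeff_add, coeff_C, coeff_C_mul, coeff_X_pow]
    by_cases h0 : j = 0
    · rw [if_pos h0, if_neg (by omega), mul_zero, add_zero]
      exact le_max_left _ _
    · by_cases h1 : j = m
      · rw [if_neg h0, if_pos h1, mul_one, zero_add]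
        exact le_max_right _ _
      · rw [if_neg h0, if_neg h1, mul_zero, add_zero, map_zero]
        exact (w.nonneg _).trans (le_max_left _ _)
  · apply max_le
    · have := le_gn w (C α + C β * X ^ m) 0
      rwa [coeff_add, coeff_C, coeff_C_mul, coeff_X_pow, if_pos rfl, if_neg (by omega), mul_zero,
        add_zero] at this
    · have := le_gn w (C α + C β * X ^ m) m
      rwa [coeff_add, coeff_C, coeff_C_mul, coeff_X_pow, if_pos rfl, if_neg (by omega), mul_one,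
        zero_add] at this

/-- Points near `A` in generic directions. -/
theorem exists_near {L₀ L : Type*} [Field L₀] [Field L] {w₀ : AbsoluteValue L₀ ℝ}
    {w : AbsoluteValue L ℝ} {ψ : L₀ →+* L} {t : L} (hw₀ : IsNonarchimedean w₀)
    (ht : Gen w₀ w ψ t) (A : Fin 2 → L₀)
    (hA : nv w₀ A = 1) (e : L₀) (he1 : w₀ e < 1) :
    ∃ a : ℕ → Fin 2 → L, (∀ k, nv w (a k) = 1) ∧
      (∀ k, w (FP.wd (a k) (fun i => ψ (A i))) ≤ w₀ e) ∧
      (∀ k l, k ≠ l → w₀ e ≤ w (FP.wd (a k) (a l))) ∧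
      (∀ x : Fin 2 → L₀, nv w₀ x = 1 →
        ∀ k, w (FP.wd (fun i => ψ (x i)) (a k)) = max (w₀ (FP.wd x A)) (w₀ e)) := by
  have hψ : ∀ x, w (ψ x) = w₀ x := fun x => ht.ext x
  have hw : IsNonarchimedean w := nonarch_ext hψ hw₀
  have htn : w t = 1 := ht.norm
  obtain ⟨u, hu1, hu2⟩ : ∃ u : Fin 2 → L₀, nv w₀ u = 1 ∧ w₀ (FP.wd A u) = 1 := by
    rcases max_choice (w₀ (A 0)) (w₀ (A 1)) with h | h
    · refine ⟨![0, 1], by simp [nv], ?_⟩
      have : FP.wd A ![0, 1] = A 0 := by simp [FP.wd]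
      rw [this, ← h]
      exact hA
    · refine ⟨![1, 0], by simp [nv], ?_⟩
      have : FP.wd A ![1, 0] = -(A 1) := by simp [FP.wd]
      rw [this, w₀.map_neg, ← h]
      exact hA
  set A' : Fin 2 → L := fun i => ψ (A i) with hA'
  set u' : Fin 2 → L := fun i => ψ (u i) with hu'
  have hA'1 : nv w A' = 1 := by rw [hA', nv_mp hψ, hA]
  have hu'1 : nv w u' = 1 := by rw [hu', nv_mp hψ, hu1]
  have hAu : w (FP.wd A' u') = 1 := by rw [hA', hu', wd_mp, hψ, hu2]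
  have hwe : w (ψ e) = w₀ e := hψ e
  set a : ℕ → Fin 2 → L := fun k i => A' i + (ψ e * t ^ (k + 1)) * u' i with ha
  have hct : ∀ k : ℕ, w (ψ e * t ^ (k + 1)) = w₀ e := by
    intro k
    rw [map_mul, map_pow, htn, one_pow, mul_one, hwe]
  have hle : ∀ k, nv w (a k) ≤ 1 := by
    intro k
    apply nv_le
    intro i
    refine (hw _ _).trans (max_le ((le_nv w A' i).trans hA'1.le) ?_)
    rw [map_mul, hct]
    exact mul_le_one₀ he1.le (w.nonneg _) ((le_nv w u' i).trans hu'1.le)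
  have hau : ∀ k, w (FP.wd (a k) u') = 1 := by
    intro k
    rw [ha, wd_add_left]
    have : FP.wd u' u' = 0 := by unfold FP.wd; ring
    rw [this, mul_zero, add_zero, hAu]
  refine ⟨a, ?_, ?_, ?_, ?_⟩
  · intro k
    apply le_antisymm (hle k)
    have h1 := FP.wd_le (SB_zero w hw) (a k) u'
    rw [hau k, pow_zero, one_mul, hu'1, mul_one] at h1
    exact h1
  · intro k
    rw [ha, wd_add_left]
    have : FP.wd A' A' = 0 := by unfold FP.wd; ring
    rw [this, zero_add, map_mul, hct, w_wd_comm, hAu, mul_one]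
  · intro k l hkl
    have e1 : FP.wd (a k) (a l) = ψ e * (t ^ (l + 1) - t ^ (k + 1)) * FP.wd A' u' := by
      rw [ha]
      unfold FP.wd
      ring
    rw [e1, map_mul, map_mul, hwe, hAu, mul_one,
      ht.sub (fun h => hkl (by omega)), mul_one]
  · intro x hx k
    have e1 : FP.wd (fun i => ψ (x i)) (a k) =
        eval₂ ψ t (C (FP.wd x A) + C (e * FP.wd x u) * X ^ (k + 1)) := by
      rw [eval₂_add, eval₂_mul, eval₂_C, eval₂_C, eval₂_X_pow, ha, wd_add_right, hA', wd_mp, hu',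
        wd_mp, map_mul]
      ring
    rw [e1, ht, gn_bin w₀ _ _ (by omega), map_mul]
    rcases lt_or_eq_of_le (wd_le_one hw₀ x u hx hu1) with h | h
    · have h1 := wd_tri hw₀ A x u hA.le hx hu1.le
      rw [hu2] at h1
      have h2 : w₀ (FP.wd x A) = 1 := by
        apply le_antisymm (wd_le_one hw₀ x A hx hA)
        rw [w_wd_comm]
        rcases le_max_iff.1 h1 with h3 | h3
        · exact h3
        · exact absurd h3 (not_le.2 h)
      rw [h2, max_eq_left he1.le, max_eq_left]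
      exact mul_le_one₀ he1.le (w₀.nonneg _) h.le
    · rw [h, mul_one]

theorem exists_aux {L₀ : Type u} [Field L₀] {w₀ : AbsoluteValue L₀ ℝ}
    (hw₀ : IsNonarchimedean w₀) {d : ℕ} {G₀ : Fin 2 → L₀[X]} (hG : Good d G₀)
    (hn₀ : nF w₀ d G₀ = 1) (hR : w₀ (res d G₀) < 1) (n C₁ : ℕ) (hC₁ : 1 ≤ C₁)
    (A B : Fin 2 → L₀) (hA : nv w₀ A = 1) (hB : nv w₀ B = 1) :
    ∃ (L : Type u) (_ : Field L) (w : AbsoluteValue L ℝ) (χ : L₀ →+* L)
      (a b : ℕ → Fin 2 → L) (z : ℕ → Fin (d ^ n) → Fin 2 → L),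
      AuxP w₀ d G₀ n C₁ A B w χ a b z := by
  have hres0 : 0 < w₀ (res d G₀) := w₀.pos hG.res_ne
  -- the fields
  obtain ⟨L₁, _, w₁, ψ₁, t₁, ht₁⟩ := gauss_ext w₀ hw₀
  have hψ₁ : ∀ x, w₁ (ψ₁ x) = w₀ x := fun x => ht₁.ext x
  have hw₁ := nonarch_ext hψ₁ hw₀
  obtain ⟨L₂, _, w₂, ψ₂, t₂, ht₂⟩ := gauss_ext w₁ hw₁
  have hψ₂ : ∀ x, w₂ (ψ₂ x) = w₁ x := fun x => ht₂.ext x
  have hw₂ := nonarch_ext hψ₂ hw₁
  obtain ⟨L, _, _, w, ψ₃, hψ₃⟩ := alg_ext w₂ hw₂ (a := ψ₂ (ψ₁ (res d G₀)))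
    ((map_ne_zero ψ₂).2 ((map_ne_zero ψ₁).2 hG.res_ne)) (by rw [hψ₂, hψ₁]; exact hR)
  have hw := nonarch_ext hψ₃ hw₂
  set ψ : L₁ →+* L := ψ₃.comp ψ₂ with hψdef
  set t : L := ψ₃ t₂ with htdef
  have ht : Gen w₁ w ψ t := ht₂.comp hψ₃
  have hψ : ∀ x, w (ψ x) = w₁ x := fun x => ht.ext x
  have htn : w t = 1 := ht.norm
  set χ : L₀ →+* L := ψ.comp ψ₁ with hχdef
  have hχ : ∀ x, w (χ x) = w₀ x := fun x => by
    rw [hχdef, RingHom.comp_apply, hψ, hψ₁]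
  have hG₁ : Good d (mp ψ₁ G₀) := hG.mp ψ₁
  have hGL : Good d (mp χ G₀) := hG.mp χ
  have hmpc : mp χ G₀ = mp ψ (mp ψ₁ G₀) := by rw [mp_mp]
  have hnF : nF w d (mp χ G₀) = 1 := by rw [nF_mp hχ]; exact hn₀
  have hresL : w (res d (mp χ G₀)) = w₀ (res d G₀) := by rw [res_mp, hχ]
  have hRL : w (res d (mp χ G₀)) ≤ 1 := by rw [hresL]; exact hR.le
  -- the points near `A` and `B`
  set e : L₀ := res d G₀ ^ C₁ with hedef
  have hwe : w₀ e = w₀ (res d G₀) ^ C₁ := by rw [hedef, map_pow]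
  have he1 : w₀ e < 1 := by
    rw [hwe]
    exact pow_lt_one₀ hres0.le hR (by omega)
  obtain ⟨a₁, ha1, ha2, ha3, ha4⟩ := exists_near hw₀ ht₁ A hA e he1
  obtain ⟨b₁, hb1, hb2, hb3, hb4⟩ := exists_near hw₀ ht₁ B hB e he1
  rw [hwe] at ha2 ha3 ha4 hb2 hb3 hb4
  -- the fibres
  have hfib : ∀ k : ℕ, ∃ z, Fib w d (mp χ G₀) n (t ^ (k + 1)) z := fun k =>
    exists_fib hw hGL hnF.le n (t ^ (k + 1)) (by rw [map_pow, htn, one_pow])
  choose z hz using hfib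
  have hgen : ∀ (k : ℕ) (c : Fin 2 → L₁),
      w (FP.wd (fun i => ψ (c i)) ![t ^ (k + 1), 1]) = nv w (fun i => ψ (c i)) := by
    intro k c
    rw [w_wd_comm, (ht.pow (k := k + 1) (by omega)).wd c, nv_mp hψ]
  have hPG₁ : ∀ x : Fin 2 → L₁, nv w₁ x = 1 → ∀ k,
      PG w d (mp χ G₀) n (fun i => ψ (x i)) (z k) := by
    intro x hx k
    apply (hz k).pot hw hGL hnF hRL (by rw [map_pow, htn, one_pow]) _ (by rw [nv_mp hψ, hx])
    rw [hmpc, iter_mp]
    exact hgen k _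
  refine ⟨L, inferInstance, w, χ, fun k i => ψ (a₁ k i), fun k i => ψ (b₁ k i), z, ?_⟩
  refine
    { ext := hχ
      ua := fun k => by rw [nv_mp hψ]; exact ha1 k
      ub := fun k => by rw [nv_mp hψ]; exact hb1 k
      uz := fun k => (hz k).unit
      da := fun k => ?_
      db := fun k => ?_
      sa := fun k l hkl => by rw [wd_mp, hψ]; exact ha3 k l hkl
      sb := fun k l hkl => by rw [wd_mp, hψ]; exact hb3 k l hkl
      xa := fun x hx k => ?_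
      xb := fun x hx k => ?_
      px := fun x hx k => ?_
      pa := fun l k => hPG₁ _ (ha1 l) k
      pb := fun l k => hPG₁ _ (hb1 l) k
      pz := fun l i k hlk => ?_ }
  · have h1 := ha2 k
    rw [← hψ, ← wd_mp] at h1
    exact h1
  · have h1 := hb2 k
    rw [← hψ, ← wd_mp] at h1
    exact h1
  · have h1 := ha4 x hx k
    rw [← hψ, ← wd_mp] at h1
    exact h1
  · have h1 := hb4 x hx k
    rw [← hψ, ← wd_mp] at h1
    exact h1
  · have h1 := hPG₁ (fun i => ψ₁ (x i)) (by rw [nv_mp hψ₁, hx]) k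
    exact h1
  · apply (hz k).pot hw hGL hnF hRL (by rw [map_pow, htn, one_pow]) _ ((hz l).unit i)
    obtain ⟨-, b, c, -, -, hc, -, -⟩ := hz l
    rw [hc i, nv_smul]
    have e1 : FP.wd (fun j => c i * (![t ^ (l + 1), 1] : Fin 2 → L) j) ![t ^ (k + 1), 1] =
        c i * (t ^ (l + 1) - t ^ (k + 1)) := by
      simp only [FP.wd, Matrix.cons_val_zero, Matrix.cons_val_one]
      ring
    rw [e1, map_mul, ht.sub (fun h => hlk (by omega)), mul_one]
    have e2 : nv w (![t ^ (l + 1), 1] : Fin 2 → L) = 1 := by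
      unfold nv
      simp only [Matrix.cons_val_zero, Matrix.cons_val_one, map_pow, htn, one_pow, map_one,
        max_self]
    rw [e2, mul_one]

end Pool.Agent.Lib_helper95.NP
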