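import Pool.Agent.Lib_helper95.FP.Many
import Mathlib.RingTheory.Polynomial.GaussNorm

/-!
# Gauss norm, generic points, linear forms (blocks of helper46 and helper72)
-/

set_option autoImplicit false

universe u

namespace Pool.Agent.Lib_helper95.NP

open Polynomial Real Pool.Agent.Lib_helper95.FP

section

variable {L : Type*} [Field L]

/-- The Gauss norm. -/
noncomputable def gn (w : AbsoluteValue L ℝ) (p : L[X]) : ℝ := p.gaussNorm w 1

theorem gn_nonneg (w : AbsoluteValue L ℝ) (p : L[X]) : 0 ≤ gn w p :=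
  gaussNorm_nonneg w p zero_le_one

theorem gn_zero (w : AbsoluteValue L ℝ) : gn w 0 = 0 := gaussNorm_zero w 1

theorem le_gn (w : AbsoluteValue L ℝ) (p : L[X]) (j : ℕ) : w (p.coeff j) ≤ gn w p := by
  have := le_gaussNorm w p zero_le_one j
  unfold gn
  simpa using this

theorem exists_gn (w : AbsoluteValue L ℝ) (p : L[X]) : ∃ j, gn w p = w (p.coeff j) := by
  obtain ⟨j, hj⟩ := exists_eq_gaussNorm w 1 p
  refine ⟨j, ?_⟩
  unfold gn
  simpa using hj

theorem gn_le (w : AbsoluteValue L ℝ) (p : L[X]) (B : ℝ) (h : ∀ j, w (p.coeff j) ≤ B) :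
    gn w p ≤ B := by
  obtain ⟨j, hj⟩ := exists_gn w p
  rw [hj]; exact h j

theorem gn_lt (w : AbsoluteValue L ℝ) (p : L[X]) (B : ℝ) (h : ∀ j, w (p.coeff j) < B) :
    gn w p < B := by
  obtain ⟨j, hj⟩ := exists_gn w p
  rw [hj]; exact h j

theorem gn_C (w : AbsoluteValue L ℝ) (c : L) : gn w (C c) = w c := by
  unfold gn
  simp

theorem gn_one (w : AbsoluteValue L ℝ) : gn w 1 = 1 := by
  rw [← C_1, gn_C, map_one]

theorem gn_X (w : AbsoluteValue L ℝ) : gn w X = 1 := by
  apply le_antisymm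
  · apply gn_le
    intro j
    rw [coeff_X]
    split_ifs <;> simp
  · have := le_gn w X 1
    rwa [coeff_X_one, map_one] at this

theorem gn_neg (w : AbsoluteValue L ℝ) (p : L[X]) : gn w (-p) = gn w p := by
  apply le_antisymm
  · apply gn_le
    intro j
    rw [coeff_neg, w.map_neg]
    exact le_gn w p j
  · apply gn_le
    intro j
    rw [← w.map_neg, ← coeff_neg]
    exact le_gn w (-p) j

theorem gn_mul {w : AbsoluteValue L ℝ} (hw : IsNonarchimedean w) (p q : L[X]) :
    gn w (p * q) = gn w p * gn w q :=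
  gaussNorm_mul hw zero_lt_one p q

theorem gn_add_le {w : AbsoluteValue L ℝ} (hw : IsNonarchimedean w) (p q : L[X]) :
    gn w (p + q) ≤ max (gn w p) (gn w q) := by
  apply gn_le
  intro j
  rw [coeff_add]
  exact (hw _ _).trans (max_le_max (le_gn w p j) (le_gn w q j))

theorem gn_sub_le {w : AbsoluteValue L ℝ} (hw : IsNonarchimedean w) (p q : L[X]) :
    gn w (p - q) ≤ max (gn w p) (gn w q) := by
  rw [sub_eq_add_neg, ← gn_neg w q]
  exact gn_add_le hw p (-q)

theorem gn_pow {w : AbsoluteValue L ℝ} (hw : IsNonarchimedean w) (p : L[X]) (n : ℕ) :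
    gn w (p ^ n) = gn w p ^ n := by
  induction n with
  | zero => rw [pow_zero, pow_zero, gn_one]
  | succ n ih => rw [pow_succ, pow_succ, gn_mul hw, ih]

theorem gn_map {K : Type*} [Field K] {v : AbsoluteValue K ℝ} {w : AbsoluteValue L ℝ}
    {φ : K →+* L} (hφ : ∀ a, w (φ a) = v a) (p : K[X]) : gn w (p.map φ) = gn v p := by
  apply le_antisymm
  · apply gn_le
    intro j
    rw [coeff_map, hφ]
    exact le_gn v p j
  · apply gn_le
    intro j
    rw [← hφ, ← coeff_map]
    exact le_gn w (p.map φ) j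

end

/-- `t` is a generic point of the unit disc over `L₁`. -/
def Gen {L₁ L : Type*} [Field L₁] [Field L] (w₁ : AbsoluteValue L₁ ℝ) (w : AbsoluteValue L ℝ)
    (ψ : L₁ →+* L) (t : L) : Prop := ∀ p : L₁[X], w (eval₂ ψ t p) = gn w₁ p

section gen

variable {L₁ L : Type*} [Field L₁] [Field L] {w₁ : AbsoluteValue L₁ ℝ} {w : AbsoluteValue L ℝ}
  {ψ : L₁ →+* L} {t : L}

theorem x3_gn_expand (w₁ : AbsoluteValue L₁ ℝ) {k : ℕ} (hk : 1 ≤ k) (p : L₁[X]) :
    gn w₁ (expand L₁ k p) = gn w₁ p := by
  apply le_antisymm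
  · apply gn_le
    intro j
    rw [coeff_expand hk]
    split_ifs
    · exact le_gn w₁ p _
    · rw [map_zero]; exact gn_nonneg w₁ p
  · apply gn_le
    intro j
    have := le_gn w₁ (expand L₁ k p) (j * k)
    rwa [coeff_expand_mul hk] at this

theorem x3_gn_X_pow_sub (w₁ : AbsoluteValue L₁ ℝ) {k l : ℕ} (hkl : k ≠ l) :
    gn w₁ ((X : L₁[X]) ^ k - X ^ l) = 1 := by
  apply le_antisymm
  · apply gn_le
    intro j
    rw [coeff_sub, coeff_X_pow, coeff_X_pow]
    by_cases h1 : j = k
    · by_cases h2 : j = l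
      · exact absurd (h1.symm.trans h2) hkl
      · rw [if_pos h1, if_neg h2, sub_zero, map_one]
    · by_cases h2 : j = l
      · rw [if_neg h1, if_pos h2, zero_sub, w₁.map_neg, map_one]
      · rw [if_neg h1, if_neg h2, sub_zero, map_zero]
        exact zero_le_one
  · have := le_gn w₁ ((X : L₁[X]) ^ k - X ^ l) k
    rwa [coeff_sub, coeff_X_pow, coeff_X_pow, if_pos rfl, if_neg hkl, sub_zero, map_one] at this

theorem x3_gn_lin (w₁ : AbsoluteValue L₁ ℝ) (a b : L₁) :
    gn w₁ (C a * X - C b) = max (w₁ a) (w₁ b) := by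
  apply le_antisymm
  · apply gn_le
    intro j
    match j with
    | 0 => simp
    | 1 => simp [coeff_C]
    | (j+2) => simp
  · apply max_le
    · have := le_gn w₁ (C a * X - C b) 1
      simpa [coeff_C] using this
    · have := le_gn w₁ (C a * X - C b) 0
      simpa using this

theorem Gen.ext (h : Gen w₁ w ψ t) (x : L₁) : w (ψ x) = w₁ x := by
  have := h (C x)
  rwa [eval₂_C, gn_C] at this

theorem Gen.pow (h : Gen w₁ w ψ t) {k : ℕ} (hk : 1 ≤ k) : Gen w₁ w ψ (t ^ k) := by
  intro p
  have := h (expand L₁ k p)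
  rwa [x3_gn_expand w₁ hk, expand_eq_comp_X_pow, eval₂_comp, eval₂_X_pow] at this

theorem Gen.norm (h : Gen w₁ w ψ t) : w t = 1 := by
  have := h X
  rwa [eval₂_X, gn_X] at this

theorem Gen.sub (h : Gen w₁ w ψ t) {k l : ℕ} (hkl : k ≠ l) : w (t ^ k - t ^ l) = 1 := by
  have := h (X ^ k - X ^ l)
  rwa [eval₂_sub, eval₂_X_pow, eval₂_X_pow, x3_gn_X_pow_sub w₁ hkl] at this

theorem Gen.wd (h : Gen w₁ w ψ t) (c : Fin 2 → L₁) :
    w (FP.wd ![t, 1] (fun i => ψ (c i))) = nv w₁ c := by
  have := h (C (c 1) * X - C (c 0))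
  rw [eval₂_sub, eval₂_mul, eval₂_C, eval₂_C, eval₂_X, x3_gn_lin] at this
  unfold nv FP.wd
  rw [max_comm, ← this]
  congr 1
  simp only [Matrix.cons_val_zero, Matrix.cons_val_one]
  ring

theorem Gen.comp (h : Gen w₁ w ψ t) {L' : Type*} [Field L'] {w' : AbsoluteValue L' ℝ}
    {χ : L →+* L'} (hχ : ∀ x, w' (χ x) = w x) : Gen w₁ w' (χ.comp ψ) (χ t) := by
  intro p
  rw [← hom_eval₂, hχ]
  exact h p

end gen

/-- The linear form which vanishes at `z`. -/
noncomputable def linf {L : Type*} [Field L] (z : Fin 2 → L) : L[X] := C (z 1) * X - C (z 0)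

section roots

variable {L : Type*} [Field L]

/-- E0 -/
theorem hev_linf (z x : Fin 2 → L) : hev 1 (linf z) x = wd x z := by
  unfold linf hev wd
  rw [Finset.sum_range_succ, Finset.sum_range_one]
  simp only [coeff_sub, coeff_C_mul, coeff_X_zero, coeff_X_one, coeff_C_zero, coeff_C_succ,
    pow_zero, pow_one, mul_one, mul_zero, zero_sub, sub_zero, Nat.sub_zero, Nat.sub_self]
  ring

/-- E0 -/
theorem gn_linf (w : AbsoluteValue L ℝ) (z : Fin 2 → L) : gn w (linf z) = nv w z := by
  have h0 : (linf z).coeff 0 = -z 0 := by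
    unfold linf
    simp
  have h1 : (linf z).coeff 1 = z 1 := by
    unfold linf
    rw [coeff_sub, coeff_C_mul, coeff_X_one, show (C (z 0)).coeff 1 = 0 from coeff_C_succ]
    ring
  apply le_antisymm
  · apply gn_le
    intro j
    match j with
    | 0 => rw [h0, w.map_neg]; exact le_max_left _ _
    | 1 => rw [h1]; exact le_max_right _ _
    | (k + 2) =>
      have : (linf z).coeff (k + 2) = 0 := by
        unfold linf
        rw [coeff_sub, coeff_C_mul, coeff_C_succ, coeff_X]
        simp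
      rw [this, map_zero]
      exact nv_nonneg w z
  · apply max_le
    · have := le_gn w (linf z) 0
      rwa [h0, w.map_neg] at this
    · have := le_gn w (linf z) 1
      rwa [h1] at this

theorem e0_natDegree (z : Fin 2 → L) : (linf z).natDegree ≤ 1 := by
  unfold linf
  refine (natDegree_sub_le _ _).trans (max_le ?_ ?_)
  · exact (natDegree_C_mul_le _ _).trans natDegree_X_le
  · rw [natDegree_C]; exact zero_le_one

theorem e0_natDegree_prod {ι : Type*} (s : Finset ι) (z : ι → Fin 2 → L) :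
    (∏ i ∈ s, linf (z i)).natDegree ≤ s.card := by
  refine (natDegree_prod_le s _).trans ?_
  refine (Finset.sum_le_sum (fun i _ => e0_natDegree (z i))).trans ?_
  simp

theorem e0_hev_prod {ι : Type*} [DecidableEq ι] (s : Finset ι) (z : ι → Fin 2 → L)
    (x : Fin 2 → L) : hev s.card (∏ i ∈ s, linf (z i)) x = ∏ i ∈ s, wd x (z i) := by
  induction s using Finset.induction_on with
  | empty => simp [hev_one]
  | insert a s ha ih =>
    rw [Finset.prod_insert ha, Finset.prod_insert ha, Finset.card_insert_of_notMem ha,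
      add_comm s.card 1, hev_mul 1 s.card _ _ (e0_natDegree _) (e0_natDegree_prod s z), ih,
      hev_linf]

/-- E0 -/
theorem hev_prod {ι : Type*} [Fintype ι] (c : L) (z : ι → Fin 2 → L) (x : Fin 2 → L) :
    hev (Fintype.card ι) (C c * ∏ i, linf (z i)) x = c * ∏ i, wd x (z i) := by
  classical
  rw [hev_C_mul, ← Finset.card_univ, e0_hev_prod]

/-- E0 -/
theorem hev_le_gn {w : AbsoluteValue L ℝ} (hw : IsNonarchimedean w) (n : ℕ) (p : L[X])
    (x : Fin 2 → L) : w (hev n p x) ≤ gn w p * nv w x ^ n := by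
  unfold hev
  have key : ∀ s : Finset ℕ, s ⊆ Finset.range (n + 1) →
      w (∑ j ∈ s, p.coeff j * x 0 ^ j * x 1 ^ (n - j)) ≤ gn w p * nv w x ^ n := by
    intro s
    induction s using Finset.induction_on with
    | empty =>
      intro _
      rw [Finset.sum_empty, map_zero]
      exact mul_nonneg (gn_nonneg w p) (pow_nonneg (nv_nonneg w x) n)
    | insert a s ha ih =>
      intro hs
      rw [Finset.sum_insert ha]
      refine (hw _ _).trans (max_le ?_ (ih ((Finset.subset_insert a s).trans hs)))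
      have ha' : a ≤ n := Nat.lt_succ_iff.1 (Finset.mem_range.1 (hs (Finset.mem_insert_self a s)))
      rw [map_mul, map_mul, map_pow, map_pow, mul_assoc]
      have e : nv w x ^ n = nv w x ^ a * nv w x ^ (n - a) := by
        rw [← pow_add]; congr 1; omega
      rw [e]
      apply mul_le_mul (le_gn w p a) _ (by positivity) (gn_nonneg w p)
      exact mul_le_mul (pow_le_pow_left₀ (w.nonneg _) (le_nv w x 0) a)
        (pow_le_pow_left₀ (w.nonneg _) (le_nv w x 1) _) (by positivity)
        (pow_nonneg (nv_nonneg w x) _)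
  exact key _ (Finset.Subset.refl _)

end roots

end Pool.Agent.Lib_helper95.NP
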