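import Pool.Agent.Lib_helper95.NP.Psd
import Pool.Agent.Lib_helper95.NP.AuxPts

/-!
# The energy inequality with auxiliary points
-/

set_option autoImplicit false

universe u

namespace Pool.Agent.Lib_helper95.NP

open Polynomial Real Pool.Agent.Lib_helper95.FP

/-- Expansion of a quadratic form for a family which consists of four parts. -/
theorem quad4 {V α β γ δ : Type*} [Fintype α] [Fintype β] [Fintype γ] [Fintype δ]
    (k : V → V → ℝ) (hk : ∀ p q, k p q = k q p) (x : α → V) (z : β → V) (a : γ → V) (b : δ → V)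
    (A B C D : ℝ) :
    ∑ i : α ⊕ (β ⊕ (γ ⊕ δ)), ∑ j : α ⊕ (β ⊕ (γ ⊕ δ)),
      (Sum.elim (fun _ : α => A) (Sum.elim (fun _ : β => B) (Sum.elim (fun _ : γ => C)
        (fun _ : δ => D))) i) *
      (Sum.elim (fun _ : α => A) (Sum.elim (fun _ : β => B) (Sum.elim (fun _ : γ => C)
        (fun _ : δ => D))) j) *
      k (Sum.elim x (Sum.elim z (Sum.elim a b)) i) (Sum.elim x (Sum.elim z (Sum.elim a b)) j) =
    A ^ 2 * ∑ i, ∑ j, k (x i) (x j) + B ^ 2 * ∑ i, ∑ j, k (z i) (z j) +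
      C ^ 2 * ∑ i, ∑ j, k (a i) (a j) + D ^ 2 * ∑ i, ∑ j, k (b i) (b j) +
      2 * (A * B) * ∑ i, ∑ j, k (x i) (z j) + 2 * (A * C) * ∑ i, ∑ j, k (x i) (a j) +
      2 * (A * D) * ∑ i, ∑ j, k (x i) (b j) + 2 * (B * C) * ∑ i, ∑ j, k (z i) (a j) +
      2 * (B * D) * ∑ i, ∑ j, k (z i) (b j) + 2 * (C * D) * ∑ i, ∑ j, k (a i) (b j) := by
  simp only [Fintype.sum_sum_type, Sum.elim_inl, Sum.elim_inr, Finset.sum_add_distrib,
    ← Finset.mul_sum, mul_assoc]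
  have e1 : ∑ j, ∑ i, k (z j) (x i) = ∑ i, ∑ j, k (x i) (z j) := by
    rw [Finset.sum_comm]
    exact Finset.sum_congr rfl fun i _ => Finset.sum_congr rfl fun j _ => hk _ _
  have e2 : ∑ j, ∑ i, k (a j) (x i) = ∑ i, ∑ j, k (x i) (a j) := by
    rw [Finset.sum_comm]
    exact Finset.sum_congr rfl fun i _ => Finset.sum_congr rfl fun j _ => hk _ _
  have e3 : ∑ j, ∑ i, k (b j) (x i) = ∑ i, ∑ j, k (x i) (b j) := by
    rw [Finset.sum_comm]
    exact Finset.sum_congr rfl fun i _ => Finset.sum_congr rfl fun j _ => hk _ _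
  have e4 : ∑ j, ∑ i, k (a j) (z i) = ∑ i, ∑ j, k (z i) (a j) := by
    rw [Finset.sum_comm]
    exact Finset.sum_congr rfl fun i _ => Finset.sum_congr rfl fun j _ => hk _ _
  have e5 : ∑ j, ∑ i, k (b j) (z i) = ∑ i, ∑ j, k (z i) (b j) := by
    rw [Finset.sum_comm]
    exact Finset.sum_congr rfl fun i _ => Finset.sum_congr rfl fun j _ => hk _ _
  have e6 : ∑ j, ∑ i, k (b j) (a i) = ∑ i, ∑ j, k (a i) (b j) := by
    rw [Finset.sum_comm]
    exact Finset.sum_congr rfl fun i _ => Finset.sum_congr rfl fun j _ => hk _ _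
  rw [e1, e2, e3, e4, e5, e6]
  ring

section

variable {L : Type*} [Field L]

/-- The truncated logarithmic kernel. -/
noncomputable def kt (w : AbsoluteValue L ℝ) (τ : ℝ) (p q : Fin 2 → L) : ℝ :=
  -log (max (w (FP.wd p q)) τ)

/-- The shift of the kernel. -/
noncomputable def hh (w : AbsoluteValue L ℝ) (d : ℕ) (G : Fin 2 → L[X]) (p : Fin 2 → L) : ℝ :=
  HH w d G p - log (w (res d G)) / (d * (d - 1)) / 2

/-- The truncated Green function. -/
noncomputable def kk (w : AbsoluteValue L ℝ) (d : ℕ) (G : Fin 2 → L[X]) (τ : ℝ)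
    (p q : Fin 2 → L) : ℝ := kt w τ p q + hh w d G p + hh w d G q

variable {w : AbsoluteValue L ℝ} {d : ℕ} {G : Fin 2 → L[X]} {τ : ℝ}

theorem kt_comm (p q : Fin 2 → L) : kt w τ p q = kt w τ q p := by
  unfold kt
  rw [w_wd_comm]

theorem kk_comm (p q : Fin 2 → L) : kk w d G τ p q = kk w d G τ q p := by
  unfold kk
  rw [kt_comm]
  ring

theorem gg_eq_hh (p q : Fin 2 → L) :
    gg w d G p q = -log (w (FP.wd p q)) + hh w d G p + hh w d G q := by
  unfold gg hh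
  ring

theorem kt_nonneg (hw : IsNonarchimedean w) (hτ : 0 < τ) (hτ1 : τ ≤ 1) (p q : Fin 2 → L)
    (hp : nv w p = 1) (hq : nv w q = 1) : 0 ≤ kt w τ p q := by
  unfold kt
  have h1 : log (max (w (FP.wd p q)) τ) ≤ 0 :=
    Real.log_nonpos (hτ.le.trans (le_max_right _ _)) (max_le (wd_le_one hw p q hp hq) hτ1)
  linarith

theorem kt_le (hτ : 0 < τ) (p q : Fin 2 → L) : kt w τ p q ≤ -log τ := by
  unfold kt
  have := Real.log_le_log hτ (le_max_right (w (FP.wd p q)) τ)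
  linarith

theorem kt_self (p : Fin 2 → L) (hτ : 0 < τ) : kt w τ p p = -log τ := by
  unfold kt
  have : FP.wd p p = 0 := by unfold FP.wd; ring
  rw [this, map_zero, max_eq_right hτ.le]

theorem kk_le_gg (p q : Fin 2 → L) (h : FP.wd p q ≠ 0) : kk w d G τ p q ≤ gg w d G p q := by
  rw [gg_eq_hh]
  unfold kk kt
  have := Real.log_le_log (w.pos h) (le_max_left (w (FP.wd p q)) τ)
  linarith

theorem kk_eq_gg (p q : Fin 2 → L) (h : τ ≤ w (FP.wd p q)) : kk w d G τ p q = gg w d G p q := by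
  rw [gg_eq_hh]
  unfold kk kt
  rw [max_eq_left h]

theorem kt_ultra (hw : IsNonarchimedean w) (hτ : 0 < τ) (p q s : Fin 2 → L) (hp : nv w p = 1)
    (hq : nv w q = 1) (hs : nv w s = 1) : min (kt w τ p q) (kt w τ q s) ≤ kt w τ p s := by
  have h1 := wd_tri hw p q s hp.le hq hs.le
  unfold kt
  have h2 : max (w (FP.wd p s)) τ ≤ max (max (w (FP.wd p q)) τ) (max (w (FP.wd q s)) τ) := by
    apply max_le
    · exact h1.trans (max_le_max (le_max_left _ _) (le_max_left _ _))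
    · exact (le_max_right _ _).trans (le_max_left _ _)
  have h0 : 0 < max (w (FP.wd p s)) τ := lt_of_lt_of_le hτ (le_max_right _ _)
  rcases max_choice (max (w (FP.wd p q)) τ) (max (w (FP.wd q s)) τ) with h | h
  · rw [h] at h2
    have := Real.log_le_log h0 h2
    exact (min_le_left _ _).trans (by linarith)
  · rw [h] at h2
    have := Real.log_le_log h0 h2
    exact (min_le_right _ _).trans (by linarith)

theorem kk_psd (hw : IsNonarchimedean w) (hτ : 0 < τ) (hτ1 : τ ≤ 1) {ι : Type*} [Fintype ι]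
    (p : ι → Fin 2 → L) (hp : ∀ i, nv w (p i) = 1) (W : ι → ℝ) (hW : ∑ i, W i = 0) :
    0 ≤ ∑ i, ∑ j, W i * W j * kk w d G τ (p i) (p j) := by
  have h1 := psd_ultra (fun i j => kt w τ (p i) (p j)) (-log τ)
    (by have := Real.log_nonpos hτ.le hτ1; linarith)
    (fun i j => kt_nonneg hw hτ hτ1 _ _ (hp i) (hp j)) (fun i j => kt_le hτ _ _)
    (fun i => kt_self _ hτ) (fun i j => kt_comm _ _)
    (fun i j l => kt_ultra hw hτ _ _ _ (hp i) (hp j) (hp l)) W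
  refine h1.trans (le_of_eq ?_)
  have e : ∑ i, ∑ j, W i * W j * kk w d G τ (p i) (p j) =
      ∑ i, ∑ j, W i * W j * kt w τ (p i) (p j) +
        (∑ i, W i * hh w d G (p i)) * ∑ j, W j + (∑ i, W i) * ∑ j, W j * hh w d G (p j) := by
    rw [Finset.sum_mul_sum, Finset.sum_mul_sum, ← Finset.sum_add_distrib, ← Finset.sum_add_distrib]
    apply Finset.sum_congr rfl
    intro i _
    rw [← Finset.sum_add_distrib, ← Finset.sum_add_distrib]
    apply Finset.sum_congr rfl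
    intro j _
    unfold kk
    ring
  rw [e, hW]
  ring

theorem hh_le (hw : IsNonarchimedean w) (hG : Good d G) (hn : nF w d G = 1)
    (hR : w (res d G) ≤ 1) (p : Fin 2 → L) (hp : nv w p = 1) :
    hh w d G p ≤ -log (w (res d G)) / 4 := by
  have hd : (2 : ℝ) ≤ d := by exact_mod_cast hG.two_le
  have h1 := HH_le hw hG hn p (p1_ne hp)
  rw [hp, Real.log_one] at h1
  have hl := Real.log_nonpos (w.nonneg _) hR
  have h2 : -log (w (res d G)) / (d * (d - 1)) ≤ -log (w (res d G)) / 2 :=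
    div_le_div_of_nonneg_left (by linarith) (by norm_num) (by nlinarith)
  have e : log (w (res d G)) / (d * (d - 1)) = -(-log (w (res d G)) / (d * (d - 1))) := by
    rw [neg_div, neg_neg]
  unfold hh
  rw [e]
  linarith

end

section energy

variable {L : Type*} [Field L] {w : AbsoluteValue L ℝ} {d : ℕ} {G : Fin 2 → L[X]}

/-- **The energy inequality** with auxiliary points. -/
theorem energy (hw : IsNonarchimedean w) (hG : Good d G) (hn : nF w d G = 1)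
    (hR : w (res d G) < 1) (S n C₁ : ℕ) (hnS : d ^ n ≤ S) (hCS : C₁ ≤ S) (M K₁ : ℕ) (hM : 1 ≤ M)
    (hK₁ : 1 ≤ K₁) (x : Fin M → Fin 2 → L) (a b : Fin K₁ → Fin 2 → L)
    (z : Fin K₁ → Fin (d ^ n) → Fin 2 → L) (ux : ∀ i, nv w (x i) = 1) (ua : ∀ i, nv w (a i) = 1)
    (ub : ∀ i, nv w (b i) = 1) (uz : ∀ k i, nv w (z k i) = 1)
    (hx : ∀ i j, i ≠ j → FP.wd (x i) (x j) ≠ 0) (hxz : ∀ i k, PG w d G n (x i) (z k))
    (haz : ∀ l k, PG w d G n (a l) (z k)) (hbz : ∀ l k, PG w d G n (b l) (z k))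
    (hzz : ∀ l i k, l ≠ k → PG w d G n (z l i) (z k))
    (haa : ∀ k l, k ≠ l → w (res d G) ^ C₁ ≤ w (FP.wd (a k) (a l)))
    (hbb : ∀ k l, k ≠ l → w (res d G) ^ C₁ ≤ w (FP.wd (b k) (b l)))
    (hxa : ∀ i k, w (res d G) ^ S ≤ w (FP.wd (x i) (a k)))
    (hxb : ∀ i k, w (res d G) ^ S ≤ w (FP.wd (x i) (b k))) (η : ℝ)
    (hxab : ∀ i k, gg w d G (x i) (a k) - gg w d G (x i) (b k) ≤
      -(η / 2 * -log (w (res d G)))) (t : ℝ) (ht0 : 0 ≤ t) (ht1 : t ≤ 1) :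
    (M : ℝ) ^ 2 * -log (w (res d G)) * (t * η - 2 * C₁ * t ^ 2 - 11 / (d : ℝ) ^ n -
      (3 * S + 1) / K₁ - (S + 1) / M) ≤
      ∑ i, ∑ j ∈ Finset.univ.erase i, gg w d G (x i) (x j) := by
  have hd2 := hG.two_le
  have hd : (2 : ℝ) ≤ d := by exact_mod_cast hd2
  have hr0 : 0 < w (res d G) := w.pos hG.res_ne
  obtain ⟨ρ, hρ⟩ : ∃ ρ : ℝ, ρ = -log (w (res d G)) := ⟨_, rfl⟩
  have hρ0 : 0 < ρ := by rw [hρ]; linarith [Real.log_neg hr0 hR]
  obtain ⟨τ, hτ⟩ : ∃ τ : ℝ, τ = w (res d G) ^ S := ⟨_, rfl⟩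
  have hτ0 : 0 < τ := by rw [hτ]; positivity
  have hτ1 : τ ≤ 1 := by rw [hτ]; exact pow_le_one₀ hr0.le hR.le
  have hlτ : -log τ = S * ρ := by rw [hτ, Real.log_pow, hρ]; ring
  rw [← hρ]
  simp only [← hρ] at hxab
  rw [← hτ] at hxa hxb
  have hM0 : (0 : ℝ) < M := by exact_mod_cast hM
  have hK0 : (0 : ℝ) < K₁ := by exact_mod_cast hK₁
  obtain ⟨D, hD⟩ : ∃ D : ℝ, D = (d : ℝ) ^ n := ⟨_, rfl⟩
  have hD0 : 0 < D := by rw [hD]; positivity
  have hcardD : ((Finset.univ : Finset (Fin (d ^ n))).card : ℝ) = D := by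
    rw [Finset.card_univ, Fintype.card_fin, hD]; push_cast; rfl
  rw [← hD]
  have hS0 : (0 : ℝ) ≤ S := Nat.cast_nonneg _
  have hC0 : (0 : ℝ) ≤ C₁ := Nat.cast_nonneg _
  -- elementary bounds
  have hlog : log (w (res d G)) = -ρ := by rw [hρ]; ring
  have hPG : ∀ (p : Fin 2 → L) (k : Fin K₁), PG w d G n p (z k) →
      -(2 * ρ) ≤ ∑ i, kk w d G τ p (z k i) ∧ ∑ i, kk w d G τ p (z k i) ≤ ρ := by
    intro p k hp
    obtain ⟨h1, h2, h3⟩ := hp
    have e : ∑ i, kk w d G τ p (z k i) = ∑ i, gg w d G p (z k i) := by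
      apply Finset.sum_congr rfl
      intro i _
      apply kk_eq_gg
      refine le_trans ?_ (h3 i)
      rw [hτ]
      exact pow_le_pow_of_le_one hr0.le hR.le hnS
    rw [e]
    rw [hlog] at h1 h2
    have h4 : ρ / (d - 1) ≤ ρ := div_le_self hρ0.le (by linarith)
    have h5 : ρ / (d * (d - 1)) ≤ ρ := div_le_self hρ0.le (by nlinarith)
    rw [neg_div] at h1
    rw [neg_neg] at h2
    constructor
    · linarith
    · linarith
  have hkk : ∀ p q : Fin 2 → L, nv w p = 1 → nv w q = 1 → kk w d G τ p q ≤ (S + 1) * ρ := by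
    intro p q hp hq
    have h1 := kt_le (w := w) hτ0 p q
    have h2 := hh_le hw hG hn hR.le p hp
    have h3 := hh_le hw hG hn hR.le q hq
    rw [hlog] at h2 h3
    rw [hlτ] at h1
    unfold kk
    linarith
  -- the quadratic form
  have hW : ∑ i : Fin M ⊕ ((Fin K₁ × Fin (d ^ n)) ⊕ (Fin K₁ ⊕ Fin K₁)),
      (Sum.elim (fun _ => 1 / (M : ℝ)) (Sum.elim (fun _ => -(1 / (K₁ * D)))
        (Sum.elim (fun _ => t / K₁) (fun _ => -(t / K₁)))) i) = 0 := by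
    simp only [Fintype.sum_sum_type, Sum.elim_inl, Sum.elim_inr, Finset.sum_const,
      Finset.card_univ, Fintype.card_fin, Fintype.card_prod, nsmul_eq_mul]
    push_cast
    rw [← hD]
    field_simp
    ring
  have hpsd := kk_psd (G := G) (d := d) hw hτ0 hτ1
    (Sum.elim x (Sum.elim (fun p : Fin K₁ × Fin (d ^ n) => z p.1 p.2) (Sum.elim a b)))
    (by
      rintro (i | i | i | i)
      · exact ux i
      · exact uz i.1 i.2
      · exact ua i
      · exact ub i) _ hW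
  rw [quad4 (kk w d G τ) kk_comm] at hpsd
  -- the parts
  obtain ⟨E, hE⟩ : ∃ E : ℝ, E = ∑ i, ∑ j ∈ Finset.univ.erase i, gg w d G (x i) (x j) := ⟨_, rfl⟩
  rw [← hE]
  have hXX : ∑ i, ∑ j, kk w d G τ (x i) (x j) ≤ E + M * ((S + 1) * ρ) := by
    have h1 : ∀ i, ∑ j, kk w d G τ (x i) (x j) ≤
        ∑ j ∈ Finset.univ.erase i, gg w d G (x i) (x j) + (S + 1) * ρ := by
      intro i
      rw [← Finset.sum_erase_add _ _ (Finset.mem_univ i)]
      apply add_le_add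
      · apply Finset.sum_le_sum
        intro j hj
        exact kk_le_gg _ _ (hx i j (Finset.ne_of_mem_erase hj).symm)
      · exact hkk _ _ (ux i) (ux i)
    refine (Finset.sum_le_sum fun i _ => h1 i).trans (le_of_eq ?_)
    rw [Finset.sum_add_distrib, Finset.sum_const, Finset.card_univ, Fintype.card_fin,
      nsmul_eq_mul, hE]
  have hZZ : ∑ p : Fin K₁ × Fin (d ^ n), ∑ q : Fin K₁ × Fin (d ^ n),
      kk w d G τ (z p.1 p.2) (z q.1 q.2) ≤
      (K₁ * D) * (K₁ * ρ + D * ((S + 1) * ρ)) := by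
    have h1 : ∀ p : Fin K₁ × Fin (d ^ n), ∑ q : Fin K₁ × Fin (d ^ n),
        kk w d G τ (z p.1 p.2) (z q.1 q.2) ≤ K₁ * ρ + D * ((S + 1) * ρ) := by
      rintro ⟨l, i⟩
      rw [Fintype.sum_prod_type, ← Finset.sum_erase_add _ _ (Finset.mem_univ l)]
      apply add_le_add
      · calc ∑ k ∈ Finset.univ.erase l, ∑ j, kk w d G τ (z l i) (z k j) ≤
              ∑ _k ∈ Finset.univ.erase l, ρ := by
              apply Finset.sum_le_sum
              intro k hk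
              exact (hPG _ k (hzz l i k (Finset.ne_of_mem_erase hk).symm)).2
          _ ≤ ∑ _k : Fin K₁, ρ := by
              apply Finset.sum_le_sum_of_subset_of_nonneg (Finset.erase_subset _ _)
              intro _ _ _
              exact hρ0.le
          _ = K₁ * ρ := by
              rw [Finset.sum_const, Finset.card_univ, Fintype.card_fin, nsmul_eq_mul]
      · refine (Finset.sum_le_sum fun j _ => hkk _ _ (uz l i) (uz l j)).trans (le_of_eq ?_)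
        rw [Finset.sum_const, nsmul_eq_mul, hcardD]
    refine (Finset.sum_le_sum fun p _ => h1 p).trans (le_of_eq ?_)
    rw [Finset.sum_const, Finset.card_univ, Fintype.card_prod, Fintype.card_fin, Fintype.card_fin,
      nsmul_eq_mul]
    push_cast
    rw [← hD]
  have hXZ : -(M * K₁ * (2 * ρ)) ≤ ∑ i, ∑ q : Fin K₁ × Fin (d ^ n),
      kk w d G τ (x i) (z q.1 q.2) := by
    have h1 : ∀ i, -(K₁ * (2 * ρ)) ≤ ∑ q : Fin K₁ × Fin (d ^ n), kk w d G τ (x i) (z q.1 q.2) := by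
      intro i
      rw [Fintype.sum_prod_type]
      refine le_trans (le_of_eq ?_) (Finset.sum_le_sum fun k _ => (hPG (x i) k (hxz i k)).1)
      rw [Finset.sum_const, Finset.card_univ, Fintype.card_fin, nsmul_eq_mul]
      ring
    refine le_trans (le_of_eq ?_) (Finset.sum_le_sum fun i _ => h1 i)
    rw [Finset.sum_const, Finset.card_univ, Fintype.card_fin, nsmul_eq_mul]
    ring
  have hZA : ∀ c : Fin K₁ → Fin 2 → L, (∀ l k, PG w d G n (c l) (z k)) →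
      -(K₁ * K₁ * (2 * ρ)) ≤ ∑ q : Fin K₁ × Fin (d ^ n), ∑ l, kk w d G τ (z q.1 q.2) (c l) ∧
      ∑ q : Fin K₁ × Fin (d ^ n), ∑ l, kk w d G τ (z q.1 q.2) (c l) ≤ K₁ * K₁ * ρ := by
    intro c hc
    have e : ∑ q : Fin K₁ × Fin (d ^ n), ∑ l, kk w d G τ (z q.1 q.2) (c l) =
        ∑ l, ∑ k, ∑ i, kk w d G τ (c l) (z k i) := by
      rw [Finset.sum_comm]
      apply Finset.sum_congr rfl
      intro l _
      rw [Fintype.sum_prod_type]
      apply Finset.sum_congr rfl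
      intro k _
      apply Finset.sum_congr rfl
      intro i _
      exact kk_comm _ _
    rw [e]
    constructor
    · refine le_trans (le_of_eq ?_) (Finset.sum_le_sum fun l _ => Finset.sum_le_sum fun k _ =>
        (hPG (c l) k (hc l k)).1)
      rw [Finset.sum_const, Finset.sum_const, Finset.card_univ, Fintype.card_fin, nsmul_eq_mul,
        nsmul_eq_mul]
      ring
    · refine le_trans (Finset.sum_le_sum fun l _ => Finset.sum_le_sum fun k _ =>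
        (hPG (c l) k (hc l k)).2) (le_of_eq ?_)
      rw [Finset.sum_const, Finset.sum_const, Finset.card_univ, Fintype.card_fin, nsmul_eq_mul,
        nsmul_eq_mul]
      ring
  have hXAB : ∑ i, ∑ k, kk w d G τ (x i) (a k) - ∑ i, ∑ k, kk w d G τ (x i) (b k) ≤
      -(M * K₁ * (η / 2 * ρ)) := by
    rw [← Finset.sum_sub_distrib]
    have h1 : ∀ i, ∑ k, kk w d G τ (x i) (a k) - ∑ k, kk w d G τ (x i) (b k) ≤
        -(K₁ * (η / 2 * ρ)) := by
      intro i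
      rw [← Finset.sum_sub_distrib]
      refine le_trans (Finset.sum_le_sum (g := fun _ => -(η / 2 * ρ)) fun k _ => ?_)
        (le_of_eq ?_)
      · rw [kk_eq_gg _ _ (hxa i k), kk_eq_gg _ _ (hxb i k)]
        exact hxab i k
      · rw [Finset.sum_const, Finset.card_univ, Fintype.card_fin, nsmul_eq_mul]
        ring
    refine (Finset.sum_le_sum fun i _ => h1 i).trans (le_of_eq ?_)
    rw [Finset.sum_const, Finset.card_univ, Fintype.card_fin, nsmul_eq_mul]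
    ring
  -- the part of `a` and `b`
  have hkksum : ∀ c e : Fin K₁ → Fin 2 → L, ∑ k, ∑ l, kk w d G τ (c k) (e l) =
      ∑ k, ∑ l, kt w τ (c k) (e l) + K₁ * ∑ k, hh w d G (c k) + K₁ * ∑ l, hh w d G (e l) := by
    intro c e
    unfold kk
    simp only [Finset.sum_add_distrib, Finset.sum_const, Finset.card_univ, Fintype.card_fin,
      nsmul_eq_mul]
    rw [← Finset.mul_sum]
  have hktaa : ∀ c : Fin K₁ → Fin 2 → L,
      (∀ k l, k ≠ l → w (res d G) ^ C₁ ≤ w (FP.wd (c k) (c l))) →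
      ∑ k, ∑ l, kt w τ (c k) (c l) ≤ K₁ * (K₁ * (C₁ * ρ) + S * ρ) := by
    intro c hc
    have h1 : ∀ k, ∑ l, kt w τ (c k) (c l) ≤ K₁ * (C₁ * ρ) + S * ρ := by
      intro k
      rw [← Finset.sum_erase_add _ _ (Finset.mem_univ k)]
      apply add_le_add
      · calc ∑ l ∈ Finset.univ.erase k, kt w τ (c k) (c l) ≤
              ∑ _l ∈ Finset.univ.erase k, (C₁ : ℝ) * ρ := by
              apply Finset.sum_le_sum
              intro l hl
              have h2 := hc k l (Finset.ne_of_mem_erase hl).symm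
              unfold kt
              have h3 := Real.log_le_log (by positivity) (h2.trans (le_max_left _ τ))
              rw [Real.log_pow, hlog] at h3
              linarith
          _ ≤ ∑ _l : Fin K₁, (C₁ : ℝ) * ρ := by
              apply Finset.sum_le_sum_of_subset_of_nonneg (Finset.erase_subset _ _)
              intro _ _ _
              positivity
          _ = K₁ * (C₁ * ρ) := by
              rw [Finset.sum_const, Finset.card_univ, Fintype.card_fin, nsmul_eq_mul]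
      · rw [← hlτ]
        exact kt_le hτ0 _ _
    refine (Finset.sum_le_sum fun k _ => h1 k).trans (le_of_eq ?_)
    rw [Finset.sum_const, Finset.card_univ, Fintype.card_fin, nsmul_eq_mul]
  have hktab : 0 ≤ ∑ k, ∑ l, kt w τ (a k) (b l) :=
    Finset.sum_nonneg fun k _ => Finset.sum_nonneg fun l _ =>
      kt_nonneg hw hτ0 hτ1 _ _ (ua k) (ub l)
  have hAB : ∑ k, ∑ l, kk w d G τ (a k) (a l) + ∑ k, ∑ l, kk w d G τ (b k) (b l) -
      2 * ∑ k, ∑ l, kk w d G τ (a k) (b l) ≤ 2 * (K₁ * (K₁ * (C₁ * ρ) + S * ρ)) := by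
    rw [hkksum a a, hkksum b b, hkksum a b]
    have h1 := hktaa a haa
    have h2 := hktaa b hbb
    linarith
  obtain ⟨za1, -⟩ := hZA a haz
  obtain ⟨-, zb2⟩ := hZA b hbz
  -- collect
  obtain ⟨XX, hXXe⟩ : ∃ XX : ℝ, XX = ∑ i, ∑ j, kk w d G τ (x i) (x j) := ⟨_, rfl⟩
  obtain ⟨ZZ, hZZe⟩ : ∃ ZZ : ℝ, ZZ = ∑ p : Fin K₁ × Fin (d ^ n), ∑ q : Fin K₁ × Fin (d ^ n),
      kk w d G τ (z p.1 p.2) (z q.1 q.2) := ⟨_, rfl⟩
  obtain ⟨XZ, hXZe⟩ : ∃ XZ : ℝ, XZ = ∑ i, ∑ q : Fin K₁ × Fin (d ^ n),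
      kk w d G τ (x i) (z q.1 q.2) := ⟨_, rfl⟩
  obtain ⟨XA, hXAe⟩ : ∃ XA : ℝ, XA = ∑ i, ∑ k, kk w d G τ (x i) (a k) := ⟨_, rfl⟩
  obtain ⟨XB, hXBe⟩ : ∃ XB : ℝ, XB = ∑ i, ∑ k, kk w d G τ (x i) (b k) := ⟨_, rfl⟩
  obtain ⟨ZA, hZAe⟩ : ∃ ZA : ℝ, ZA = ∑ q : Fin K₁ × Fin (d ^ n), ∑ l,
      kk w d G τ (z q.1 q.2) (a l) := ⟨_, rfl⟩
  obtain ⟨ZB, hZBe⟩ : ∃ ZB : ℝ, ZB = ∑ q : Fin K₁ × Fin (d ^ n), ∑ l,
      kk w d G τ (z q.1 q.2) (b l) := ⟨_, rfl⟩
  obtain ⟨AA, hAAe⟩ : ∃ AA : ℝ, AA = ∑ k, ∑ l, kk w d G τ (a k) (a l) := ⟨_, rfl⟩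
  obtain ⟨BB, hBBe⟩ : ∃ BB : ℝ, BB = ∑ k, ∑ l, kk w d G τ (b k) (b l) := ⟨_, rfl⟩
  obtain ⟨AB, hABe⟩ : ∃ AB : ℝ, AB = ∑ k, ∑ l, kk w d G τ (a k) (b l) := ⟨_, rfl⟩
  rw [← hXXe, ← hZZe, ← hXZe, ← hXAe, ← hXBe, ← hZAe, ← hZBe, ← hAAe, ← hBBe, ← hABe] at hpsd
  rw [← hXXe] at hXX
  rw [← hZZe] at hZZ
  rw [← hXZe] at hXZ
  rw [← hXAe, ← hXBe] at hXAB
  rw [← hAAe, ← hBBe, ← hABe] at hAB
  rw [← hZAe] at za1
  rw [← hZBe] at zb2
  have k1 : (1 / (M : ℝ)) ^ 2 * XX ≤ (1 / (M : ℝ)) ^ 2 * (E + M * ((S + 1) * ρ)) :=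
    mul_le_mul_of_nonneg_left hXX (by positivity)
  have k2 : (-(1 / (K₁ * D))) ^ 2 * ZZ ≤
      (-(1 / (K₁ * D))) ^ 2 * ((K₁ * D) * (K₁ * ρ + D * ((S + 1) * ρ))) :=
    mul_le_mul_of_nonneg_left hZZ (by positivity)
  have k3 : (t / K₁) ^ 2 * (AA + BB - 2 * AB) ≤
      (t / K₁) ^ 2 * (2 * (K₁ * (K₁ * (C₁ * ρ) + S * ρ))) :=
    mul_le_mul_of_nonneg_left hAB (by positivity)
  have k4 : 2 * (1 / (M : ℝ) * (1 / (K₁ * D))) * -(M * K₁ * (2 * ρ)) ≤
      2 * (1 / (M : ℝ) * (1 / (K₁ * D))) * XZ :=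
    mul_le_mul_of_nonneg_left hXZ (by positivity)
  have k5 : 2 * (1 / (M : ℝ) * (t / K₁)) * (XA - XB) ≤
      2 * (1 / (M : ℝ) * (t / K₁)) * -(M * K₁ * (η / 2 * ρ)) :=
    mul_le_mul_of_nonneg_left hXAB (by positivity)
  have k6 : 2 * (1 / (K₁ * D) * (t / K₁)) * (ZB - ZA) ≤
      2 * (1 / (K₁ * D) * (t / K₁)) * (K₁ * K₁ * ρ + K₁ * K₁ * (2 * ρ)) :=
    mul_le_mul_of_nonneg_left (by linarith) (by positivity)
  -- simplify the right hand sides
  have r1 : (1 / (M : ℝ)) ^ 2 * (E + M * ((S + 1) * ρ)) = E / M ^ 2 + ρ * ((S + 1) / M) := by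
    field_simp
  have r2 : (-(1 / (K₁ * D))) ^ 2 * ((K₁ * D) * (K₁ * ρ + D * ((S + 1) * ρ))) =
      ρ * (1 / D) + ρ * ((S + 1) / K₁) := by
    field_simp
  have r3 : (t / K₁) ^ 2 * (2 * (K₁ * (K₁ * (C₁ * ρ) + S * ρ))) =
      ρ * (2 * C₁ * t ^ 2) + t ^ 2 * (ρ * (2 * S / K₁)) := by
    field_simp
  have r4 : 2 * (1 / (M : ℝ) * (1 / (K₁ * D))) * -(M * K₁ * (2 * ρ)) = -(ρ * (4 / D)) := by
    field_simp
    ring
  have r5 : 2 * (1 / (M : ℝ) * (t / K₁)) * -(M * K₁ * (η / 2 * ρ)) = -(ρ * (t * η)) := by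
    field_simp
  have r6 : 2 * (1 / (K₁ * D) * (t / K₁)) * (K₁ * K₁ * ρ + K₁ * K₁ * (2 * ρ)) =
      t * (ρ * (6 / D)) := by
    field_simp
    ring
  rw [r1] at k1
  rw [r2] at k2
  rw [r3] at k3
  rw [r4] at k4
  rw [r5] at k5
  rw [r6] at k6
  have k7 : t * (ρ * (6 / D)) ≤ ρ * (6 / D) := mul_le_of_le_one_left (by positivity) ht1
  have k8 : t ^ 2 * (ρ * (2 * S / K₁)) ≤ ρ * (2 * S / K₁) :=
    mul_le_of_le_one_left (by positivity) (pow_le_one₀ ht0 ht1)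
  have hfin : 0 ≤ E / M ^ 2 + ρ * ((S + 1) / M) + (ρ * (1 / D) + ρ * ((S + 1) / K₁)) +
      (ρ * (2 * C₁ * t ^ 2) + ρ * (2 * S / K₁)) + ρ * (4 / D) - ρ * (t * η) + ρ * (6 / D) := by
    have e : (1 / (M : ℝ)) ^ 2 * XX + (-(1 / (K₁ * D))) ^ 2 * ZZ + (t / K₁) ^ 2 * AA +
        (-(t / K₁)) ^ 2 * BB + 2 * (1 / (M : ℝ) * -(1 / (K₁ * D))) * XZ +
        2 * (1 / (M : ℝ) * (t / K₁)) * XA + 2 * (1 / (M : ℝ) * -(t / K₁)) * XB +
        2 * (-(1 / (K₁ * D)) * (t / K₁)) * ZA + 2 * (-(1 / (K₁ * D)) * -(t / K₁)) * ZB +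
        2 * (t / K₁ * -(t / K₁)) * AB =
        (1 / (M : ℝ)) ^ 2 * XX + (-(1 / (K₁ * D))) ^ 2 * ZZ +
        (t / K₁) ^ 2 * (AA + BB - 2 * AB) - 2 * (1 / (M : ℝ) * (1 / (K₁ * D))) * XZ +
        2 * (1 / (M : ℝ) * (t / K₁)) * (XA - XB) +
        2 * (1 / (K₁ * D) * (t / K₁)) * (ZB - ZA) := by ring
    rw [e] at hpsd
    linarith
  have hfin2 : ρ * (t * η - 2 * C₁ * t ^ 2 - 11 / D - (3 * S + 1) / K₁ - (S + 1) / M) ≤
      E / M ^ 2 := by
    have e1 : ρ * (11 / D) = ρ * (1 / D) + ρ * (4 / D) + ρ * (6 / D) := by ring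
    have e2 : ρ * ((3 * S + 1) / K₁) = ρ * ((S + 1) / K₁) + ρ * (2 * S / K₁) := by ring
    have e3 : ρ * (t * η - 2 * C₁ * t ^ 2 - 11 / D - (3 * S + 1) / K₁ - (S + 1) / M) =
        ρ * (t * η) - ρ * (2 * C₁ * t ^ 2) - ρ * (11 / D) - ρ * ((3 * S + 1) / K₁) -
          ρ * ((S + 1) / M) := by ring
    rw [e3, e1, e2]
    linarith
  rw [le_div_iff₀ (by positivity)] at hfin2
  linarith

end energy

end Pool.Agent.Lib_helper95.NP
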