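import Pool.Agent.Lib_helper95.NP.LocalK

/-!
# The global argument with few places of any kind and any number of nonsplit places
-/

set_option autoImplicit false

universe u

namespace Pool.Agent.Lib_helper95.NP

open Polynomial Real Height AdmissibleAbsValues Pool.Agent.Lib_helper95.FP

section

variable {K : Type u} [Field K] [AdmissibleAbsValues K]

theorem CF_nonneg (d k : ℕ) (hd : 2 ≤ d) : 0 ≤ CF d k := by
  have hdr : (2 : ℝ) ≤ d := by exact_mod_cast hd
  have h1 : 0 ≤ log ((d ^ k).factorial : ℝ) :=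
    Real.log_nonneg (by exact_mod_cast Nat.one_le_iff_ne_zero.2 (Nat.factorial_ne_zero _))
  have h2 : 0 ≤ log (((d + 1) * (d + 1) * d : ℕ) : ℝ) :=
    Real.log_nonneg (by exact_mod_cast Nat.one_le_iff_ne_zero.2 (by positivity))
  have h3 : 0 ≤ log ((d : ℝ) + 1) := Real.log_nonneg (by linarith)
  unfold CF
  positivity

open Classical in
/-- The global inequality for `2 D` points whose pairs are good at the places of `S`. -/
theorem main_pairs_ns {d : ℕ} {F : Fin 2 → K[X]} (hG : Good d F) (k : ℕ) (hk1 : 1 ≤ k)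
    (S : Finset (AbsoluteValue K ℝ)) (T : Set (AbsoluteValue K ℝ)) (c₁ δ : ℝ) (hc₁ : 0 < c₁) (hδ : 0 < δ)
    (hT : δ * placeSum (fun v => locRes d v F) ≤
      placeSum (fun v => if v ∈ S ∨ v ∈ T then locRes d v F else 0))
    (hTn : ∀ v ∈ T, ∀ x : Fin (d ^ k) → Fin 2 → K, (∀ i, x i ≠ 0) →
      (∀ i j, i ≠ j → FP.wd (x i) (x j) ≠ 0) →
      c₁ * ((d : ℝ) ^ k) ^ 2 * max (locRes d v F) 0 ≤
        ∑ i, ∑ j ∈ Finset.univ.erase i, gg v d F (x i) (x j))
    (x y : Fin (d ^ k) → Fin 2 → K)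
    (hx0 : ∀ i, x i ≠ 0) (hy0 : ∀ i, y i ≠ 0)
    (hx : ∀ i j, i ≠ j → FP.wd (x i) (x j) ≠ 0) (hy : ∀ i j, i ≠ j → FP.wd (y i) (y j) ≠ 0)
    (hxy : ∀ i j, FP.wd (y j) (x i) ≠ 0)
    (hgx : ∀ v ∈ S, ∀ i j, i ≠ j →
      cL d * max (locRes d v F) 0 - tt v * CL d ≤ gg v d F (x i) (x j))
    (hgy : ∀ v ∈ S, ∀ i j, i ≠ j →
      cL d * max (locRes d v F) 0 - tt v * CL d ≤ gg v d F (y i) (y j)) :
    ∃ Rp : ℝ, placeSum (fun v => locRes d v F) ≤ Rp ∧ 0 ≤ Rp ∧
      min (cL d) c₁ * ((d : ℝ) ^ k) ^ 2 * δ *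
          (Rp - totalWeight K * log ((2 * d).factorial)) -
        4 * (d : ℝ) ^ k * (k + 1) * Rp -
        totalWeight K * (2 * (d : ℝ) ^ k * ((d : ℝ) ^ k - 1) * CL d + CF d k) ≤
      2 * ((d : ℝ) ^ k - 1) * (∑ i, canHeight d F (x i) + ∑ i, canHeight d F (y i)) := by
  have hd2 := hG.two_le
  have hd : (2 : ℝ) ≤ d := by exact_mod_cast hd2
  have hn : 1 ≤ d ^ k := Nat.one_le_pow _ _ (by omega)
  have hnr : (2 : ℝ) ≤ (d : ℝ) ^ k := by
    calc (2 : ℝ) ≤ d := hd
      _ = (d : ℝ) ^ 1 := (pow_one _).symm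
      _ ≤ (d : ℝ) ^ k := pow_le_pow_right₀ (by linarith) hk1
  have hl : 0 ≤ log ((2 * d).factorial : ℝ) :=
    Real.log_nonneg (by exact_mod_cast Nat.one_le_iff_ne_zero.2 (Nat.factorial_ne_zero _))
  have hcL := cL_pos hd2
  have hCL := CL_nonneg hd2
  have hCF := CF_nonneg d k hd2
  set c₀ := min (cL d) c₁ with hc₀
  have hc₀0 : 0 < c₀ := lt_min hcL hc₁
  -- the finite set of places
  obtain ⟨B, hB⟩ := exists_B hG (Sum.elim x y) (by rintro (i | i); exacts [hx0 i, hy0 i])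
    (Sum.elim (fun ij : {ij : Fin (d ^ k) × Fin (d ^ k) // ij.1 ≠ ij.2} =>
        FP.wd (x ij.1.1) (x ij.1.2))
      (fun ij : {ij : Fin (d ^ k) × Fin (d ^ k) // ij.1 ≠ ij.2} => FP.wd (y ij.1.1) (y ij.1.2)))
    (by rintro (ij | ij); exacts [hx _ _ ij.2, hy _ _ ij.2])
  have hgsx : ∀ i j, i ≠ j → gs B (fun v => gg v d F (x i) (x j)) =
      canHeight d F (x i) + canHeight d F (x j) := fun i j hij =>
    gs_gg hG _ _ (hx i j hij) B fun v hv => ⟨(hB v hv).1, (hB v hv).2.1 (Sum.inl i),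
      (hB v hv).2.1 (Sum.inl j), (hB v hv).2.2 (Sum.inl ⟨(i, j), hij⟩)⟩
  have hgsy : ∀ i j, i ≠ j → gs B (fun v => gg v d F (y i) (y j)) =
      canHeight d F (y i) + canHeight d F (y j) := fun i j hij =>
    gs_gg hG _ _ (hy i j hij) B fun v hv => ⟨(hB v hv).1, (hB v hv).2.1 (Sum.inr i),
      (hB v hv).2.1 (Sum.inr j), (hB v hv).2.2 (Sum.inr ⟨(i, j), hij⟩)⟩
  have hloc0 : ∀ v : nonarchAbsVal (K := K), v ∉ B → locRes d v.val F = 0 := fun v hv =>
    locRes_good hG v (hB v hv).1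
  rw [placeSum_eq B (fun v => locRes d v F) hloc0, placeSum_eq B
    (fun v => if v ∈ S ∨ v ∈ T then locRes d v F else 0) (fun v hv => by
      simp only [hloc0 v hv, ite_self])] at hT
  rw [placeSum_eq B (fun v => locRes d v F) hloc0]
  set Rp := gs B (fun v => max (locRes d v F) 0) with hRp
  have hRple : gs B (fun v => locRes d v F) ≤ Rp :=
    gs_le B _ _ (fun v _ => le_max_left _ _) (fun v _ => le_max_left _ _)
  have hRp0 : 0 ≤ Rp := gs_tt_nonneg B _ fun v => le_max_right _ _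
  refine ⟨Rp, hRple, hRp0, ?_⟩
  -- the positive part
  have hpos : ∀ v : AbsoluteValue K ℝ, max (locRes d v F) 0 ≤
      locRes d v F + tt v * log ((2 * d).factorial) := by
    intro v
    have h1 := locRes_ge (AV_tt v) hG
    have h2 : 0 ≤ (tt v : ℝ) * log ((2 * d).factorial) := mul_nonneg (Nat.cast_nonneg _) hl
    exact max_le (by linarith) (by linarith)
  have hRp2 : Rp ≤ gs B (fun v => locRes d v F) + totalWeight K * log ((2 * d).factorial) := by
    have h1 : Rp ≤ gs B (fun v => locRes d v F + tt v * log ((2 * d).factorial)) :=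
      gs_le B _ _ (fun v _ => hpos v) (fun v _ => hpos v)
    rw [gs_add] at h1
    have h2 := gs_tt_le B (log ((2 * d).factorial)) hl
    linarith
  have hRT : gs B (fun v => if v ∈ S ∨ v ∈ T then locRes d v F else 0) ≤
      gs B (fun v => if v ∈ S ∨ v ∈ T then max (locRes d v F) 0 else 0) := by
    apply gs_le
    · intro v _
      split_ifs
      · exact le_max_left _ _
      · exact le_rfl
    · intro v _
      split_ifs
      · exact le_max_left _ _
      · exact le_rfl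
  -- the local inequality
  set D : ℝ := (d : ℝ) ^ k with hD
  set C3 : ℝ := 2 * D * (D - 1) * CL d + CF d k with hC3
  have hD1 : 0 ≤ D - 1 := by linarith
  have hD0 : 0 ≤ D := by linarith
  have hloc : ∀ v : AbsoluteValue K ℝ,
      ((c₀ * D ^ 2) * (if v ∈ S ∨ v ∈ T then max (locRes d v F) 0 else 0) -
        (4 * D * (k + 1)) * max (locRes d v F) 0) - tt v * C3 ≤
      ∑ i, ∑ j ∈ Finset.univ.erase i, gg v d F (x i) (x j) +
        ∑ i, ∑ j ∈ Finset.univ.erase i, gg v d F (y i) (y j) := by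
    intro v
    have hm := le_max_right (locRes d v F) 0
    have htt : (0 : ℝ) ≤ tt v := Nat.cast_nonneg _
    have h5 : 0 ≤ tt v * CF d k := mul_nonneg htt hCF
    have h4 : 0 ≤ (4 * D * (k + 1)) * max (locRes d v F) 0 := by positivity
    have h6 : 0 ≤ tt v * (2 * D * (D - 1) * CL d) := by positivity
    by_cases hvT : v ∈ T
    · rw [if_pos (Or.inr hvT)]
      have h1 := hTn v hvT x hx0 hx
      have h1y := hTn v hvT y hy0 hy
      have h10 : 0 ≤ c₁ * D ^ 2 * max (locRes d v F) 0 := by positivity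
      have h2 : c₀ * D ^ 2 * max (locRes d v F) 0 ≤ c₁ * D ^ 2 * max (locRes d v F) 0 := by
        apply mul_le_mul_of_nonneg_right _ hm
        exact mul_le_mul_of_nonneg_right (min_le_right _ _) (by positivity)
      rw [hC3]
      linarith
    by_cases hv : v ∈ S
    · rw [if_pos (Or.inl hv)]
      have h1 : ∀ z : Fin (d ^ k) → Fin 2 → K, (∀ i j, i ≠ j →
          cL d * max (locRes d v F) 0 - tt v * CL d ≤ gg v d F (z i) (z j)) →
          D * (D - 1) * (cL d * max (locRes d v F) 0 - tt v * CL d) ≤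
            ∑ i, ∑ j ∈ Finset.univ.erase i, gg v d F (z i) (z j) := by
        intro z hz
        have h2 := sum_erase_const hn (cL d * max (locRes d v F) 0 - tt v * CL d)
        push_cast at h2
        rw [← hD] at h2
        rw [← h2]
        apply Finset.sum_le_sum
        intro i _
        apply Finset.sum_le_sum
        intro j hj
        exact hz i j (Finset.ne_of_mem_erase hj).symm
      have h2 := h1 x (hgx v hv)
      have h3 := h1 y (hgy v hv)
      have h7 : c₀ * D ^ 2 * max (locRes d v F) 0 ≤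
          2 * D * (D - 1) * cL d * max (locRes d v F) 0 := by
        apply mul_le_mul_of_nonneg_right _ hm
        calc c₀ * D ^ 2 ≤ cL d * D ^ 2 :=
              mul_le_mul_of_nonneg_right (min_le_left _ _) (by positivity)
          _ ≤ cL d * (2 * D * (D - 1)) := by
              apply mul_le_mul_of_nonneg_left _ hcL.le
              nlinarith
          _ = _ := by ring
      rw [hC3]
      linarith
    · rw [if_neg (by tauto)]
      have h1 := fekK (AV_tt v) hG k x y hx0 hy0 hx hy hxy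
      rw [← hD] at h1
      rw [hC3]
      linarith
  have hglob := gs_le B _ _ (fun v _ => hloc v) (fun v _ => hloc v.val)
  rw [gs_sub, gs_sub, gs_mul, gs_mul, gs_add, gs_sum, gs_sum] at hglob
  have e1 : ∑ i, gs B (fun v => ∑ j ∈ Finset.univ.erase i, gg v d F (x i) (x j)) =
      2 * (D - 1) * ∑ i, canHeight d F (x i) := by
    have h1 := sum_erase_add hn (fun i => canHeight d F (x i))
    push_cast at h1
    rw [← hD] at h1
    rw [← h1]
    apply Finset.sum_congr rfl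
    intro i _
    rw [gs_sum]
    apply Finset.sum_congr rfl
    intro j hj
    exact hgsx i j (Finset.ne_of_mem_erase hj).symm
  have e2 : ∑ i, gs B (fun v => ∑ j ∈ Finset.univ.erase i, gg v d F (y i) (y j)) =
      2 * (D - 1) * ∑ i, canHeight d F (y i) := by
    have h1 := sum_erase_add hn (fun i => canHeight d F (y i))
    push_cast at h1
    rw [← hD] at h1
    rw [← h1]
    apply Finset.sum_congr rfl
    intro i _
    rw [gs_sum]
    apply Finset.sum_congr rfl
    intro j hj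
    exact hgsy i j (Finset.ne_of_mem_erase hj).symm
  rw [e1, e2, ← hRp] at hglob
  have hC30 : 0 ≤ C3 := by
    rw [hC3]; positivity
  have h3 := gs_tt_le B C3 hC30
  have hDD : 0 ≤ c₀ * D ^ 2 := by positivity
  have h4 : δ * (Rp - totalWeight K * log ((2 * d).factorial)) ≤
      gs B (fun v => if v ∈ S ∨ v ∈ T then max (locRes d v F) 0 else 0) := by
    refine le_trans ?_ (hT.trans hRT)
    apply mul_le_mul_of_nonneg_left _ hδ.le
    linarith
  have h5 := mul_le_mul_of_nonneg_left h4 hDD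
  linarith

end

theorem exists_k0 (d : ℕ) (hd : 2 ≤ d) (C : ℝ) : ∃ k₀ : ℕ, 1 ≤ k₀ ∧ ∀ k : ℕ, k₀ ≤ k →
    C * ((k : ℝ) + 1) ≤ (d : ℝ) ^ k := by
  obtain ⟨m, hm⟩ := exists_nat_ge (2 * |C| + 1)
  refine ⟨2 * m + 2, by omega, fun k hk => ?_⟩
  have hdr : (2 : ℝ) ≤ d := by exact_mod_cast hd
  have hC : C ≤ |C| := le_abs_self C
  have hC0 := abs_nonneg C
  -- (k+1)/2 * m ≤ 2^k
  have h1 : ∀ k : ℕ, 2 * m + 2 ≤ k → (m : ℝ) * (k + 1) ≤ 2 ^ k := by
    intro k hk
    induction k, hk using Nat.le_induction with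
    | base =>
      have h2 : ((m + 1 : ℕ) : ℝ) ≤ 2 ^ m := by
        have : m + 1 ≤ 2 ^ m := Nat.lt_two_pow_self
        exact_mod_cast this
      push_cast at h2 ⊢
      have h3 : (2 : ℝ) ^ (2 * m + 2) = 4 * (2 ^ m * 2 ^ m) := by ring
      have h4 : ((m : ℝ) + 1) * (m + 1) ≤ 2 ^ m * 2 ^ m :=
        mul_le_mul h2 h2 (by positivity) (by positivity)
      have h5 : (0 : ℝ) ≤ m := Nat.cast_nonneg m
      rw [h3]
      nlinarith
    | succ k hk ih =>
      push_cast at ih ⊢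
      have h5 : (0 : ℝ) ≤ m := Nat.cast_nonneg m
      have h6 : (m : ℝ) ≤ m * (k + 1) := by
        have : (0 : ℝ) ≤ k := Nat.cast_nonneg k
        nlinarith
      rw [pow_succ]
      linarith
  have h2 := h1 k hk
  have h3 : (2 : ℝ) ^ k ≤ (d : ℝ) ^ k := pow_le_pow_left₀ (by norm_num) hdr k
  have hk0 : (0 : ℝ) ≤ k := Nat.cast_nonneg k
  calc C * ((k : ℝ) + 1) ≤ m * ((k : ℝ) + 1) := by
        apply mul_le_mul_of_nonneg_right _ (by linarith)
        linarith
    _ ≤ 2 ^ k := h2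
    _ ≤ _ := h3

/-- The choice of the iterate. -/
theorem exists_k_ge (d : ℕ) (hd : 2 ≤ d) (a : ℝ) (ha : 0 < a) (k₀ : ℕ) :
    ∃ k : ℕ, k₀ ≤ k ∧ 1 ≤ k ∧ 4 * ((k : ℝ) + 1) ≤ ((d : ℝ) ^ k - 1) * a := by
  obtain ⟨k₁, hk₁, h⟩ := exists_k0 d hd (4 / a + 1)
  refine ⟨max k₀ k₁, le_max_left _ _, hk₁.trans (le_max_right _ _), ?_⟩
  have h1 := h (max k₀ k₁) (le_max_right _ _)
  set k := max k₀ k₁
  have hk : (0 : ℝ) ≤ k := Nat.cast_nonneg _
  have h2 : 4 / a * ((k : ℝ) + 1) ≤ (d : ℝ) ^ k - 1 := by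
    have : (4 / a + 1) * ((k : ℝ) + 1) = 4 / a * ((k : ℝ) + 1) + (k + 1) := by ring
    linarith
  have h3 := mul_le_mul_of_nonneg_right h2 ha.le
  have e : 4 / a * ((k : ℝ) + 1) * a = 4 * ((k : ℝ) + 1) := by field_simp
  linarith

open Classical in
/-- **Main theorem.** Among `N` points one has a large canonical height. -/
theorem main_ns (d : ℕ) (hd2 : 2 ≤ d) (s : ℕ) (η δ : ℝ) (hη : 0 < η) (hδ : 0 < δ) :
    ∃ (N : ℕ) (c C : ℝ), 0 < c ∧ 0 ≤ C ∧ ∀ (K : Type u) (_ : Field K) (_ : AdmissibleAbsValues K)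
      (F : Fin 2 → K[X]) (_ : Good d F) (S : Finset (AbsoluteValue K ℝ)) (T : Set (AbsoluteValue K ℝ)),
      S.card ≤ s →
      (∀ v ∈ T, Nsp d η F v) →
      δ * placeSum (fun v => locRes d v F) ≤
        placeSum (fun v => if v ∈ S ∨ v ∈ T then locRes d v F else 0) →
      ∀ x : Fin N → Fin 2 → K, (∀ i j, i ≠ j → FP.wd (x i) (x j) ≠ 0) →
        ∃ i, c * placeSum (fun v => locRes d v F) - C * totalWeight K ≤ canHeight d F (x i) := by
  have hcL := cL_pos hd2
  have hCL := CL_nonneg hd2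
  obtain ⟨c₁, M₀, hc₁, hloc⟩ := local_nsp.{u} d hd2 η hη
  obtain ⟨k₀, hk₀⟩ : ∃ k₀ : ℕ, M₀ ≤ d ^ k₀ :=
    ⟨M₀, (Nat.lt_two_pow_self (n := M₀)).le.trans (Nat.pow_le_pow_left hd2 M₀)⟩
  obtain ⟨c₀, hc₀⟩ : ∃ c₀ : ℝ, c₀ = min (cL d) c₁ := ⟨_, rfl⟩
  have hc₀0 : 0 < c₀ := by rw [hc₀]; exact lt_min hcL hc₁
  obtain ⟨k, hk0, hk1, hk⟩ := exists_k_ge d hd2 (c₀ * δ / 2) (by positivity) k₀
  have hd : (2 : ℝ) ≤ d := by exact_mod_cast hd2
  have hl : 0 ≤ log ((2 * d).factorial : ℝ) :=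
    Real.log_nonneg (by exact_mod_cast Nat.one_le_iff_ne_zero.2 (Nat.factorial_ne_zero _))
  have hCF := CF_nonneg d k hd2
  obtain ⟨N, hN⟩ := ramsey_multi.{0, u} (ML d) (d ^ k + d ^ k) s
  set D : ℝ := (d : ℝ) ^ k with hD
  have hD2 : 2 ≤ D := by
    calc (2 : ℝ) ≤ d := hd
      _ = (d : ℝ) ^ 1 := (pow_one _).symm
      _ ≤ (d : ℝ) ^ k := pow_le_pow_right₀ (by linarith) hk1
  set C3 : ℝ := 2 * D * (D - 1) * CL d + CF d k with hC3
  have hC30 : 0 ≤ C3 := by
    have hD1 : 0 ≤ D - 1 := by linarith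
    rw [hC3]; positivity
  refine ⟨N, c₀ * δ / 8, C3 + c₀ * δ * log ((2 * d).factorial), by positivity, by positivity, ?_⟩
  intro K _ _ F hG S T hTc hTn hT x hx
  by_contra hcon
  push Not at hcon
  -- the Ramsey argument
  obtain ⟨A, -, hAc, hA⟩ := hN (Fin N) (AbsoluteValue K ℝ) Finset.univ S
    (fun v i j => gg v d F (x i) (x j) < cL d * max (locRes d v F) 0 - tt v * CL d)
    (fun v i j h => by rw [gg_comm]; exact h) hTc
    (fun v _ A _ hAc => by
      have e := A.equivFinOfCardEq hAc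
      obtain ⟨i, j, hij, h⟩ := ll (AV_tt v) hG (fun i => x (e.symm i : A))
        (fun i j hij => hx _ _ fun h => hij (e.symm.injective (Subtype.ext h)))
      exact ⟨(e.symm i : A), (e.symm i).2, (e.symm j : A), (e.symm j).2,
        fun h => hij (e.symm.injective (Subtype.ext h)), not_lt.2 h⟩)
    (by rw [Finset.card_univ, Fintype.card_fin])
  have e := A.equivFinOfCardEq hAc
  have hpair : ∀ v ∈ S, ∀ i j : Fin (d ^ k + d ^ k), i ≠ j →
      cL d * max (locRes d v F) 0 - tt v * CL d ≤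
        gg v d F (x (e.symm i : A)) (x (e.symm j : A)) := by
    intro v hv i j hij
    exact not_lt.1 (hA v hv _ (e.symm i).2 _ (e.symm j).2
      fun h => hij (e.symm.injective (Subtype.ext h)))
  have hwd : ∀ i j : Fin (d ^ k + d ^ k), i ≠ j →
      FP.wd (x (e.symm i : A)) (x (e.symm j : A)) ≠ 0 := fun i j hij =>
    hx _ _ fun h => hij (e.symm.injective (Subtype.ext h))
  have hcast : ∀ i j : Fin (d ^ k), i ≠ j → Fin.castAdd (d ^ k) i ≠ Fin.castAdd (d ^ k) j :=
    fun i j hij h => hij (Fin.castAdd_injective _ _ h)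
  have hnat : ∀ i j : Fin (d ^ k), i ≠ j → Fin.natAdd (d ^ k) i ≠ Fin.natAdd (d ^ k) j :=
    fun i j hij h => hij (Fin.natAdd_injective _ _ h)
  have hcn : ∀ i j : Fin (d ^ k), Fin.natAdd (d ^ k) j ≠ Fin.castAdd (d ^ k) i := by
    intro i j h
    have := congrArg Fin.val h
    simp at this
    omega
  have hx0 : ∀ i : Fin (d ^ k + d ^ k), x (e.symm i : A) ≠ 0 := by
    intro i
    induction i using Fin.addCases with
    | left i => exact ne_zero_of_wd' (hwd _ _ (hcn i i))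
    | right i => exact ne_zero_of_wd (hwd _ _ (hcn i i))
  obtain ⟨Rp, hRp1, hRp0, hineq⟩ := main_pairs_ns hG k hk1 S T c₁ δ hc₁ hδ hT
    (fun v hv x hx0 hx => by
      have h := hloc K _ v F hG (hTn v hv) (d ^ k)
        (hk₀.trans (Nat.pow_le_pow_right (by omega) hk0)) x hx0 hx
      push_cast at h
      exact h)
    (fun i => x (e.symm (Fin.castAdd (d ^ k) i) : A))
    (fun i => x (e.symm (Fin.natAdd (d ^ k) i) : A))
    (fun i => hx0 _) (fun i => hx0 _)
    (fun i j hij => hwd _ _ (hcast i j hij)) (fun i j hij => hwd _ _ (hnat i j hij))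
    (fun i j => hwd _ _ (hcn i j))
    (fun v hv i j hij => hpair v hv _ _ (hcast i j hij))
    (fun v hv i j hij => hpair v hv _ _ (hnat i j hij))
  rw [← hD, ← hC3, ← hc₀] at hineq
  set h0 := c₀ * δ / 8 * placeSum (fun v => locRes d v F) -
    (C3 + c₀ * δ * log ((2 * d).factorial)) * totalWeight K with hh0
  have hsum : ∀ f : Fin (d ^ k) → Fin N, ∑ i, canHeight d F (x (f i)) ≤ D * h0 := by
    intro f
    calc ∑ i, canHeight d F (x (f i)) ≤ ∑ _i : Fin (d ^ k), h0 :=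
          Finset.sum_le_sum fun i _ => (hcon (f i)).le
      _ = D * h0 := by
        rw [Finset.sum_const, Finset.card_univ, Fintype.card_fin, nsmul_eq_mul]
        push_cast
        rfl
  have hs1 := hsum (fun i => (e.symm (Fin.castAdd (d ^ k) i) : A))
  have hs2 := hsum (fun i => (e.symm (Fin.natAdd (d ^ k) i) : A))
  -- strict inequality somewhere
  have hstrict : ∑ i, canHeight d F (x (e.symm (Fin.castAdd (d ^ k) i) : A)) < D * h0 := by
    have hne : (Finset.univ : Finset (Fin (d ^ k))).Nonempty :=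
      ⟨⟨0, Nat.pos_of_ne_zero (pow_ne_zero _ (by omega))⟩, Finset.mem_univ _⟩
    calc ∑ i, canHeight d F (x (e.symm (Fin.castAdd (d ^ k) i) : A)) < ∑ _i : Fin (d ^ k), h0 :=
          Finset.sum_lt_sum_of_nonempty hne fun i _ => hcon _
      _ = D * h0 := by
        rw [Finset.sum_const, Finset.card_univ, Fintype.card_fin, nsmul_eq_mul]
        push_cast
        rfl
  have hD1 : 0 < D - 1 := by linarith
  have htw : (0 : ℝ) ≤ totalWeight K := Nat.cast_nonneg _
  set l := log ((2 * d).factorial : ℝ) with hldef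
  set W : ℝ := (totalWeight K : ℝ) with hW
  set P := placeSum (fun v => locRes d v F) with hP
  have h1 : 2 * (D - 1) * (∑ i, canHeight d F (x (e.symm (Fin.castAdd (d ^ k) i) : A)) +
      ∑ i, canHeight d F (x (e.symm (Fin.natAdd (d ^ k) i) : A))) < 2 * (D - 1) * (2 * D * h0) := by
    apply mul_lt_mul_of_pos_left _ (by positivity)
    linarith
  have h2 := lt_of_le_of_lt hineq h1
  have h3 : 4 * D * (k + 1) * Rp ≤ D * (D * (c₀ * δ / 2)) * Rp := by
    apply mul_le_mul_of_nonneg_right _ hRp0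
    have h31 : 4 * ((k : ℝ) + 1) ≤ D * (c₀ * δ / 2) := by
      have : 0 ≤ c₀ * δ / 2 := by positivity
      linarith
    have := mul_le_mul_of_nonneg_left h31 (by linarith : (0 : ℝ) ≤ D)
    linarith
  have h4 : D * ((D - 1) * (c₀ * δ / 2)) * P ≤ D * ((D - 1) * (c₀ * δ / 2)) * Rp :=
    mul_le_mul_of_nonneg_left hRp1 (by positivity)
  have h4' : D * ((D - 1) * (c₀ * δ / 2)) * Rp ≤ D * (D * (c₀ * δ / 2)) * Rp := by
    apply mul_le_mul_of_nonneg_right _ hRp0
    apply mul_le_mul_of_nonneg_left _ (by linarith)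
    exact mul_le_mul_of_nonneg_right (by linarith) (by positivity)
  have h6 : (1 : ℝ) ≤ 4 * D * (D - 1) := by nlinarith
  have h7 : 0 ≤ W * C3 := mul_nonneg htw hC30
  have h5 : W * C3 ≤ 4 * D * (D - 1) * (W * C3) := by nlinarith
  have h8 : 0 ≤ c₀ * δ * (W * l) := by
    have : 0 ≤ W * l := mul_nonneg htw hl
    positivity
  have h9 : D ^ 2 * (c₀ * δ * (W * l)) ≤ 4 * D * (D - 1) * (c₀ * δ * (W * l)) := by
    apply mul_le_mul_of_nonneg_right _ h8
    nlinarith
  have e1 : 2 * (D - 1) * (2 * D * h0) = D * ((D - 1) * (c₀ * δ / 2)) * P -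
      4 * D * (D - 1) * (W * C3) - 4 * D * (D - 1) * (c₀ * δ * (W * l)) := by
    rw [hh0]; ring
  have e2 : c₀ * D ^ 2 * δ * (Rp - W * l) = D * (D * (c₀ * δ / 2)) * Rp +
      D * (D * (c₀ * δ / 2)) * Rp - D ^ 2 * (c₀ * δ * (W * l)) := by
    ring
  rw [e1, e2] at h2
  linarith

end Pool.Agent.Lib_helper95.NP
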