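import Pool.Agent.Lib_helper95.NP.NF

/-!
# The local height as a limit
-/

set_option autoImplicit false

universe u

namespace Pool.Agent.Lib_helper95.NP

open Polynomial Real Pool.Agent.Lib_helper95.FP

theorem tendsto_HH {K : Type*} [Field K] (v : AbsoluteValue K ℝ) {d : ℕ} {F : Fin 2 → K[X]}
    (hG : Good d F) (x : Fin 2 → K) (hx : x ≠ 0) :
    Filter.Tendsto (fun n : ℕ => log (nv v ((hmap d F)^[n] x)) / (d : ℝ) ^ n) Filter.atTop
      (nhds (HH v d F x)) := by
  have hd : (1 : ℝ) < d := by exact_mod_cast (lt_of_lt_of_le one_lt_two hG.two_le)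
  set C := (|RR v d F| + log ((2 * d).factorial) + log (d + 1)) / (d - 1) +
    |log (nF v d F) / (d - 1)| with hC
  have hb : ∀ n : ℕ, |log (nv v ((hmap d F)^[n] x)) / (d : ℝ) ^ n - HH v d F x| ≤
      C * (1 / (d : ℝ)) ^ n := by
    intro n
    have hn := iter_ne_zero hG v n x hx
    have hpos : (0 : ℝ) < (d : ℝ) ^ n := by positivity
    have e : log (nv v ((hmap d F)^[n] x)) / (d : ℝ) ^ n - HH v d F x =
        (ht v d F ((hmap d F)^[n] x) - log (nF v d F) / (d - 1)) / (d : ℝ) ^ n := by
      rw [log_nv_iter hG n x hx]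
      field_simp
      ring
    rw [e, abs_div, abs_of_pos hpos, one_div_pow, mul_one_div]
    apply div_le_div_of_nonneg_right _ hpos.le
    have h2 : ht v d F ((hmap d F)^[n] x) ≤
        (|RR v d F| + log ((2 * d).factorial) + log (d + 1)) / (d - 1) :=
      ht_le_of hG _ (fun x hx => (le_abs_self _).trans (abs_lt_le hG x hx)) _ hn
    have h3 : (-(|RR v d F| + log ((2 * d).factorial) + log (d + 1))) / (d - 1) ≤
        ht v d F ((hmap d F)^[n] x) :=
      ht_ge_of hG _ (fun x hx => by
        have := abs_lt_le (w := v) hG x hx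
        rw [abs_le] at this
        exact this.1) _ hn
    rw [neg_div] at h3
    have h5 := le_abs_self (log (nF v d F) / ((d : ℝ) - 1))
    have h6 := neg_abs_le (log (nF v d F) / ((d : ℝ) - 1))
    rw [hC, abs_le]
    constructor <;> linarith
  have hlim : Filter.Tendsto (fun k : ℕ => C * (1 / (d : ℝ)) ^ k) Filter.atTop (nhds 0) := by
    have := (tendsto_pow_atTop_nhds_zero_of_lt_one (by positivity)
      ((div_lt_one (by linarith)).2 hd)).const_mul C
    rwa [mul_zero] at this
  have h0 := squeeze_zero_norm (fun n => by rw [Real.norm_eq_abs]; exact hb n) hlim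
  have := h0.add_const (HH v d F x)
  simpa using this

end Pool.Agent.Lib_helper95.NP
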