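import Pool.Agent.Lib_helper95.NP.Energy

/-!
# The energy of rational points at a nonsplit place
-/

set_option autoImplicit false

universe u

namespace Pool.Agent.Lib_helper95.NP

open Polynomial Real Pool.Agent.Lib_helper95.FP

theorem wd_iso {L : Type*} [Field L] {w : AbsoluteValue L ℝ} (hw : IsNonarchimedean w)
    (x y z : Fin 2 → L) (hx : nv w x = 1) (hy : nv w y = 1) (hz : nv w z = 1)
    (h : w (FP.wd y z) < w (FP.wd x y)) : w (FP.wd x z) = w (FP.wd x y) := by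
  apply le_antisymm
  · exact (wd_tri hw x y z hx.le hy hz.le).trans (max_le le_rfl h.le)
  · have h1 := wd_tri hw x z y hx.le hz hy.le
    rcases le_max_iff.1 h1 with h2 | h2
    · exact h2
    · have h3 : w (FP.wd z y) = w (FP.wd y z) := w_wd_comm _ _ _
      rw [h3] at h2
      exact absurd h (not_lt.2 h2)

/-- The parameters. -/
theorem exists_params (d : ℕ) (hd : 2 ≤ d) (η : ℝ) (hη : 0 < η) (hη1 : η ≤ 1) :
    ∃ (n₁ n K₁ M₀ : ℕ) (c : ℝ), 0 < c ∧ c ≤ 1 / 2 ∧ 4 / η ≤ (d : ℝ) ^ n₁ ∧ 1 ≤ K₁ ∧ 2 ≤ M₀ ∧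
      ∀ M : ℕ, M₀ ≤ M →
      c ≤ η / (4 * (d ^ n₁ + 4 : ℕ)) * η - 2 * ((d ^ n₁ + 4 : ℕ) : ℝ) *
          (η / (4 * (d ^ n₁ + 4 : ℕ))) ^ 2 - 11 / (d : ℝ) ^ n -
        (3 * ((d ^ n + (d ^ n₁ + 4) : ℕ) : ℝ) + 1) / K₁ -
        (((d ^ n + (d ^ n₁ + 4) : ℕ) : ℝ) + 1) / M := by
  have hdr : (2 : ℝ) ≤ d := by exact_mod_cast hd
  have hpow : ∀ B : ℝ, ∃ n : ℕ, B ≤ (d : ℝ) ^ n := by
    intro B
    obtain ⟨n, hn⟩ := exists_nat_ge B
    refine ⟨n, hn.trans ?_⟩
    have h1 : (n : ℝ) ≤ 2 ^ n := by exact_mod_cast (Nat.lt_two_pow_self (n := n)).le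
    exact h1.trans (pow_le_pow_left₀ (by norm_num) hdr n)
  obtain ⟨n₁, hn₁⟩ := hpow (4 / η)
  obtain ⟨C, hC⟩ : ∃ C : ℝ, C = ((d ^ n₁ + 4 : ℕ) : ℝ) := ⟨_, rfl⟩
  have hC4 : 4 ≤ C := by
    rw [hC]
    push_cast
    have : (0 : ℝ) ≤ (d : ℝ) ^ n₁ := by positivity
    linarith
  obtain ⟨c₀, hc₀⟩ : ∃ c₀ : ℝ, c₀ = η ^ 2 / (8 * C) := ⟨_, rfl⟩
  have hc₀0 : 0 < c₀ := by rw [hc₀]; positivity
  have hc₀1 : c₀ ≤ 1 := by
    rw [hc₀, div_le_one (by positivity)]
    nlinarith
  obtain ⟨n, hn⟩ := hpow (44 / c₀)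
  obtain ⟨S, hS⟩ : ∃ S : ℝ, S = ((d ^ n + (d ^ n₁ + 4) : ℕ) : ℝ) := ⟨_, rfl⟩
  have hS0 : 0 ≤ S := by rw [hS]; positivity
  obtain ⟨K₁, hK₁⟩ := exists_nat_ge (4 * (3 * S + 1) / c₀)
  obtain ⟨M₁, hM₁⟩ := exists_nat_ge (4 * (S + 1) / c₀)
  refine ⟨n₁, n, K₁ + 1, M₁ + 2, c₀ / 4, by positivity, by linarith, hn₁, by omega, by omega, ?_⟩
  intro M hM
  rw [← hC, ← hS]
  have h1 : 11 / (d : ℝ) ^ n ≤ c₀ / 4 := by
    rw [div_le_iff₀ (by positivity)]
    rw [div_le_iff₀ hc₀0] at hn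
    linarith
  have h2 : (3 * S + 1) / ((K₁ + 1 : ℕ) : ℝ) ≤ c₀ / 4 := by
    rw [div_le_iff₀ (by positivity)]
    rw [div_le_iff₀ hc₀0] at hK₁
    push_cast
    nlinarith
  have h3 : (S + 1) / (M : ℝ) ≤ c₀ / 4 := by
    have hM2 : ((M₁ + 2 : ℕ) : ℝ) ≤ M := by exact_mod_cast hM
    push_cast at hM2
    have hM0 : (0 : ℝ) < M := by
      have : (0 : ℝ) ≤ M₁ := Nat.cast_nonneg _
      linarith
    rw [div_le_iff₀ hM0]
    rw [div_le_iff₀ hc₀0] at hM₁
    nlinarith
  have h4 : η / (4 * C) * η - 2 * C * (η / (4 * C)) ^ 2 = c₀ := by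
    rw [hc₀]
    field_simp
    ring
  rw [h4]
  linarith

/-- The local inequality in a chart. -/
theorem local_core (d : ℕ) (hd : 2 ≤ d) (η : ℝ) (hη : 0 < η) (hη1 : η ≤ 1) :
    ∃ (c : ℝ) (M₀ : ℕ), 0 < c ∧ ∀ (L : Type u) (_ : Field L) (w : AbsoluteValue L ℝ)
      (G : Fin 2 → L[X]), IsNonarchimedean w → Good d G → nF w d G = 1 → w (res d G) < 1 →
      ∀ A B : Fin 2 → L, nv w A = 1 → nv w B = 1 → ∀ (M : ℕ), M₀ ≤ M →
      ∀ X : Fin M → Fin 2 → L, (∀ i, nv w (X i) = 1) →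
      (∀ i j, i ≠ j → FP.wd (X i) (X j) ≠ 0) →
      (∀ i, w (FP.wd (X i) B) * exp (HH w d G A + η * -log (w (res d G))) ≤
        w (FP.wd (X i) A) * exp (HH w d G B)) →
      c * (M : ℝ) ^ 2 * -log (w (res d G)) ≤
        ∑ i, ∑ j ∈ Finset.univ.erase i, gg w d G (X i) (X j) := by
  obtain ⟨n₁, n, K₁, M₀, c, hc0, hc1, hn₁, hK₁, hM₀, hpar⟩ := exists_params d hd η hη hη1
  refine ⟨c, M₀, hc0, ?_⟩
  intro L _ w G hw hG hn hR A B hA hB M hM X hX hXX hcond
  have hdr : (2 : ℝ) ≤ d := by exact_mod_cast hd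
  have hr0 : 0 < w (res d G) := w.pos hG.res_ne
  obtain ⟨ρ, hρ⟩ : ∃ ρ : ℝ, ρ = -log (w (res d G)) := ⟨_, rfl⟩
  have hlog : log (w (res d G)) = -ρ := by rw [hρ]; ring
  have hρ0 : 0 < ρ := by rw [hρ]; linarith [Real.log_neg hr0 hR]
  rw [← hρ]
  simp only [← hρ] at hcond
  obtain ⟨C₁, hC₁⟩ : ∃ C₁ : ℕ, C₁ = d ^ n₁ + 4 := ⟨_, rfl⟩
  have hD1 : 1 ≤ d ^ n₁ := Nat.one_le_pow _ _ (by omega)
  have hM0 : (2 : ℝ) ≤ M := by exact_mod_cast hM₀.trans hM
  -- nearby points have almost the same height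
  have hnear : ∀ (L' : Type u) (_ : Field L') (w' : AbsoluteValue L' ℝ) (G' : Fin 2 → L'[X]),
      IsNonarchimedean w' → Good d G' → nF w' d G' = 1 → w' (res d G') = w (res d G) →
      ∀ p q : Fin 2 → L', nv w' p = 1 → nv w' q = 1 →
      w' (FP.wd p q) ≤ w (res d G) ^ (C₁ - 2) → HH w' d G' p - HH w' d G' q ≤ η / 4 * ρ := by
    intro L' _ w' G' hw' hG' hn' hres' p q hp hq hpq
    have h1 := HH_near hw' hG' hn' (by rw [hres']; exact hR) p q hp hq n₁ (by
      rw [hres']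
      refine lt_of_le_of_lt hpq ?_
      exact pow_lt_pow_right_of_lt_one₀ hr0 hR (by omega))
    refine h1.trans ?_
    rw [hres', hlog, neg_neg, div_le_iff₀ (by
      have : (0 : ℝ) < d - 1 := by linarith
      positivity)]
    have h2 : 1 ≤ η / 4 * (d : ℝ) ^ n₁ := by
      rw [div_le_iff₀ hη] at hn₁
      linarith
    have h3 : η / 4 * ρ * (((d : ℝ) - 1) * (d : ℝ) ^ n₁) =
        ρ * (d - 1) * (η / 4 * (d : ℝ) ^ n₁) := by ring
    rw [h3]
    have h4 : ρ * 1 ≤ ρ * (d - 1) := mul_le_mul_of_nonneg_left (by linarith) hρ0.le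
    have h5 : ρ * ((d : ℝ) - 1) * 1 ≤ ρ * (d - 1) * (η / 4 * (d : ℝ) ^ n₁) :=
      mul_le_mul_of_nonneg_left h2 (mul_nonneg hρ0.le (by linarith))
    linarith
  by_cases hcase : ∀ i, w (FP.wd (X i) A) ≤ w (res d G) ^ (C₁ - 2)
  · -- all the points are in a small disc
    have h1 : ∀ i j, i ≠ j → ρ ≤ gg w d G (X i) (X j) := by
      intro i j hij
      have h2 : w (FP.wd (X i) (X j)) ≤ w (res d G) ^ (C₁ - 2) := by
        refine (wd_tri hw (X i) A (X j) (hX i).le hA (hX j).le).trans (max_le (hcase i) ?_)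
        rw [w_wd_comm]
        exact hcase j
      have h3 := Real.log_le_log (w.pos (hXX i j hij)) h2
      rw [Real.log_pow, hlog] at h3
      have h4 := HH_ge hw hG hn (X i) (hX i)
      have h5 := HH_ge hw hG hn (X j) (hX j)
      rw [hlog, neg_div] at h4 h5
      have h6 : ρ / (d - 1) ≤ ρ := div_le_self hρ0.le (by linarith)
      have h7 : 0 ≤ ρ / (d * (d - 1)) := div_nonneg hρ0.le (mul_nonneg (by linarith) (by linarith))
      have h8 : (3 : ℝ) ≤ ((C₁ - 2 : ℕ) : ℝ) := by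
        have : 3 ≤ C₁ - 2 := by omega
        exact_mod_cast this
      have h9 : 3 * ρ ≤ ((C₁ - 2 : ℕ) : ℝ) * ρ := mul_le_mul_of_nonneg_right h8 hρ0.le
      unfold gg
      rw [hlog, neg_div]
      linarith
    have h2 : ∀ i, ((M : ℝ) - 1) * ρ ≤ ∑ j ∈ Finset.univ.erase i, gg w d G (X i) (X j) := by
      intro i
      calc ((M : ℝ) - 1) * ρ = ∑ _j ∈ Finset.univ.erase i, ρ := by
            rw [Finset.sum_const, Finset.card_erase_of_mem (Finset.mem_univ i), Finset.card_univ,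
              Fintype.card_fin, nsmul_eq_mul, Nat.cast_sub (by omega), Nat.cast_one]
        _ ≤ _ := Finset.sum_le_sum fun j hj => h1 i j (Finset.ne_of_mem_erase hj).symm
    have h3 : (M : ℝ) * (((M : ℝ) - 1) * ρ) ≤
        ∑ i, ∑ j ∈ Finset.univ.erase i, gg w d G (X i) (X j) := by
      refine le_trans (le_of_eq ?_) (Finset.sum_le_sum fun i _ => h2 i)
      rw [Finset.sum_const, Finset.card_univ, Fintype.card_fin, nsmul_eq_mul]
    refine le_trans ?_ h3
    have h4 : c * (M : ℝ) ^ 2 ≤ M * (M - 1) := by nlinarith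
    calc c * (M : ℝ) ^ 2 * ρ ≤ M * (M - 1) * ρ := mul_le_mul_of_nonneg_right h4 hρ0.le
      _ = _ := by ring
  · push Not at hcase
    obtain ⟨i₀, hi₀⟩ := hcase
    have hp0 : 0 < w (res d G) ^ (C₁ - 2) := pow_pos hr0 _
    -- `A` and `B` are not near each other
    have hAB : w (res d G) ^ (C₁ - 2) < w (FP.wd A B) := by
      by_contra hcon
      push Not at hcon
      have h1 := wd_iso hw (X i₀) A B (hX i₀) hA hB (lt_of_le_of_lt hcon hi₀)
      have h2 := hcond i₀
      rw [h1] at h2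
      have h3 := le_of_mul_le_mul_left h2 (hp0.trans hi₀)
      rw [Real.exp_le_exp] at h3
      have h4 := hnear L _ w G hw hG hn rfl B A hB hA (by rw [w_wd_comm]; exact hcon)
      have h5 : 0 < η * ρ := by positivity
      linarith
    obtain ⟨L', _, w', χ, a, b, z, hP⟩ := exists_aux hw hG hn hR n C₁ (by omega) A B hA hB
    have hw' := nonarch_ext hP.ext hw
    have hG' : Good d (mp χ G) := hG.mp χ
    have hn' : nF w' d (mp χ G) = 1 := by rw [nF_mp hP.ext]; exact hn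
    have hres' : w' (res d (mp χ G)) = w (res d G) := by rw [res_mp, hP.ext]
    have hR' : w' (res d (mp χ G)) < 1 := by rw [hres']; exact hR
    have hC1le : w (res d G) ^ C₁ ≤ w (res d G) ^ (C₁ - 2) :=
      pow_le_pow_of_le_one hr0.le hR.le (by omega)
    have hχA : nv w' (fun i => χ (A i)) = 1 := by rw [nv_mp hP.ext, hA]
    have hχB : nv w' (fun i => χ (B i)) = 1 := by rw [nv_mp hP.ext, hB]
    have hHa : ∀ k, HH w' d (mp χ G) (a k) ≤ HH w d G A + η / 4 * ρ := by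
      intro k
      have h1 := hnear L' _ w' (mp χ G) hw' hG' hn' hres' (a k) (fun i => χ (A i)) (hP.ua k) hχA
        ((hP.da k).trans hC1le)
      rw [HH_mp hP.ext] at h1
      linarith
    have hHb : ∀ k, HH w d G B - η / 4 * ρ ≤ HH w' d (mp χ G) (b k) := by
      intro k
      have h1 := hnear L' _ w' (mp χ G) hw' hG' hn' hres' (fun i => χ (B i)) (b k) hχB (hP.ub k)
        (by rw [w_wd_comm]; exact (hP.db k).trans hC1le)
      rw [HH_mp hP.ext] at h1
      linarith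
    obtain ⟨S, hS⟩ : ∃ S : ℕ, S = d ^ n + (d ^ n₁ + 4) := ⟨_, rfl⟩
    have hSC : w (res d G) ^ S ≤ w (res d G) ^ C₁ :=
      pow_le_pow_of_le_one hr0.le hR.le (by omega)
    have hC0 : 0 < w (res d G) ^ C₁ := pow_pos hr0 _
    have key := energy hw' hG' hn' hR' S n C₁ (by omega) (by omega) M K₁ (by omega) hK₁
      (fun i k => χ (X i k)) (fun k => a k) (fun k => b k) (fun k => z k)
      (fun i => by rw [nv_mp hP.ext]; exact hX i) (fun k => hP.ua k) (fun k => hP.ub k)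
      (fun k i => hP.uz k i)
      (fun i j hij => by rw [wd_mp]; exact (map_ne_zero χ).2 (hXX i j hij))
      (fun i k => hP.px (X i) (hX i) k) (fun l k => hP.pa l k) (fun l k => hP.pb l k)
      (fun l i k hlk => hP.pz l i k (fun h => hlk (Fin.ext h)))
      (fun k l hkl => by rw [hres']; exact hP.sa k l (fun h => hkl (Fin.ext h)))
      (fun k l hkl => by rw [hres']; exact hP.sb k l (fun h => hkl (Fin.ext h)))
      (fun i k => by
        rw [hres', hP.xa (X i) (hX i) k]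
        exact hSC.trans (le_max_right _ _))
      (fun i k => by
        rw [hres', hP.xb (X i) (hX i) k]
        exact hSC.trans (le_max_right _ _)) η
      (fun i k => by
        rw [hres', ← hρ]
        have ha := hHa k
        have hb := hHb k
        unfold gg
        rw [hP.xa (X i) (hX i) k, hP.xb (X i) (hX i) k]
        rcases le_or_gt (w (res d G) ^ C₁) (w (FP.wd (X i) B)) with h | h
        · rw [max_eq_left h]
          have h0 : 0 < w (FP.wd (X i) B) := hC0.trans_le h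
          have h1 := hcond i
          have h2 : 0 < w (FP.wd (X i) A) := by
            by_contra hcon
            have h3 : w (FP.wd (X i) A) = 0 := le_antisymm (not_lt.1 hcon) (w.nonneg _)
            rw [h3, zero_mul] at h1
            have := mul_pos h0 (Real.exp_pos (HH w d G A + η * ρ))
            linarith
          have h3 := Real.log_le_log (mul_pos h0 (Real.exp_pos _)) h1
          rw [Real.log_mul h0.ne' (Real.exp_pos _).ne', Real.log_mul h2.ne' (Real.exp_pos _).ne',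
            Real.log_exp, Real.log_exp] at h3
          have h4 := Real.log_le_log h2 (le_max_left (w (FP.wd (X i) A)) (w (res d G) ^ C₁))
          linarith
        · rw [max_eq_right h.le]
          have h1 : w (res d G) ^ (C₁ - 2) < w (FP.wd (X i) A) := by
            by_contra hcon
            push Not at hcon
            have h2 := wd_tri hw A (X i) B hA.le (hX i) hB.le
            rw [w_wd_comm (w := w) A (X i)] at h2
            exact absurd (h2.trans (max_le hcon (h.le.trans hC1le))) (not_le.2 hAB)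
          have h2 := Real.log_le_log hp0
            (h1.le.trans (le_max_left (w (FP.wd (X i) A)) (w (res d G) ^ C₁)))
          rw [Real.log_pow, hlog, Nat.cast_sub (by omega)] at h2
          push_cast at h2
          have h3 := HH_le hw' hG' hn' (a k) (p1_ne (hP.ua k))
          rw [hP.ua k, Real.log_one] at h3
          have h4 := HH_ge hw' hG' hn' (b k) (hP.ub k)
          rw [hres', hlog, neg_div] at h4
          have h5 : ρ / (d - 1) ≤ ρ := div_le_self hρ0.le (by linarith)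
          rw [Real.log_pow, hlog]
          have h6 : η / 2 * ρ ≤ ρ := by nlinarith
          linarith)
      (η / (4 * C₁)) (by positivity) (by
        have h4C : (4 : ℝ) ≤ C₁ := by
          have : 4 ≤ C₁ := by omega
          exact_mod_cast this
        rw [div_le_one (by linarith)]
        linarith)
    rw [hres', ← hρ] at key
    have hp := hpar M hM
    rw [← hC₁] at hp
    rw [← hC₁] at hS
    rw [← hS] at hp
    have e1 : ∑ i, ∑ j ∈ Finset.univ.erase i, gg w' d (mp χ G) (fun k => χ (X i k))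
        (fun k => χ (X j k)) = ∑ i, ∑ j ∈ Finset.univ.erase i, gg w d G (X i) (X j) := by
      apply Finset.sum_congr rfl
      intro i _
      apply Finset.sum_congr rfl
      intro j _
      exact gg_mp hP.ext _ _ _ _
    rw [e1] at key
    refine le_trans ?_ key
    have h1 := mul_le_mul_of_nonneg_left hp (by positivity : 0 ≤ (M : ℝ) ^ 2 * ρ)
    calc c * (M : ℝ) ^ 2 * ρ = (M : ℝ) ^ 2 * ρ * c := by ring
      _ ≤ _ := h1

end Pool.Agent.Lib_helper95.NP
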