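import Pool.Agent.Lib_helper95.NP.Local

/-!
# Nonsplit places
-/

set_option autoImplicit false

universe u

namespace Pool.Agent.Lib_helper95.NP

open Polynomial Real Pool.Agent.Lib_helper95.FP

/-- `v` is a nonsplit place for `F` with respect to a given model: there are two points `a`, `b`
over an extension such that the local height with respect to any point of `P^1(K)` is much smaller
at `a` than at `b`. -/
def NspG {K : Type u} [Field K] (d : ℕ) (η : ℝ) (F : Fin 2 → K[X]) (v : AbsoluteValue K ℝ) :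
    Prop :=
  IsNonarchimedean v ∧ ∃ (L : Type u) (_ : Field L) (w : AbsoluteValue L ℝ) (φ : K →+* L)
    (γ : Matrix (Fin 2) (Fin 2) L) (a b : Fin 2 → L), (∀ x, w (φ x) = v x) ∧ γ.det ≠ 0 ∧
    a ≠ 0 ∧ b ≠ 0 ∧ ∀ x : Fin 2 → K,
      w (FP.wd b (fun i => φ (x i))) *
        exp (HH w d (mp φ F) a + η * RR w d (cj d (mp φ F) γ)) ≤
      w (FP.wd a (fun i => φ (x i))) * exp (HH w d (mp φ F) b)

theorem local_nspG (d : ℕ) (hd : 2 ≤ d) (η : ℝ) (hη : 0 < η) :
    ∃ (c : ℝ) (M₀ : ℕ), 0 < c ∧ ∀ (K : Type u) (_ : Field K) (v : AbsoluteValue K ℝ)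
      (F : Fin 2 → K[X]), Good d F → NspG d η F v → ∀ (M : ℕ), M₀ ≤ M →
      ∀ x : Fin M → Fin 2 → K, (∀ i, x i ≠ 0) → (∀ i j, i ≠ j → FP.wd (x i) (x j) ≠ 0) →
      c * (M : ℝ) ^ 2 * max (locRes d v F) 0 ≤
        ∑ i, ∑ j ∈ Finset.univ.erase i, gg v d F (x i) (x j) := by
  obtain ⟨c, M₀, hc, hcore⟩ := local_core.{u} d hd (min η 1) (lt_min hη one_pos)
    (min_le_right _ _)
  refine ⟨c, M₀, hc, ?_⟩
  intro K _ v F hG hN M hM x hx0 hx
  obtain ⟨hv, L, _, w, φ, γ, a, b, hφ, hγ, ha, hb, hab⟩ := hN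
  have hw := nonarch_ext hφ hv
  have hGL : Good d (mp φ F) := hG.mp φ
  have hGc : Good d (cj d (mp φ F) γ) := hGL.cj hγ
  obtain ⟨e, he, hnF⟩ := exists_sc w hGc
  obtain ⟨G, hGdef⟩ : ∃ G, G = sc e (cj d (mp φ F) γ) := ⟨_, rfl⟩
  rw [← hGdef] at hnF
  have hGG : Good d G := by rw [hGdef]; exact hGc.sc he
  have hRRG : RR w d (cj d (mp φ F) γ) = -log (w (res d G)) := by
    rw [← RR_sc w hGc he, ← hGdef]
    unfold RR
    rw [hnF, Real.log_one]
    ring
  have hloc : locRes d v F ≤ -log (w (res d G)) := by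
    rw [← hRRG]
    exact locRes_le (Or.inr ⟨rfl, hv⟩ : AV v 0) hG hφ hγ
  have hres0 : 0 < w (res d G) := w.pos hGG.res_ne
  have hres1 : w (res d G) ≤ 1 := by
    have h1 := res_le (SB_zero w hw) d G 1 1
      (fun j => (coeff_le_nF w d G hGG.deg 0 j).trans hnF.le)
      (fun j => (coeff_le_nF w d G hGG.deg 1 j).trans hnF.le)
    simpa using h1
  have hρ0 : 0 ≤ -log (w (res d G)) := by linarith [Real.log_nonpos hres0.le hres1]
  -- the points in the new coordinates
  have hnorm : ∀ z : Fin 2 → K, z ≠ 0 → ∃ b : L, b ≠ 0 ∧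
      nv w (fun t => b * tr φ γ z t) = 1 := by
    intro z hz
    obtain ⟨b, hb, hb1, -⟩ := exists_norm_one w (tr φ γ z) (tr_ne_zero φ hγ z hz)
    exact ⟨b, hb, hb1⟩
  choose! s hs hs1 using hnorm
  set T : (Fin 2 → K) → Fin 2 → L := fun z t => s z * tr φ γ z t with hT
  have hTwd : ∀ z z' : Fin 2 → K, z ≠ 0 → z' ≠ 0 → FP.wd z z' ≠ 0 → FP.wd (T z) (T z') ≠ 0 := by
    intro z z' hz hz' h
    rw [hT, wd_smul]
    exact mul_ne_zero (mul_ne_zero (hs z hz) (hs z' hz')) (wd_tr φ hγ z z' h)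
  have hTgg : ∀ z z' : Fin 2 → K, z ≠ 0 → z' ≠ 0 → FP.wd z z' ≠ 0 →
      gg w d G (T z) (T z') = gg v d F z z' := by
    intro z z' hz hz' h
    have h1 := wd_tr φ hγ z z' h
    rw [hT, gg_smul hGG _ _ (hs z hz) (hs z' hz') _ _ h1, hGdef, gg_sc w hGc he _ _ h1]
    exact gg_tr (v := v) hG hφ hγ z z' h
  have esum : ∑ i, ∑ j ∈ Finset.univ.erase i, gg w d G (T (x i)) (T (x j)) =
        ∑ i, ∑ j ∈ Finset.univ.erase i, gg v d F (x i) (x j) := by
    apply Finset.sum_congr rfl
    intro i _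
    apply Finset.sum_congr rfl
    intro j hj
    exact hTgg _ _ (hx0 i) (hx0 j) (hx i j (Finset.ne_of_mem_erase hj).symm)
  rw [← esum]
  rcases lt_or_eq_of_le hres1 with hR | hR
  · -- bad reduction
    have hpt : ∀ c : Fin 2 → L, c ≠ 0 → ∃ u : L, u ≠ 0 ∧
        nv w (fun t => u * (γ.adjugate.mulVec c) t) = 1 ∧
        HH w d G (fun t => u * (γ.adjugate.mulVec c) t) = log (w u) + HH w d (mp φ F) c +
          (log (w γ.det) + log (w γ.det) / (d - 1) + log (w e) / (d - 1)) ∧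
        ∀ z : Fin 2 → K, w (FP.wd (T z) (fun t => u * (γ.adjugate.mulVec c) t)) =
          w (s z) * w u * w γ.det * w (FP.wd c (fun i => φ (z i))) := by
      intro c hc
      have hadj : γ.adjugate.det ≠ 0 := by
        rw [Matrix.det_adjugate]
        simpa using hγ
      have hc' : γ.adjugate.mulVec c ≠ 0 := mulVec_ne_zero' hadj hc
      obtain ⟨u, hu, hu1, -⟩ := exists_norm_one w _ hc'
      refine ⟨u, hu, hu1, ?_, ?_⟩
      · rw [HH_smul hGG u hu _ hc', hGdef, HH_sc w hGc he _ hc', HH_cj hGL hγ _ hc', mulVec_adj,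
          HH_smul hGL _ hγ _ hc]
        ring
      · intro z
        rw [hT, wd_smul, tr, wd_mulVec, map_mul, map_mul, map_mul, w_wd_comm w c]
        have : w γ.adjugate.det = w γ.det := by rw [Matrix.det_adjugate]; simp
        rw [this]
        ring
    obtain ⟨ua, hua, hua1, hua2, hua3⟩ := hpt a ha
    obtain ⟨ub, hub, hub1, hub2, hub3⟩ := hpt b hb
    have key := hcore L _ w G hw hGG hnF hR _ _ hua1 hub1 M hM (fun i => T (x i))
      (fun i => hs1 _ (hx0 i)) (fun i j hij => hTwd _ _ (hx0 i) (hx0 j) (hx i j hij)) (by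
        intro i
        have h1 := hab (x i)
        rw [hua3, hub3, hua2, hub2]
        have hwa := w.pos hua
        have hwb := w.pos hub
        obtain ⟨κ, hκ⟩ : ∃ κ : ℝ, κ = log (w γ.det) + log (w γ.det) / (d - 1) +
          log (w e) / (d - 1) := ⟨_, rfl⟩
        rw [← hκ]
        have e1 : exp (log (w ua) + HH w d (mp φ F) a + κ +
            min η 1 * -log (w (res d G))) =
            w ua * exp κ * exp (HH w d (mp φ F) a + min η 1 * -log (w (res d G))) := by
          rw [show log (w ua) + HH w d (mp φ F) a + κ + min η 1 * -log (w (res d G)) =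
            log (w ua) + κ + (HH w d (mp φ F) a + min η 1 * -log (w (res d G))) by ring,
            Real.exp_add, Real.exp_add, Real.exp_log hwa]
        have e2 : exp (log (w ub) + HH w d (mp φ F) b + κ) =
            w ub * exp κ * exp (HH w d (mp φ F) b) := by
          rw [show log (w ub) + HH w d (mp φ F) b + κ =
            log (w ub) + κ + HH w d (mp φ F) b by ring,
            Real.exp_add, Real.exp_add, Real.exp_log hwb]
        rw [e1, e2]
        have h2 : exp (HH w d (mp φ F) a + min η 1 * -log (w (res d G))) ≤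
            exp (HH w d (mp φ F) a + η * RR w d (cj d (mp φ F) γ)) := by
          rw [hRRG, Real.exp_le_exp]
          have := mul_le_mul_of_nonneg_right (min_le_left η 1) hρ0
          linarith
        have h3 := (mul_le_mul_of_nonneg_left h2 (w.nonneg (FP.wd b (fun j => φ (x i j))))).trans h1
        have h4 : 0 ≤ w (s (x i)) * w γ.det * (w ua * w ub * exp κ) := by positivity
        have h5 := mul_le_mul_of_nonneg_left h3 h4
        calc w (s (x i)) * w ub * w γ.det * w (FP.wd b (fun j => φ (x i j))) *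
            (w ua * exp κ * exp (HH w d (mp φ F) a + min η 1 * -log (w (res d G)))) =
            w (s (x i)) * w γ.det * (w ua * w ub * exp κ) *
              (w (FP.wd b (fun j => φ (x i j))) *
                exp (HH w d (mp φ F) a + min η 1 * -log (w (res d G)))) := by ring
          _ ≤ _ := h5
          _ = _ := by ring)
    refine le_trans ?_ key
    apply mul_le_mul_of_nonneg_left (max_le hloc hρ0) (by positivity)
  · -- good reduction
    have hmax : max (locRes d v F) 0 = 0 := by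
      rw [hR, Real.log_one, neg_zero] at hloc
      exact max_eq_right hloc
    rw [hmax, mul_zero]
    apply Finset.sum_nonneg
    intro i _
    apply Finset.sum_nonneg
    intro j hj
    have hij := (Finset.ne_of_mem_erase hj).symm
    have h1 := gg_ge hw hGG (T (x i)) (T (x j)) (hs1 _ (hx0 i)) (hs1 _ (hx0 j))
      (hTwd _ _ (hx0 i) (hx0 j) (hx i j hij))
    have h2 := HH_ge hw hGG hnF (T (x i)) (hs1 _ (hx0 i))
    have h3 := HH_ge hw hGG hnF (T (x j)) (hs1 _ (hx0 j))
    rw [hR, Real.log_one, zero_div] at h1 h2 h3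
    linarith

/-- `v` is a nonsplit place for `F`: there are two points `a`, `b` over an extension such that
the local height with respect to any point of `P^1(K)` is much smaller at `a` than at `b`. -/
def Nsp {K : Type u} [Field K] (d : ℕ) (η : ℝ) (F : Fin 2 → K[X]) (v : AbsoluteValue K ℝ) :
    Prop :=
  IsNonarchimedean v ∧ ∃ (L : Type u) (_ : Field L) (w : AbsoluteValue L ℝ) (φ : K →+* L)
    (a b : Fin 2 → L), (∀ x, w (φ x) = v x) ∧ a ≠ 0 ∧ b ≠ 0 ∧ ∀ x : Fin 2 → K,
      w (FP.wd b (fun i => φ (x i))) *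
        exp (HH w d (mp φ F) a + η * locRes d w (mp φ F)) ≤
      w (FP.wd a (fun i => φ (x i))) * exp (HH w d (mp φ F) b)

theorem locRes_le_ext {K : Type u} [Field K] {v : AbsoluteValue K ℝ} (hv : IsNonarchimedean v)
    {d : ℕ} {F : Fin 2 → K[X]} (hG : Good d F) {L : Type u} [Field L] {w : AbsoluteValue L ℝ}
    {φ : K →+* L} (hφ : ∀ a, w (φ a) = v a) : locRes d v F ≤ locRes d w (mp φ F) := by
  apply csInf_le_csInf ⟨_, locSet_ge (Or.inr ⟨rfl, hv⟩ : AV v 0) hG⟩ (locSet_nonempty d w _)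
  rintro ρ ⟨L', _, w', φ', γ, h1, h2, rfl⟩
  refine ⟨L', inferInstance, w', φ'.comp φ, γ, fun x => ?_, h2, ?_⟩
  · rw [RingHom.comp_apply, h1, hφ]
  · rw [mp_mp]

theorem Nsp.nspG {K : Type u} [Field K] {v : AbsoluteValue K ℝ} {d : ℕ} {η : ℝ} (hη : 0 < η)
    {F : Fin 2 → K[X]} (hG : Good d F) (h : Nsp d η F v) :
    locRes d v F ≤ 0 ∨ NspG d (η / 2) F v := by
  obtain ⟨hv, L, _, w, φ, a, b, hφ, ha, hb, hab⟩ := h
  rcases le_or_gt (locRes d w (mp φ F)) 0 with h0 | h0
  · exact Or.inl ((locRes_le_ext hv hG hφ).trans h0)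
  · right
    obtain ⟨L', _, w', φ', γ, hφ', hγ, hR⟩ := exists_almost (v := w) d (mp φ F)
      (2 * locRes d w (mp φ F)) (by linarith)
    have hne : ∀ c : Fin 2 → L, c ≠ 0 → (fun i => φ' (c i)) ≠ 0 := by
      intro c hc h1
      apply hc
      funext i
      have := congrFun h1 i
      exact (map_eq_zero φ').1 this
    refine ⟨hv, L', inferInstance, w', φ'.comp φ, γ, fun i => φ' (a i), fun i => φ' (b i),
      fun x => by rw [RingHom.comp_apply, hφ', hφ], hγ, hne a ha, hne b hb, fun x => ?_⟩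
    rw [← mp_mp, HH_mp hφ', HH_mp hφ']
    have e1 : ∀ c : Fin 2 → L, w' (FP.wd (fun i => φ' (c i)) (fun i => (φ'.comp φ) (x i))) =
        w (FP.wd c (fun i => φ (x i))) := by
      intro c
      rw [← hφ', ← wd_mp]
      rfl
    rw [e1, e1]
    refine le_trans ?_ (hab x)
    apply mul_le_mul_of_nonneg_left _ (w.nonneg _)
    rw [Real.exp_le_exp]
    have h1 : η / 2 * RR w' d (cj d (mp φ' (mp φ F)) γ) ≤ η / 2 * (2 * locRes d w (mp φ F)) :=
      mul_le_mul_of_nonneg_left hR.le (by positivity)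
    linarith

theorem local_nsp (d : ℕ) (hd : 2 ≤ d) (η : ℝ) (hη : 0 < η) :
    ∃ (c : ℝ) (M₀ : ℕ), 0 < c ∧ ∀ (K : Type u) (_ : Field K) (v : AbsoluteValue K ℝ)
      (F : Fin 2 → K[X]), Good d F → Nsp d η F v → ∀ (M : ℕ), M₀ ≤ M →
      ∀ x : Fin M → Fin 2 → K, (∀ i, x i ≠ 0) → (∀ i j, i ≠ j → FP.wd (x i) (x j) ≠ 0) →
      c * (M : ℝ) ^ 2 * max (locRes d v F) 0 ≤
        ∑ i, ∑ j ∈ Finset.univ.erase i, gg v d F (x i) (x j) := by
  obtain ⟨c, M₀, hc, h⟩ := local_nspG.{u} d hd (η / 2) (by positivity)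
  refine ⟨c, M₀, hc, ?_⟩
  intro K _ v F hG hN M hM x hx0 hx
  rcases hN.nspG hη hG with h0 | h0
  · have hmax : max (locRes d v F) 0 = 0 := max_eq_right h0
    rw [hmax, mul_zero]
    apply Finset.sum_nonneg
    intro i _
    apply Finset.sum_nonneg
    intro j hj
    have h1 := tl (Or.inr ⟨rfl, hN.1⟩ : AV v 0) hG (x i) (x j)
      (hx i j (Finset.ne_of_mem_erase hj).symm)
    rw [hmax] at h1
    simpa using h1
  · exact h K _ v F hG h0 M hM x hx0 hx

end Pool.Agent.Lib_helper95.NP
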