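import Pool.Agent.Lib_helper95.NP.Glob

/-!
# Number fields of bounded degree
-/

set_option autoImplicit false

universe u

namespace Pool.Agent.Lib_helper95.NP

open Polynomial Real Height AdmissibleAbsValues Pool.Agent.Lib_helper95.FP

open Classical in
/-- Number fields of degree at most `D`: points with infinite orbit. -/
theorem nf_ns (d : ℕ) (hd2 : 2 ≤ d) (N0 : ℕ) (c C : ℝ) (hc : 0 < c) (hC : 0 ≤ C) (D : ℕ) :
    ∃ c₁ c₂ : ℝ, 0 < c₁ ∧ 0 < c₂ ∧ ∀ (K : Type u) [Field K] [NumberField K],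
      Module.finrank ℚ K ≤ D → ∀ (F : Fin 2 → K[X]), Good d F →
      (∀ x : Fin N0 → Fin 2 → K, (∀ i j, i ≠ j → FP.wd (x i) (x j) ≠ 0) →
        ∃ i, c * placeSum (fun v => locRes d v F) - C * totalWeight K ≤ canHeight d F (x i)) →
      ∀ P : Fin 2 → K, (∀ m n, m ≠ n → FP.wd ((hmap d F)^[m] P) ((hmap d F)^[n] P) ≠ 0) →
        c₁ * max (placeSum (fun v => locRes d v F)) 0 + c₂ * Module.finrank ℚ K ≤
          canHeight d F P := by
  have hd : (2 : ℝ) ≤ d := by exact_mod_cast hd2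
  set B := (2 * C + 2) / c with hB
  have hB0 : 0 < B := by positivity
  have hBc : B * c = 2 * C + 2 := by rw [hB]; field_simp
  obtain ⟨N1, hN1⟩ := lowerN.{u} d hd2 D B
  obtain ⟨N, hN⟩ : ∃ N : ℕ, N = N0 + N1 + 2 := ⟨_, rfl⟩
  set b₁ := min (c / 2) (1 / (2 * B)) with hb₁
  have hb₁0 : 0 < b₁ := lt_min (by positivity) (by positivity)
  -- the statement for many points
  have hmany : ∀ (K : Type u) [Field K] [NumberField K],
      Module.finrank ℚ K ≤ D → ∀ (F : Fin 2 → K[X]), Good d F →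
      (∀ x : Fin N0 → Fin 2 → K, (∀ i j, i ≠ j → FP.wd (x i) (x j) ≠ 0) →
        ∃ i, c * placeSum (fun v => locRes d v F) - C * totalWeight K ≤ canHeight d F (x i)) →
      ∀ x : Fin N → Fin 2 → K, (∀ i j, i ≠ j → FP.wd (x i) (x j) ≠ 0) → ∃ i,
        b₁ * max (placeSum (fun v => locRes d v F)) 0 + 1 / 2 * Module.finrank ℚ K ≤
          canHeight d F (x i) := by
    intro K _ _ hD F hG hmain x hx
    set n : ℝ := (Module.finrank ℚ K : ℝ) with hn
    have htw : (totalWeight K : ℝ) = n := by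
      rw [NumberField.totalWeight_eq_finrank]
    have hn0 : 0 < n := by
      rw [← htw]
      exact_mod_cast NumberField.totalWeight_pos K
    set S := placeSum (fun v => locRes d v F) with hS
    rcases le_or_gt (B * n) S with hSB | hSB
    · obtain ⟨i, hi⟩ := hmain (fun i : Fin N0 => x (Fin.castLE (by omega) i))
        (fun i j hij => hx _ _ (fun h => hij (Fin.castLE_injective _ h)))
      refine ⟨Fin.castLE (by omega) i, ?_⟩
      have hS0 : 0 ≤ S := (mul_nonneg hB0.le hn0.le).trans hSB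
      rw [max_eq_left hS0]
      rw [htw] at hi
      have h1 : b₁ * S ≤ c / 2 * S := mul_le_mul_of_nonneg_right (min_le_left _ _) hS0
      have h2 : c / 2 * (B * n) ≤ c / 2 * S := mul_le_mul_of_nonneg_left hSB (by positivity)
      have h3 : c / 2 * (B * n) = (C + 1) * n := by linear_combination (n / 2) * hBc
      linarith
    · obtain ⟨i, hi⟩ := hN1 K hD F hG hSB.le (fun i : Fin N1 => x (Fin.castLE (by omega) i))
        (fun i j hij => hx _ _ (fun h => hij (Fin.castLE_injective _ h)))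
      refine ⟨Fin.castLE (by omega) i, ?_⟩
      rw [← hn] at hi
      have h1 : b₁ * max S 0 ≤ 1 / 2 * n := by
        have h2 : max S 0 ≤ B * n := max_le hSB.le (mul_nonneg hB0.le hn0.le)
        calc b₁ * max S 0 ≤ 1 / (2 * B) * (B * n) :=
              mul_le_mul (min_le_right _ _) h2 (le_max_right _ _) (by positivity)
          _ = 1 / 2 * n := by field_simp
      linarith
  have hdN : (0 : ℝ) < (d : ℝ) ^ N := by positivity
  refine ⟨b₁ / (d : ℝ) ^ N, 1 / 2 / (d : ℝ) ^ N, by positivity, by positivity, ?_⟩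
  intro K _ _ hD F hG hmain P hP
  set n : ℝ := (Module.finrank ℚ K : ℝ) with hn
  have hn0 : 0 ≤ n := Nat.cast_nonneg _
  set S := placeSum (fun v => locRes d v F) with hS
  have hM0 : 0 ≤ max S 0 := le_max_right _ _
  obtain ⟨β, hβ⟩ : ∃ β : ℝ, β = b₁ * max S 0 + 1 / 2 * n := ⟨_, rfl⟩
  have e : b₁ / (d : ℝ) ^ N * max S 0 + 1 / 2 / (d : ℝ) ^ N * n = β / (d : ℝ) ^ N := by
    rw [hβ]; ring
  rw [e]
  have hP0 : P ≠ 0 := ne_zero_of_wd (hP 0 1 (by norm_num))
  have hne : ∀ k, (hmap d F)^[k] P ≠ 0 := fun k => iter_ne_zero' hG k P hP0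
  have hcan0 := canHeight_nonneg hG P hP0
  obtain ⟨i, hi⟩ := hmany K hD F hG hmain (fun i => (hmap d F)^[(i : ℕ)] P)
    (fun i j hij => hP i j (fun h => hij (Fin.ext h)))
  rw [canHeight_hmap hG P hP0 hne i, ← hS, ← hn, ← hβ] at hi
  have h1 : (d : ℝ) ^ (i : ℕ) * canHeight d F P ≤ (d : ℝ) ^ N * canHeight d F P :=
    mul_le_mul_of_nonneg_right (pow_le_pow_right₀ (by linarith) i.2.le) hcan0
  rw [div_le_iff₀ hdN]
  linarith

theorem placeSum_ge {K : Type u} [Field K] [AdmissibleAbsValues K] {d : ℕ} {F : Fin 2 → K[X]}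
    (hG : Good d F) :
    -(totalWeight K * log ((2 * d).factorial)) ≤ placeSum (fun v => locRes d v F) := by
  have hl : 0 ≤ log ((2 * d).factorial : ℝ) :=
    Real.log_nonneg (by exact_mod_cast Nat.one_le_iff_ne_zero.2 (Nat.factorial_ne_zero _))
  obtain ⟨B, hB⟩ := exists_B hG (fun i : Fin 0 => (i.elim0 : Fin 2 → K)) (fun i => i.elim0)
    (fun i : Fin 0 => (1 : K)) (fun i => i.elim0)
  rw [placeSum_eq B (fun v => locRes d v F) (fun v hv => locRes_good hG v (hB v hv).1)]
  have h1 : gs B (fun v => (0 : ℝ) - (tt v : ℝ) * log ((2 * d).factorial)) ≤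
      gs B (fun v => locRes d v F) := by
    apply gs_le
    · intro v _
      have := locRes_ge (AV_tt v) hG
      linarith
    · intro v _
      have := locRes_ge (AV_tt v.val) hG
      linarith
  rw [gs_sub, gs_zero] at h1
  have h2 := gs_tt_le B (log ((2 * d).factorial)) hl
  linarith

open Classical in
/-- The final theorem in library form. -/
theorem final_ns (d : ℕ) (hd2 : 2 ≤ d) (s : ℕ) (η δ : ℝ) (hη : 0 < η) (hδ : 0 < δ) (m l : ℕ)
    (I : Fin l → MvPolynomial (Fin 2 × Fin (d + 1)) ℤ) (hI : ∀ k, Inv.{u} d m (I k)) :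
    ∃ (N : ℕ) (c C : ℝ), 0 < c ∧ ∀ D : ℕ, ∃ c' : ℝ, 0 < c' ∧
      ∀ (K : Type u) [Field K] [NumberField K] (F : Fin 2 → K[X]), Good d F →
      ∀ (S : Finset (AbsoluteValue K ℝ)) (T : Set (AbsoluteValue K ℝ)), S.card ≤ s →
      (∀ v ∈ T, Nsp d η F v) →
      δ * placeSum (fun v => locRes d v F) ≤
        placeSum (fun v => if v ∈ S ∨ v ∈ T then locRes d v F else 0) →
      (∀ x : Fin N → Fin 2 → K, (∀ i j, i ≠ j → FP.wd (x i) (x j) ≠ 0) → ∃ i,
        c * (max (placeSum (fun v => locRes d v F)) (logHeight (modPoint d m I F)) /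
          Module.finrank ℚ K) - C ≤ canHeight d F (x i) / Module.finrank ℚ K) ∧
      (Module.finrank ℚ K ≤ D →
      ∀ P : Fin 2 → K, (∀ m n, m ≠ n → FP.wd ((hmap d F)^[m] P) ((hmap d F)^[n] P) ≠ 0) →
        c' * (max (placeSum (fun v => locRes d v F)) (logHeight (modPoint d m I F)) /
          Module.finrank ℚ K + 1) ≤ canHeight d F P / Module.finrank ℚ K) := by
  have hl : 0 ≤ log ((2 * d).factorial : ℝ) :=
    Real.log_nonneg (by exact_mod_cast Nat.one_le_iff_ne_zero.2 (Nat.factorial_ne_zero _))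
  have hlC : ∀ k, 0 ≤ log (Cpol (I k) : ℝ) := fun k =>
    Real.log_nonneg (by exact_mod_cast (by unfold Cpol; omega : 0 < Cpol (I k)))
  obtain ⟨C6, hC6⟩ : ∃ C6 : ℝ, C6 = m * log ((2 * d).factorial) + ∑ k, log (Cpol (I k) : ℝ) :=
    ⟨_, rfl⟩
  have hC60 : 0 ≤ C6 := by
    rw [hC6]
    have := Finset.sum_nonneg (s := Finset.univ) fun k _ => hlC k
    positivity
  obtain ⟨N, c, C, hc, hC, hmain⟩ := main_ns.{u} d hd2 s η δ hη hδ
  obtain ⟨e, he⟩ : ∃ e : ℝ, e = c / (m + 1) := ⟨_, rfl⟩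
  have he0 : 0 < e := by rw [he]; positivity
  have hem : e * (m + 1) = c := by rw [he]; field_simp
  refine ⟨N, e, C + c * log ((2 * d).factorial) + e * C6, he0, fun D => ?_⟩
  obtain ⟨c₁, c₂, hc₁, hc₂, hnf⟩ := nf_ns.{u} d hd2 N c C hc hC D
  obtain ⟨b₁, b₂, hb₁, hb₂, hcomp⟩ := compare_I.{u} d m l I hI c₁ c₂ hc₁ hc₂
  refine ⟨min b₁ b₂, lt_min hb₁ hb₂, ?_⟩
  intro K _ _ F hG S T hS hT hδT
  have hn0 : (0 : ℝ) < Module.finrank ℚ K := by
    rw [← NumberField.totalWeight_eq_finrank]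
    exact_mod_cast NumberField.totalWeight_pos K
  have h1 := hmain K _ _ F hG S T hS hT hδT
  refine ⟨fun x hx => ?_, fun hD P hP => ?_⟩
  · obtain ⟨i, hi⟩ := h1 x hx
    refine ⟨i, ?_⟩
    have h2 := modPoint_le hG m I hI
    have h3 := placeSum_ge hG
    rw [← hC6] at h2
    rw [NumberField.totalWeight_eq_finrank] at hi h2 h3
    set n : ℝ := (Module.finrank ℚ K : ℝ) with hn
    set P := placeSum (fun v => locRes d v F) with hP
    set l₀ := log ((2 * d).factorial : ℝ) with hl₀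
    have hm0 : (0 : ℝ) ≤ m := Nat.cast_nonneg _
    have hnl : 0 ≤ n * l₀ := mul_nonneg hn0.le hl
    have hnC : 0 ≤ n * C6 := mul_nonneg hn0.le hC60
    have h4 : max P (logHeight (modPoint d m I F)) ≤ (m + 1) * (P + n * l₀) + n * C6 := by
      have h5 : 0 ≤ m * (P + n * l₀) := mul_nonneg hm0 (by linarith)
      have h6 : 0 ≤ m * (n * l₀) := mul_nonneg hm0 hnl
      apply max_le
      · linarith
      · have : m * P ≤ m * (P + n * l₀) := mul_le_mul_of_nonneg_left (by linarith) hm0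
        linarith
    have h7 := mul_le_mul_of_nonneg_left h4 he0.le
    have h8 : e * ((m + 1) * (P + n * l₀) + n * C6) = c * P + c * (n * l₀) + e * (n * C6) := by
      rw [← hem]; ring
    rw [le_div_iff₀ hn0]
    have h9 : (e * (max P (logHeight (modPoint d m I F)) / n) - (C + c * l₀ + e * C6)) * n =
        e * max P (logHeight (modPoint d m I F)) - (C + c * l₀ + e * C6) * n := by
      field_simp
    rw [h9]
    linarith
  · have h2 := hnf K hD F hG h1 P hP
    have h3 := (hcomp K F hG).trans (div_le_div_of_nonneg_right h2 hn0.le)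
    refine le_trans ?_ h3
    have h4 : 0 ≤ max (placeSum (fun v => locRes d v F)) (logHeight (modPoint d m I F)) /
        Module.finrank ℚ K := div_nonneg ((logHeight_nonneg _).trans (le_max_right _ _)) hn0.le
    have h5 := mul_le_mul_of_nonneg_right (min_le_left b₁ b₂) h4
    have h6 := min_le_right b₁ b₂
    linarith

end Pool.Agent.Lib_helper95.NP
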