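import Pool.Agent.Lib_helper95.NP.PotA

/-!
# Continuity of the local height
-/

set_option autoImplicit false

universe u

namespace Pool.Agent.Lib_helper95.NP

open Polynomial Real Pool.Agent.Lib_helper95.FP

/-! ## iterates and base change -/

theorem mp_pit {K L : Type*} [Field K] [Field L] (φ : K →+* L) (d : ℕ) (F : Fin 2 → K[X]) (n : ℕ) :
    mp φ (FP.pit d F n) = FP.pit d (mp φ F) n := by
  induction n with
  | zero =>
    funext i
    fin_cases i
    · simp [mp, FP.pit]
    · simp [mp, FP.pit]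
  | succ n ih =>
    funext i
    show (hcomp (d ^ n) (FP.pit d F n i) F).map φ =
      hcomp (d ^ n) (FP.pit d (mp φ F) n i) (mp φ F)
    rw [← ih, hcomp_map]
    rfl

theorem mp_mp {K L M : Type*} [Field K] [Field L] [Field M] (φ : K →+* L) (ψ : L →+* M)
    (F : Fin 2 → K[X]) : mp ψ (mp φ F) = mp (ψ.comp φ) F := by
  funext i
  unfold mp
  rw [Polynomial.map_map]

/-! ## continuity -/

section cont

variable {L : Type*} [Field L] {w : AbsoluteValue L ℝ}

theorem na_sub_le (hw : IsNonarchimedean w) (a b : L) : w (a - b) ≤ max (w a) (w b) := by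
  rw [sub_eq_add_neg, ← w.map_neg b]
  exact hw a (-b)

theorem na_add_eq (hw : IsNonarchimedean w) {a b : L} (h : w b < w a) : w (a + b) = w a := by
  apply le_antisymm
  · exact (hw a b).trans (max_le le_rfl h.le)
  · by_contra hcon
    push Not at hcon
    have h1 := na_sub_le hw (a + b) b
    rw [add_sub_cancel_right] at h1
    exact absurd (lt_of_le_of_lt h1 (max_lt hcon h)) (lt_irrefl _)

theorem pow_sub_pow_le (hw : IsNonarchimedean w) (x y : L) (hx : w x ≤ 1) (hy : w y ≤ 1) (j : ℕ) :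
    w (x ^ j - y ^ j) ≤ w (x - y) := by
  induction j with
  | zero => simp
  | succ j ih =>
    have e : x ^ (j + 1) - y ^ (j + 1) = x ^ j * (x - y) + (x ^ j - y ^ j) * y := by ring
    rw [e]
    refine (hw _ _).trans (max_le ?_ ?_)
    · rw [map_mul, map_pow]
      exact mul_le_of_le_one_left (w.nonneg _) (pow_le_one₀ (w.nonneg _) hx)
    · rw [map_mul]
      exact (mul_le_of_le_one_right (w.nonneg _) hy).trans ih

theorem na_sum_le (hw : IsNonarchimedean w) {ι : Type*} (s : Finset ι) (f : ι → L) (B : ℝ)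
    (hB : 0 ≤ B) (hf : ∀ i ∈ s, w (f i) ≤ B) : w (∑ i ∈ s, f i) ≤ B := by
  have := (SB_zero w hw).finset s f B hB hf
  simpa using this

theorem hev_sub_le (hw : IsNonarchimedean w) (n : ℕ) (p : L[X]) (hp : ∀ j, j ≤ n → w (p.coeff j) ≤ 1)
    (x y : Fin 2 → L) (hx : nv w x ≤ 1) (hy : nv w y ≤ 1) (B : ℝ)
    (h0 : w (x 0 - y 0) ≤ B) (h1 : w (x 1 - y 1) ≤ B) :
    w (hev n p x - hev n p y) ≤ B := by
  have hB : 0 ≤ B := (w.nonneg _).trans h0
  unfold hev
  rw [← Finset.sum_sub_distrib]
  apply na_sum_le hw _ _ B hB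
  intro j hj
  have hj' : j ≤ n := Nat.lt_succ_iff.1 (Finset.mem_range.1 hj)
  have e : p.coeff j * x 0 ^ j * x 1 ^ (n - j) - p.coeff j * y 0 ^ j * y 1 ^ (n - j) =
      p.coeff j * ((x 0 ^ j - y 0 ^ j) * x 1 ^ (n - j) +
        y 0 ^ j * (x 1 ^ (n - j) - y 1 ^ (n - j))) := by ring
  rw [e, map_mul]
  refine (mul_le_of_le_one_left (w.nonneg _) (hp j hj')).trans ?_
  refine (hw _ _).trans (max_le ?_ ?_)
  · rw [map_mul, map_pow]
    refine (mul_le_of_le_one_right (w.nonneg _)
      (pow_le_one₀ (w.nonneg _) ((le_nv w x 1).trans hx))).trans ?_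
    exact (pow_sub_pow_le hw _ _ ((le_nv w x 0).trans hx) ((le_nv w y 0).trans hy) j).trans h0
  · rw [map_mul, map_pow]
    refine (mul_le_of_le_one_left (w.nonneg _)
      (pow_le_one₀ (w.nonneg _) ((le_nv w y 0).trans hy))).trans ?_
    exact (pow_sub_pow_le hw _ _ ((le_nv w x 1).trans hx) ((le_nv w y 1).trans hy) _).trans h1

theorem nv_iter_le_one (hw : IsNonarchimedean w) {d : ℕ} {G : Fin 2 → L[X]} (hn : nF w d G ≤ 1)
    (x : Fin 2 → L) (hx : nv w x ≤ 1) (j : ℕ) : nv w ((hmap d G)^[j] x) ≤ 1 := by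
  induction j with
  | zero => exact hx
  | succ j ih =>
    rw [Function.iterate_succ_apply']
    have h1 := nv_hmap_le (SB_zero w hw) d G ((hmap d G)^[j] x)
    rw [pow_zero, one_mul] at h1
    exact h1.trans (mul_le_one₀ hn (pow_nonneg (nv_nonneg w _) _)
      (pow_le_one₀ (nv_nonneg w _) ih))

theorem iter_sub_le (hw : IsNonarchimedean w) {d : ℕ} {G : Fin 2 → L[X]} (hn : nF w d G ≤ 1)
    (x y : Fin 2 → L) (hx : nv w x ≤ 1) (hy : nv w y ≤ 1) (B : ℝ)
    (h : ∀ i, w (x i - y i) ≤ B) (j : ℕ) (i : Fin 2) :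
    w ((hmap d G)^[j] x i - (hmap d G)^[j] y i) ≤ B := by
  induction j generalizing i with
  | zero => exact h i
  | succ j ih =>
    rw [Function.iterate_succ_apply', Function.iterate_succ_apply']
    exact hev_sub_le hw d (G i) (fun j hj => (le_nF w d G i j hj).trans hn) _ _
      (nv_iter_le_one hw hn x hx j) (nv_iter_le_one hw hn y hy j) B (ih 0) (ih 1)

theorem nv_iter_near (hw : IsNonarchimedean w) {d : ℕ} {G : Fin 2 → L[X]} (hn : nF w d G ≤ 1)
    (x y : Fin 2 → L) (hx : nv w x ≤ 1) (hy : nv w y ≤ 1) (B : ℝ)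
    (h : ∀ i, w (x i - y i) ≤ B) (j : ℕ) (hB : nv w ((hmap d G)^[j] y) ≤ B) :
    nv w ((hmap d G)^[j] x) ≤ B := by
  apply nv_le
  intro i
  have e : (hmap d G)^[j] x i = ((hmap d G)^[j] x i - (hmap d G)^[j] y i) +
      (hmap d G)^[j] y i := by ring
  rw [e]
  exact (hw _ _).trans (max_le (iter_sub_le hw hn x y hx hy B h j i)
    ((le_nv w _ i).trans hB))

end cont

theorem wd_add_right {L : Type*} [Field L] (x y z : Fin 2 → L) (c : L) :
    FP.wd x (fun i => y i + c * z i) = FP.wd x y + c * FP.wd x z := by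
  unfold FP.wd; ring

section ultra

variable {L : Type*} [Field L] {w : AbsoluteValue L ℝ}

/-- The ultrametric inequality on the projective line. -/
theorem wd_tri (hw : IsNonarchimedean w) (x y z : Fin 2 → L) (hx : nv w x ≤ 1)
    (hy : nv w y = 1) (hz : nv w z ≤ 1) :
    w (FP.wd x z) ≤ max (w (FP.wd x y)) (w (FP.wd y z)) := by
  have key : ∀ i : Fin 2, w (FP.wd x z) * w (y i) ≤ max (w (FP.wd x y)) (w (FP.wd y z)) := by
    intro i
    have e : FP.wd x z * y i = FP.wd x y * z i + FP.wd y z * x i := by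
      unfold FP.wd
      fin_cases i
      · simp only [Fin.zero_eta]; ring
      · simp only [Fin.mk_one]; ring
    rw [← map_mul, e]
    refine (hw _ _).trans (max_le_max ?_ ?_)
    · rw [map_mul]
      exact mul_le_of_le_one_right (w.nonneg _) ((le_nv w z i).trans hz)
    · rw [map_mul]
      exact mul_le_of_le_one_right (w.nonneg _) ((le_nv w x i).trans hx)
  rcases max_choice (w (y 0)) (w (y 1)) with h | h
  · have h1 := key 0
    rw [← h, show max (w (y 0)) (w (y 1)) = 1 from hy, mul_one] at h1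
    exact h1
  · have h1 := key 1
    rw [← h, show max (w (y 0)) (w (y 1)) = 1 from hy, mul_one] at h1
    exact h1

theorem wd_le_one (hw : IsNonarchimedean w) (x y : Fin 2 → L) (hx : nv w x = 1)
    (hy : nv w y = 1) : w (FP.wd x y) ≤ 1 := p1_wd_le hw x y hx hy

theorem HH_ge' (hw : IsNonarchimedean w) {d : ℕ} {G : Fin 2 → L[X]} (hG : Good d G)
    (hn : nF w d G = 1) (x : Fin 2 → L) (hx : x ≠ 0) :
    log (w (res d G)) / (d - 1) + log (nv w x) ≤ HH w d G x := by
  have h := ht_le (SB_zero w hw) hG x hx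
  unfold HH
  rw [hn, Real.log_one, zero_div]
  have e : (RR w d G + ((0 : ℕ) : ℝ) * log ((2 * d).factorial)) / ((d : ℝ) - 1) =
      -(log (w (res d G)) / ((d : ℝ) - 1)) := by
    unfold RR
    rw [hn, Real.log_one]
    simp [neg_div]
  rw [e] at h
  linarith

/-- Lower bound for the norm of an iterate. -/
theorem log_nv_iter_ge (hw : IsNonarchimedean w) {d : ℕ} {G : Fin 2 → L[X]} (hG : Good d G)
    (hn : nF w d G = 1) (x : Fin 2 → L) (hx : nv w x = 1) (n : ℕ) :
    (d : ℝ) ^ n * (log (w (res d G)) / (d - 1)) ≤ log (nv w ((hmap d G)^[n] x)) := by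
  have hx0 := p1_ne hx
  have h1 := HH_le hw hG hn _ (iter_ne_zero hG w n x hx0)
  rw [HH_iter hG n x hx0] at h1
  have h2 := HH_ge hw hG hn x hx
  exact (mul_le_mul_of_nonneg_left h2 (by positivity)).trans h1

theorem nv_iter_ge (hw : IsNonarchimedean w) {d : ℕ} {G : Fin 2 → L[X]} (hG : Good d G)
    (hn : nF w d G = 1) (hR : w (res d G) ≤ 1) (x : Fin 2 → L) (hx : nv w x = 1) (n : ℕ) :
    w (res d G) ^ (d ^ n) ≤ nv w ((hmap d G)^[n] x) := by
  have hd2 := hG.two_le
  have hd : (2 : ℝ) ≤ d := by exact_mod_cast hd2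
  have hr := w.pos hG.res_ne
  have h1 := log_nv_iter_ge hw hG hn x hx n
  have h0 := nv_pos w _ (iter_ne_zero hG w n x (p1_ne hx))
  rw [← Real.log_le_log_iff (pow_pos hr _) h0, Real.log_pow]
  refine le_trans ?_ h1
  push_cast
  apply mul_le_mul_of_nonneg_left _ (by positivity)
  have hl := Real.log_nonpos hr.le hR
  rw [le_div_iff₀ (by linarith)]
  nlinarith

/-- Continuity of the local height. -/
theorem HH_near_aux (hw : IsNonarchimedean w) {d : ℕ} {G : Fin 2 → L[X]} (hG : Good d G)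
    (hn : nF w d G = 1) (hR : w (res d G) < 1) (x y : Fin 2 → L) (hx : nv w x = 1)
    (hy : nv w y = 1) (n : ℕ) (h : ∀ i, w (x i - y i) < w (res d G) ^ (d ^ n)) :
    HH w d G x - HH w d G y ≤ -log (w (res d G)) / ((d - 1) * (d : ℝ) ^ n) := by
  have hd2 := hG.two_le
  have hd : (2 : ℝ) ≤ d := by exact_mod_cast hd2
  have hx0 := p1_ne hx
  have hy0 := p1_ne hy
  have hN0 : (0 : ℝ) < (d : ℝ) ^ n := by positivity
  have h1 : nv w ((hmap d G)^[n] x) ≤ nv w ((hmap d G)^[n] y) := by
    have hy1 := nv_iter_ge hw hG hn hR.le y hy n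
    apply nv_iter_near hw hn.le x y hx.le hy.le _ _ n le_rfl
    intro i
    exact (h i).le.trans hy1
  have h2 := Real.log_le_log (nv_pos w _ (iter_ne_zero hG w n x hx0)) h1
  have h3 := HH_le hw hG hn _ (iter_ne_zero hG w n x hx0)
  have h4 := HH_ge' hw hG hn _ (iter_ne_zero hG w n y hy0)
  rw [HH_iter hG n x hx0] at h3
  rw [HH_iter hG n y hy0] at h4
  have h5 : (d : ℝ) ^ n * (HH w d G x - HH w d G y) ≤ -(log (w (res d G)) / (d - 1)) := by
    rw [mul_sub]
    linarith
  have e : -log (w (res d G)) / ((d - 1) * (d : ℝ) ^ n) =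
      -(log (w (res d G)) / (d - 1)) / (d : ℝ) ^ n := by
    have : (d : ℝ) - 1 ≠ 0 := by linarith
    field_simp
  rw [e, le_div_iff₀ hN0]
  linarith

theorem HH_near (hw : IsNonarchimedean w) {d : ℕ} {G : Fin 2 → L[X]} (hG : Good d G)
    (hn : nF w d G = 1) (hR : w (res d G) < 1) (x y : Fin 2 → L) (hx : nv w x = 1)
    (hy : nv w y = 1) (n : ℕ) (h : w (FP.wd x y) < w (res d G) ^ (d ^ n)) :
    HH w d G x - HH w d G y ≤ -log (w (res d G)) / ((d - 1) * (d : ℝ) ^ n) := by
  have hr := w.pos hG.res_ne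
  have hr1 : w (res d G) ^ (d ^ n) ≤ 1 := pow_le_one₀ hr.le hR.le
  -- a unit `u` with `x` near `u y`
  obtain ⟨u, hu⟩ : ∃ u : L, ∀ i, w (x i - u * y i) ≤ w (FP.wd x y) := by
    rcases max_choice (w (y 0)) (w (y 1)) with hh | hh
    · have hy0 : w (y 0) = 1 := by rw [← hh]; exact hy
      have hy00 : y 0 ≠ 0 := by
        intro h0
        rw [h0, map_zero] at hy0
        exact zero_ne_one hy0
      refine ⟨x 0 / y 0, ?_⟩
      intro i
      fin_cases i
      · simp only [Fin.zero_eta]
        rw [div_mul_cancel₀ _ hy00, sub_self, map_zero]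
        exact w.nonneg _
      · simp only [Fin.mk_one]
        have e : x 1 - x 0 / y 0 * y 1 = -(FP.wd x y) / y 0 := by
          unfold FP.wd
          field_simp
          ring
        rw [e, map_div₀, w.map_neg, hy0, div_one]
    · have hy1 : w (y 1) = 1 := by rw [← hh]; exact hy
      have hy11 : y 1 ≠ 0 := by
        intro h0
        rw [h0, map_zero] at hy1
        exact zero_ne_one hy1
      refine ⟨x 1 / y 1, ?_⟩
      intro i
      fin_cases i
      · simp only [Fin.zero_eta]
        have e : x 0 - x 1 / y 1 * y 0 = FP.wd x y / y 1 := by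
          unfold FP.wd
          field_simp
        rw [e, map_div₀, hy1, div_one]
      · simp only [Fin.mk_one]
        rw [div_mul_cancel₀ _ hy11, sub_self, map_zero]
        exact w.nonneg _
  have hlt : ∀ i, w (x i - u * y i) < 1 := fun i => ((hu i).trans_lt h).trans_le hr1
  have hnu : nv w (fun i => u * y i) = w u := by rw [nv_smul, hy, mul_one]
  have hwu : w u = 1 := by
    rw [← hnu]
    apply le_antisymm
    · apply nv_le
      intro i
      have e : u * y i = x i - (x i - u * y i) := by ring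
      rw [e]
      exact (na_sub_le hw _ _).trans (max_le ((le_nv w x i).trans hx.le) (hlt i).le)
    · by_contra hcon
      push Not at hcon
      have h1 : nv w x < 1 := by
        have h2 : ∀ i, w (x i) < 1 := by
          intro i
          have e : x i = (u * y i) + (x i - u * y i) := by ring
          rw [e]
          refine (hw _ _).trans_lt (max_lt (lt_of_le_of_lt ?_ hcon) (hlt i))
          exact le_nv w (fun i => u * y i) i
        unfold nv
        exact max_lt (h2 0) (h2 1)
      rw [hx] at h1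
      exact lt_irrefl _ h1
  have hu0 : u ≠ 0 := by
    intro h0
    rw [h0, map_zero] at hwu
    exact zero_ne_one hwu
  have h1 := HH_near_aux hw hG hn hR x (fun i => u * y i) hx (by rw [hnu, hwu]) n
    (fun i => (hu i).trans_lt h)
  rw [HH_smul hG u hu0 y (p1_ne hy), hwu, Real.log_one] at h1
  linarith

end ultra

end Pool.Agent.Lib_helper95.NP
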