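import Pool.Agent.Lib_helper95.NP.Root

/-!
# Local heights (block of helper25)
-/

set_option autoImplicit false

universe u

namespace Pool.Agent.Lib_helper95.NP

open Polynomial Real Pool.Agent.Lib_helper95.FP

section pot

variable {L : Type*} [Field L] {w : AbsoluteValue L ℝ} {d : ℕ} {G : Fin 2 → L[X]}

theorem p1_ne {x : Fin 2 → L} (hx : nv w x = 1) : x ≠ 0 := by
  intro h
  rw [h] at hx
  unfold nv at hx
  simp at hx

theorem HH_le (hw : IsNonarchimedean w) (hG : Good d G) (hn : nF w d G = 1) (x : Fin 2 → L)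
    (hx : x ≠ 0) : HH w d G x ≤ log (nv w x) := by
  have h := ht_ge (SB_zero w hw) hG x hx
  unfold HH
  rw [hn, Real.log_one, zero_div]
  have e : (-(((0 : ℕ) : ℝ) * log (d + 1))) / ((d : ℝ) - 1) = 0 := by simp
  rw [e] at h
  linarith

theorem HH_ge (hw : IsNonarchimedean w) (hG : Good d G) (hn : nF w d G = 1) (x : Fin 2 → L)
    (hx : nv w x = 1) : log (w (res d G)) / (d - 1) ≤ HH w d G x := by
  have h := ht_le (SB_zero w hw) hG x (p1_ne hx)
  unfold HH
  rw [hn, hx, Real.log_one, zero_div]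
  have e : (RR w d G + ((0 : ℕ) : ℝ) * log ((2 * d).factorial)) / ((d : ℝ) - 1) =
      -(log (w (res d G)) / ((d : ℝ) - 1)) := by
    unfold RR
    rw [hn, Real.log_one]
    simp [neg_div]
  rw [e] at h
  linarith

theorem p1_wd_le (hw : IsNonarchimedean w) (x y : Fin 2 → L) (hx : nv w x = 1) (hy : nv w y = 1) :
    w (wd x y) ≤ 1 := by
  have h := wd_le (SB_zero w hw) x y
  rw [hx, hy] at h
  simpa using h

theorem gg_ge (hw : IsNonarchimedean w) (hG : Good d G) (x y : Fin 2 → L)
    (hx : nv w x = 1) (hy : nv w y = 1) (hxy : wd x y ≠ 0) :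
    HH w d G x + HH w d G y - log (w (res d G)) / (d * (d - 1)) ≤ gg w d G x y := by
  have h := Real.log_nonpos (w.nonneg _) (p1_wd_le hw x y hx hy)
  unfold gg
  linarith

theorem gg_le_sep (hw : IsNonarchimedean w) (hG : Good d G) (hn : nF w d G = 1)
    (x y : Fin 2 → L) (hx : nv w x = 1) (hy : nv w y = 1) {ε : ℝ} (hε : 0 < ε)
    (hxy : ε ≤ w (wd x y)) :
    gg w d G x y ≤ -log ε - log (w (res d G)) / (d * (d - 1)) := by
  have h1 := HH_le hw hG hn x (p1_ne hx)
  have h2 := HH_le hw hG hn y (p1_ne hy)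
  rw [hx, Real.log_one] at h1
  rw [hy, Real.log_one] at h2
  have h3 := Real.log_le_log hε hxy
  unfold gg
  linarith

theorem p1_nv_iter (hw : IsNonarchimedean w) (hn : nF w d G = 1) (n : ℕ)
    (x : Fin 2 → L) (hx : nv w x = 1) : nv w ((hmap d G)^[n] x) ≤ 1 := by
  induction n with
  | zero => simpa using hx.le
  | succ n ih =>
    rw [Function.iterate_succ_apply']
    have h := nv_hmap_le (SB_zero w hw) d G ((hmap d G)^[n] x)
    rw [hn, pow_zero, one_mul, one_mul] at h
    exact h.trans (pow_le_one₀ (nv_nonneg w _) ih)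

theorem wd_iter_le (hw : IsNonarchimedean w) (hG : Good d G) (hn : nF w d G = 1) (n : ℕ)
    (x y : Fin 2 → L) (hx : nv w x = 1) (hy : nv w y = 1) :
    w (wd ((hmap d G)^[n] x) ((hmap d G)^[n] y)) ≤ w (wd x y) := by
  induction n with
  | zero => exact le_refl _
  | succ n ih =>
    rw [Function.iterate_succ_apply', Function.iterate_succ_apply']
    have h := wd_hmap_le (SB_zero w hw) d G ((hmap d G)^[n] x) ((hmap d G)^[n] y)
    rw [hn, pow_zero, one_mul, one_pow, one_mul] at h
    refine (h.trans ?_).trans ih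
    refine mul_le_of_le_one_left (w.nonneg _) (pow_le_one₀ (mul_nonneg (nv_nonneg w _) (nv_nonneg w _)) ?_)
    exact mul_le_one₀ (p1_nv_iter hw hn n x hx) (nv_nonneg w _) (p1_nv_iter hw hn n y hy)

end pot

end Pool.Agent.Lib_helper95.NP
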