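import Pool.Agent.Lib_helper95.NP.Near

/-!
# The potential of a fibre of an iterate
-/

set_option autoImplicit false

universe u

namespace Pool.Agent.Lib_helper95.NP

open Polynomial Real Pool.Agent.Lib_helper95.FP

section

variable {L : Type*} [Field L] {w : AbsoluteValue L ℝ}

theorem gn_sum_le (hw : IsNonarchimedean w) {ι : Type*} (s : Finset ι) (f : ι → L[X])
    (B : ℝ) (hB : 0 ≤ B) (h : ∀ i ∈ s, gn w (f i) ≤ B) : gn w (∑ i ∈ s, f i) ≤ B := by
  classical
  induction s using Finset.induction_on with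
  | empty => rw [Finset.sum_empty, gn_zero]; exact hB
  | insert a s ha ih =>
    rw [Finset.sum_insert ha]
    exact (gn_add_le hw _ _).trans (max_le (h a (Finset.mem_insert_self a s))
      (ih fun i hi => h i (Finset.mem_insert_of_mem hi)))

theorem gn_pow_le (hw : IsNonarchimedean w) {p : L[X]} (hp : gn w p ≤ 1) (n : ℕ) :
    gn w (p ^ n) ≤ 1 := by
  rw [gn_pow hw]
  exact pow_le_one₀ (gn_nonneg w p) hp

theorem gn_hcomp_le (hw : IsNonarchimedean w) (m : ℕ) (p : L[X]) (g : Fin 2 → L[X])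
    (hp : gn w p ≤ 1) (hg : ∀ i, gn w (g i) ≤ 1) : gn w (hcomp m p g) ≤ 1 := by
  unfold hcomp
  apply gn_sum_le hw _ _ _ zero_le_one
  intro j _
  rw [mul_assoc, gn_mul hw, gn_C, gn_mul hw]
  exact mul_le_one₀ ((le_gn w p j).trans hp)
    (mul_nonneg (gn_nonneg w _) (gn_nonneg w _))
    (mul_le_one₀ (gn_pow_le hw (hg 0) j) (gn_nonneg w _) (gn_pow_le hw (hg 1) _))

theorem gn_pit_le (hw : IsNonarchimedean w) {d : ℕ} {G : Fin 2 → L[X]} (hG : Good d G)
    (hn : nF w d G ≤ 1) (n : ℕ) (i : Fin 2) : gn w (FP.pit d G n i) ≤ 1 := by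
  induction n generalizing i with
  | zero =>
    fin_cases i
    · show gn w X ≤ 1
      rw [gn_X]
    · show gn w 1 ≤ 1
      rw [gn_one]
  | succ n ih =>
    exact gn_hcomp_le hw _ _ _ (ih i) fun j =>
      gn_le w _ _ fun k => (coeff_le_nF w d G hG.deg j k).trans hn

/-- `z` is the fibre of the `n`-th iterate of `G` over the point `(t, 1)`. -/
structure Fib (w : AbsoluteValue L ℝ) (d : ℕ) (G : Fin 2 → L[X]) (n : ℕ) (t : L)
    (z : Fin (d ^ n) → Fin 2 → L) : Prop where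
  unit : ∀ i, nv w (z i) = 1
  ex : ∃ (b : L) (c : Fin (d ^ n) → L), w b ≤ 1 ∧ b ≠ 0 ∧
    (∀ i, (hmap d G)^[n] (z i) = fun j => c i * (![t, 1] : Fin 2 → L) j) ∧
    (w b ^ (d ^ n) * ∏ i, w (c i) = w (res d G) ^ eR d n) ∧
    ∀ x : Fin 2 → L, w (FP.wd ((hmap d G)^[n] x) ![t, 1]) = w b * ∏ i, w (FP.wd x (z i))

theorem exists_fib [IsAlgClosed L] (hw : IsNonarchimedean w) {d : ℕ} {G : Fin 2 → L[X]}
    (hG : Good d G) (hn : nF w d G ≤ 1) (n : ℕ) (t : L) (ht : w t ≤ 1) :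
    ∃ z, Fib w d G n t z := by
  have hdeg := natDegree_pit d G hG.deg n
  have hd2 := hG.two_le
  have hD1 : 1 ≤ d ^ n := Nat.one_le_pow _ _ (by omega)
  set P : L[X] := FP.pit d G n 0 - C t * FP.pit d G n 1 with hP
  have hPdeg : P.natDegree ≤ d ^ n := by
    refine (natDegree_sub_le _ _).trans (max_le (hdeg 0) ?_)
    exact (natDegree_C_mul_le _ _).trans (hdeg 1)
  obtain ⟨b, z, hz, hPz, hb⟩ := exists_roots hw (d ^ n) P hPdeg
  have hb1 : w b ≤ 1 := by
    rw [hb, hP]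
    refine (gn_sub_le hw _ _).trans (max_le (gn_pit_le hw hG hn n 0) ?_)
    rw [gn_mul hw, gn_C]
    exact mul_le_one₀ ht (gn_nonneg w _) (gn_pit_le hw hG hn n 1)
  have hprod := prod_fibre (w := w) (FP.pit d G n) hdeg t b z hPz
  rw [w_res_pit w d G hG.deg n] at hprod
  have hev1 : ∀ x : Fin 2 → L, FP.wd ((hmap d G)^[n] x) ![t, 1] = b * ∏ i, FP.wd x (z i) := by
    intro x
    have h1 := hev_prod b z x
    rw [Fintype.card_fin, ← hPz, hP, sub_eq_add_neg, hev_add, ← neg_one_mul, ← C_1, ← C_neg,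
      ← mul_assoc, ← C_mul, hev_C_mul] at h1
    rw [← h1, ← hmap_pit d G hG.deg n x]
    simp only [FP.wd, hmap, Matrix.cons_val_zero, Matrix.cons_val_one]
    ring
  refine ⟨z, hz, b, fun i => hev (d ^ n) (FP.pit d G n 1) (z i), hb1, ?_, ?_, hprod, ?_⟩
  · rintro rfl
    rw [map_zero, zero_pow (by omega), zero_mul] at hprod
    exact (pow_ne_zero _ (w.pos hG.res_ne).ne') hprod.symm
  · intro i
    have h0 : FP.wd ((hmap d G)^[n] (z i)) ![t, 1] = 0 := by
      rw [hev1, Finset.prod_eq_zero (Finset.mem_univ i) (by unfold FP.wd; ring), mul_zero]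
    have h1 : (hmap d G)^[n] (z i) 1 = hev (d ^ n) (FP.pit d G n 1) (z i) := by
      rw [← hmap_pit d G hG.deg n]
      rfl
    simp only [FP.wd, Matrix.cons_val_zero, Matrix.cons_val_one, mul_one] at h0
    funext j
    fin_cases j
    · simp only [Fin.zero_eta, Matrix.cons_val_zero]
      rw [← h1]
      linear_combination h0
    · simp [h1]
  · intro x
    rw [hev1, map_mul, map_prod]

theorem Fib.pot (hw : IsNonarchimedean w) {d : ℕ} {G : Fin 2 → L[X]} (hG : Good d G)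
    (hn : nF w d G = 1) (hR : w (res d G) ≤ 1) {n : ℕ} {t : L} (ht : w t ≤ 1)
    {z : Fin (d ^ n) → Fin 2 → L}
    (h : Fib w d G n t z) (x : Fin 2 → L) (hx : nv w x = 1)
    (hxy : w (FP.wd ((hmap d G)^[n] x) ![t, 1]) = nv w ((hmap d G)^[n] x)) :
    2 * (log (w (res d G)) / (d - 1)) ≤ ∑ i, gg w d G x (z i) ∧
    ∑ i, gg w d G x (z i) ≤ -log (w (res d G)) / (d * (d - 1)) ∧
    ∀ i, w (res d G) ^ (d ^ n) ≤ w (FP.wd x (z i)) := by
  obtain ⟨hz, b, c, hb1, hb0, hc, hcr, hprod⟩ := h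
  have hd2 := hG.two_le
  have hd : (2 : ℝ) ≤ d := by exact_mod_cast hd2
  have hd0 : (0 : ℝ) < d := by linarith
  have hd1 : (0 : ℝ) < d - 1 := by linarith
  have hdd : (0 : ℝ) < d * (d - 1) := mul_pos hd0 hd1
  have hN0 : (0 : ℝ) < (d : ℝ) ^ n := pow_pos hd0 n
  set y : Fin 2 → L := ![t, 1] with hydef
  have hy : nv w y = 1 := by
    unfold nv
    rw [hydef]
    simp only [Matrix.cons_val_zero, Matrix.cons_val_one, map_one]
    exact max_eq_right ht
  set R := log (w (res d G)) with hRdef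
  have hR0 : R ≤ 0 := Real.log_nonpos (w.nonneg _) hR
  have hx0 := p1_ne hx
  have hz0 : ∀ i, z i ≠ 0 := fun i => p1_ne (hz i)
  have hy0 : y ≠ 0 := p1_ne hy
  have hwb : 0 < w b := w.pos hb0
  -- the iterate of `x`
  have hpos : 0 < nv w ((hmap d G)^[n] x) := nv_pos w _ (iter_ne_zero hG w n x hx0)
  have hprod0 : ∏ i, w (FP.wd x (z i)) ≠ 0 := by
    intro h0
    have h1 := hprod x
    rw [h0, mul_zero, hxy] at h1
    exact hpos.ne' h1
  have hne : ∀ i ∈ (Finset.univ : Finset (Fin (d ^ n))), w (FP.wd x (z i)) ≠ 0 :=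
    Finset.prod_ne_zero_iff.1 hprod0
  have hlog : ∑ i, log (w (FP.wd x (z i))) = log (nv w ((hmap d G)^[n] x)) - log (w b) := by
    rw [← Real.log_prod hne, ← hxy, hprod, Real.log_mul hwb.ne' hprod0]
    ring
  have hHx : (d : ℝ) ^ n * HH w d G x = HH w d G ((hmap d G)^[n] x) := (HH_iter hG n x hx0).symm
  have hb2 := HH_le hw hG hn _ (iter_ne_zero hG w n x hx0)
  have hb3 := HH_ge' hw hG hn _ (iter_ne_zero hG w n x hx0)
  -- the roots
  have hc0 : ∀ i, c i ≠ 0 := by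
    intro i h
    apply iter_ne_zero hG w n (z i) (hz0 i)
    rw [hc i, h]
    funext j
    simp
  have hHy : HH w d G y ≤ 0 := by
    have := HH_le hw hG hn y hy0
    rwa [hy, Real.log_one] at this
  have hHy2 : R / (d - 1) ≤ HH w d G y := HH_ge hw hG hn y hy
  have hHz : ∀ i, (d : ℝ) ^ n * HH w d G (z i) = log (w (c i)) + HH w d G y := by
    intro i
    rw [← HH_iter hG n (z i) (hz0 i), hc i, HH_smul hG (c i) (hc0 i) y hy0]
  have hsum : (d : ℝ) ^ n * ∑ i, HH w d G (z i) =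
      (eR d n : ℝ) * R - (d : ℝ) ^ n * log (w b) + (d : ℝ) ^ n * HH w d G y := by
    have h1 : log (w b ^ (d ^ n) * ∏ i, w (c i)) = (eR d n : ℝ) * R := by
      rw [hcr, Real.log_pow]
    rw [Real.log_mul (pow_ne_zero _ hwb.ne')
      (Finset.prod_ne_zero_iff.2 fun i _ => (w.pos (hc0 i)).ne'), Real.log_pow,
      Real.log_prod (fun i _ => (w.pos (hc0 i)).ne')] at h1
    push_cast at h1
    rw [Finset.mul_sum, Finset.sum_congr rfl fun i _ => hHz i, Finset.sum_add_distrib,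
      Finset.sum_const, Finset.card_univ, Fintype.card_fin, nsmul_eq_mul]
    push_cast
    linarith
  have he : (d : ℝ) * (d - 1) * (eR d n : ℝ) = (d : ℝ) ^ n * ((d : ℝ) ^ n - 1) := by
    have h1 := eR_formula d n
    have h2 : 1 ≤ d ^ n := Nat.one_le_pow _ _ (by omega)
    have h3 : ((d * (d - 1) * eR d n : ℕ) : ℝ) = ((d ^ n * (d ^ n - 1) : ℕ) : ℝ) := by
      exact_mod_cast h1
    rw [Nat.cast_mul, Nat.cast_mul, Nat.cast_mul, Nat.cast_sub (by omega), Nat.cast_sub h2] at h3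
    push_cast at h3
    exact h3
  have hsum2 : ∑ i, HH w d G (z i) =
      ((d : ℝ) ^ n - 1) * (R / (d * (d - 1))) - log (w b) + HH w d G y := by
    have h1 : (eR d n : ℝ) * R = (d : ℝ) ^ n * (((d : ℝ) ^ n - 1) * (R / (d * (d - 1)))) := by
      have : (eR d n : ℝ) = (d : ℝ) ^ n * ((d : ℝ) ^ n - 1) / (d * (d - 1)) := by
        rw [← he]
        field_simp
      rw [this]
      ring
    rw [h1] at hsum
    have h2 : (d : ℝ) ^ n * ∑ i, HH w d G (z i) = (d : ℝ) ^ n *
        (((d : ℝ) ^ n - 1) * (R / (d * (d - 1))) - log (w b) + HH w d G y) := by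
      rw [hsum]; ring
    exact mul_left_cancel₀ hN0.ne' h2
  have htot : ∑ i, gg w d G x (z i) = - ∑ i, log (w (FP.wd x (z i))) + (d : ℝ) ^ n * HH w d G x +
      ∑ i, HH w d G (z i) - (d : ℝ) ^ n * (R / (d * (d - 1))) := by
    unfold gg
    rw [Finset.sum_sub_distrib, Finset.sum_add_distrib, Finset.sum_add_distrib,
      Finset.sum_neg_distrib, Finset.sum_const, Finset.sum_const, Finset.card_univ,
      Fintype.card_fin, nsmul_eq_mul, nsmul_eq_mul]
    push_cast
    ring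
  have htot2 : ∑ i, gg w d G x (z i) = (HH w d G ((hmap d G)^[n] x) -
      log (nv w ((hmap d G)^[n] x))) + HH w d G y - R / (d * (d - 1)) := by
    rw [htot, hlog, hHx, hsum2]
    ring
  refine ⟨?_, ?_, ?_⟩
  · rw [htot2]
    have h1 : R / (d * (d - 1)) ≤ 0 := div_nonpos_of_nonpos_of_nonneg hR0 hdd.le
    linarith
  · rw [htot2, neg_div]
    linarith
  · intro i
    have h1 : w (FP.wd ((hmap d G)^[n] x) y) ≤ w (FP.wd x (z i)) := by
      rw [hprod, ← Finset.mul_prod_erase Finset.univ _ (Finset.mem_univ i)]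
      have h2 : ∏ k ∈ Finset.univ.erase i, w (FP.wd x (z k)) ≤ 1 :=
        Finset.prod_le_one (fun k _ => w.nonneg _) fun k _ => wd_le_one hw x (z k) hx (hz k)
      calc w b * (w (FP.wd x (z i)) * ∏ k ∈ Finset.univ.erase i, w (FP.wd x (z k))) ≤
          1 * (w (FP.wd x (z i)) * 1) := by
            apply mul_le_mul hb1 _ _ zero_le_one
            · exact mul_le_mul_of_nonneg_left h2 (w.nonneg _)
            · exact mul_nonneg (w.nonneg _) (Finset.prod_nonneg fun k _ => w.nonneg _)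
        _ = w (FP.wd x (z i)) := by ring
    rw [hxy] at h1
    exact (nv_iter_ge hw hG hn hR x hx n).trans h1

end

end Pool.Agent.Lib_helper95.NP
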