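import Mathlib.MeasureTheory.Integral.IntervalIntegral.Basic
import Mathlib.MeasureTheory.Integral.IntervalIntegral.FundThmCalculus

/-!
# Ultrametric kernels are positive semidefinite
-/

set_option autoImplicit false

namespace Pool.Agent.Lib_helper95.NP

open MeasureTheory

theorem psd_fiber {ι κ : Type*} [Fintype ι] [Fintype κ] [DecidableEq κ] (f : ι → κ) (w : ι → ℝ) :
    0 ≤ ∑ i, ∑ j, w i * w j * (if f i = f j then 1 else 0) := by
  have h : ∑ i, ∑ j, w i * w j * (if f i = f j then (1 : ℝ) else 0) =
      ∑ c : κ, (∑ i, w i * (if f i = c then 1 else 0)) ^ 2 := by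
    have e : ∀ c : κ, (∑ i, w i * (if f i = c then (1 : ℝ) else 0)) ^ 2 =
        ∑ i, ∑ j, w i * w j * ((if f i = c then 1 else 0) * (if f j = c then 1 else 0)) := by
      intro c
      rw [sq, Finset.sum_mul_sum]
      apply Finset.sum_congr rfl
      intro i _
      apply Finset.sum_congr rfl
      intro j _
      ring
    simp only [e]
    symm
    rw [Finset.sum_comm]
    apply Finset.sum_congr rfl
    intro i _
    rw [Finset.sum_comm]
    apply Finset.sum_congr rfl
    intro j _
    rw [← Finset.mul_sum]
    congr 1
    rw [Finset.sum_eq_single (f i)]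
    · simp only [if_true, one_mul]
      split_ifs with h1 h2 h2
      · rfl
      · exact absurd h1.symm h2
      · exact absurd h2.symm h1
      · rfl
    · intro c _ hc
      rw [if_neg (fun h => hc h.symm), zero_mul]
    · intro h
      exact absurd (Finset.mem_univ _) h
  rw [h]
  exact Finset.sum_nonneg fun c _ => sq_nonneg _

theorem integral_step {c S : ℝ} (h0 : 0 ≤ c) (h1 : c ≤ S) :
    ∫ s in (0 : ℝ)..S, Set.indicator {x | x ≤ c} (fun _ => (1 : ℝ)) s = c := by
  rw [intervalIntegral.integral_indicator ⟨h0, h1⟩]
  simp

theorem psd_ultra {ι : Type*} [Fintype ι] (k : ι → ι → ℝ) (S : ℝ) (hS : 0 ≤ S)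
    (h0 : ∀ i j, 0 ≤ k i j) (hle : ∀ i j, k i j ≤ S) (hdiag : ∀ i, k i i = S)
    (hsymm : ∀ i j, k i j = k j i) (hult : ∀ i j l, min (k i j) (k j l) ≤ k i l) (w : ι → ℝ) :
    0 ≤ ∑ i, ∑ j, w i * w j * k i j := by
  classical
  have hint : ∀ c : ℝ, IntervalIntegrable (Set.indicator {x | x ≤ c} (fun _ => (1 : ℝ))) volume
      0 S := by
    intro c
    constructor
    · exact (integrable_const _).indicator measurableSet_Iic
    · exact (integrable_const _).indicator measurableSet_Iic
  have e : ∑ i, ∑ j, w i * w j * k i j =
      ∫ s in (0 : ℝ)..S, ∑ i, ∑ j, w i * w j *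
        Set.indicator {x | x ≤ k i j} (fun _ => (1 : ℝ)) s := by
    rw [intervalIntegral.integral_finsetSum]
    · apply Finset.sum_congr rfl
      intro i _
      rw [intervalIntegral.integral_finsetSum]
      · apply Finset.sum_congr rfl
        intro j _
        rw [intervalIntegral.integral_const_mul, integral_step (h0 i j) (hle i j)]
      · intro j _
        exact (hint _).const_mul _
    · intro i _
      have h1 := IntervalIntegrable.sum (μ := volume) (a := 0) (b := S) Finset.univ
        (f := fun j s => w i * w j * Set.indicator {x | x ≤ k i j} (fun _ => (1 : ℝ)) s)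
        (fun j _ => (hint _).const_mul _)
      refine h1.congr ?_
      intro s _
      simp only [Finset.sum_apply]
  rw [e]
  apply intervalIntegral.integral_nonneg hS
  intro s hs
  have h := psd_fiber (fun i : ι => Finset.univ.filter fun j => s ≤ k i j) w
  have hiff : ∀ i j, (Finset.univ.filter (fun l => s ≤ k i l) =
      Finset.univ.filter fun l => s ≤ k j l) ↔ s ≤ k i j := by
    intro i j
    constructor
    · intro hh
      have : j ∈ Finset.univ.filter (fun l => s ≤ k j l) := by
        rw [Finset.mem_filter]
        exact ⟨Finset.mem_univ _, by rw [hdiag]; exact hs.2⟩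
      rw [← hh, Finset.mem_filter] at this
      exact this.2
    · intro hh
      ext l
      simp only [Finset.mem_filter, Finset.mem_univ, true_and]
      constructor
      · intro hl
        exact (le_min (by rw [hsymm]; exact hh) hl).trans (hult j i l)
      · intro hl
        exact (le_min hh hl).trans (hult i j l)
  refine h.trans (le_of_eq ?_)
  apply Finset.sum_congr rfl
  intro i _
  apply Finset.sum_congr rfl
  intro j _
  congr 1
  rw [Set.indicator_apply]
  simp only [Set.mem_ofPred_eq]
  by_cases hh : s ≤ k i j
  · rw [if_pos ((hiff i j).2 hh), if_pos hh]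
  · rw [if_neg (fun h2 => hh ((hiff i j).1 h2)), if_neg hh]

end Pool.Agent.Lib_helper95.NP
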