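import Pool.Agent.Lib_helper95.NP.Base

/-!
# Factorization of forms and the product formula for a fibre (blocks of helper21 and helper13)
-/

set_option autoImplicit false

universe u

namespace Pool.Agent.Lib_helper95.NP

open Polynomial Real Pool.Agent.Lib_helper95.FP

section

variable {L : Type*} [Field L]

theorem e1_linf_smul (c : L) (z : Fin 2 → L) : linf (fun i => c * z i) = C c * linf z := by
  unfold linf
  rw [C_mul, C_mul]
  ring

/-- one factor -/
theorem e1_step [IsAlgClosed L] (w : AbsoluteValue L ℝ) (D : ℕ) (p : L[X])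
    (hp : p.natDegree ≤ D + 1) :
    ∃ (z : Fin 2 → L) (q : L[X]), nv w z = 1 ∧ q.natDegree ≤ D ∧ p = linf z * q := by
  rcases Nat.lt_or_ge D p.natDegree with h | h
  · have hdeg : p.natDegree = D + 1 := le_antisymm hp h
    have hne : p.degree ≠ 0 := by
      intro h0
      have h1 : p.natDegree = 0 := natDegree_eq_of_degree_eq_some h0
      omega
    obtain ⟨r, hr⟩ := IsAlgClosed.exists_root p hne
    obtain ⟨q, hq⟩ := dvd_iff_isRoot.2 hr
    have hx : (![r, 1] : Fin 2 → L) ≠ 0 := by
      intro h0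
      have := congrFun h0 1
      simp at this
    obtain ⟨u, hu, hu1, -⟩ := exists_norm_one w ![r, 1] hx
    refine ⟨fun i => u * (![r, 1] : Fin 2 → L) i, C u⁻¹ * q, hu1, ?_, ?_⟩
    · have hq0 : q ≠ 0 := by
        intro h0
        rw [h0, mul_zero] at hq
        rw [hq, natDegree_zero] at hdeg
        omega
      have h2 : p.natDegree = 1 + q.natDegree := by
        rw [hq, natDegree_mul (X_sub_C_ne_zero r) hq0, natDegree_X_sub_C]
      exact (natDegree_C_mul_le _ _).trans (by omega)
    · rw [e1_linf_smul]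
      have h3 : linf (![r, 1] : Fin 2 → L) = X - C r := by
        unfold linf
        simp
      have h4 : (C u : L[X]) * C u⁻¹ = 1 := by
        rw [← C_mul, mul_inv_cancel₀ hu, C_1]
      rw [h3]
      calc p = (X - C r) * q := hq
        _ = (C u * C u⁻¹) * ((X - C r) * q) := by rw [h4, one_mul]
        _ = C u * (X - C r) * (C u⁻¹ * q) := by ring
  · refine ⟨![1, 0], -p, ?_, ?_, ?_⟩
    · unfold nv
      simp
    · rw [natDegree_neg]
      exact h
    · unfold linf
      simp

theorem exists_roots [IsAlgClosed L] {w : AbsoluteValue L ℝ} (hw : IsNonarchimedean w) (D : ℕ)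
    (p : L[X]) (hp : p.natDegree ≤ D) :
    ∃ (c : L) (z : Fin D → Fin 2 → L), (∀ i, nv w (z i) = 1) ∧ p = C c * ∏ i, linf (z i) ∧
      w c = gn w p := by
  induction D generalizing p with
  | zero =>
    refine ⟨p.coeff 0, fun i => i.elim0, fun i => i.elim0, ?_, ?_⟩
    · rw [Fin.prod_univ_zero, mul_one]
      exact eq_C_of_natDegree_le_zero hp
    · conv_rhs => rw [eq_C_of_natDegree_le_zero hp]
      rw [gn_C]
  | succ D ih =>
    obtain ⟨z0, q, hz0, hq, hpq⟩ := e1_step w D p hp
    obtain ⟨c, z, hz, hqz, hc⟩ := ih q hq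
    refine ⟨c, Fin.cons z0 z, ?_, ?_, ?_⟩
    · intro i
      refine Fin.cases ?_ ?_ i
      · simpa using hz0
      · intro j
        simpa using hz j
    · rw [Fin.prod_univ_succ]
      simp only [Fin.cons_zero, Fin.cons_succ]
      calc p = linf z0 * q := hpq
        _ = linf z0 * (C c * ∏ i, linf (z i)) := by rw [← hqz]
        _ = C c * (linf z0 * ∏ i, linf (z i)) := by ring
    · rw [hpq, gn_mul hw, gn_linf, hz0, one_mul, hc]

end

section roots

variable {L : Type*} [Field L]

theorem e4_natDegree_linf (z : Fin 2 → L) : (linf z).natDegree ≤ 1 := by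
  unfold linf
  refine (natDegree_sub_le _ _).trans (max_le ((natDegree_C_mul_le _ _).trans natDegree_X_le) ?_)
  simp

theorem e4_res_linf (w : AbsoluteValue L ℝ) (g : L[X]) (D : ℕ) (hg : g.natDegree ≤ D)
    (z : Fin 2 → L) : w (resultant (linf z) g 1 D) = w (hev D g z) := by
  by_cases h1 : z 1 = 0
  · have e : linf z = C (-(z 0)) := by
      unfold linf
      rw [h1, C_0, zero_mul, zero_sub, C_neg]
    rw [e, resultant_C_left, hev_of_zero D g z h1]
    rw [map_mul, map_mul, map_mul, map_pow, map_pow, map_pow, map_pow, AbsoluteValue.map_neg,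
      AbsoluteValue.map_one, AbsoluteValue.map_neg]
    simp
  · have e : linf z = C (z 1) * (X - C (z 0 / z 1)) := by
      unfold linf
      rw [mul_sub, ← C_mul, mul_div_cancel₀ _ h1]
    rw [e, resultant_C_mul_left, resultant_X_sub_C_left _ _ _ hg, hev_of_ne D g hg z h1]

theorem e4_prod {ι : Type*} (w : AbsoluteValue L ℝ) (g : L[X]) (D : ℕ) (hg : g.natDegree ≤ D)
    (z : ι → Fin 2 → L) (s : Finset ι) :
    (∏ i ∈ s, linf (z i)).natDegree ≤ s.card ∧
      w (resultant (∏ i ∈ s, linf (z i)) g s.card D) = ∏ i ∈ s, w (hev D g (z i)) := by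
  classical
  induction s using Finset.induction_on with
  | empty => simp
  | insert a s ha ih =>
    obtain ⟨ih1, ih2⟩ := ih
    rw [Finset.prod_insert ha, Finset.prod_insert ha, Finset.card_insert_of_notMem ha,
      add_comm s.card 1]
    refine ⟨natDegree_mul_le.trans (Nat.add_le_add (e4_natDegree_linf _) ih1), ?_⟩
    rw [res_mul_left _ _ _ _ _ _ (e4_natDegree_linf _) ih1 hg, map_mul, ih2, e4_res_linf w g D hg]

theorem prod_fibre {w : AbsoluteValue L ℝ} {D : ℕ} (G : Fin 2 → L[X])
    (hG : ∀ i, (G i).natDegree ≤ D) (t b : L) (z : Fin D → Fin 2 → L)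
    (h : G 0 - C t * G 1 = C b * ∏ i, linf (z i)) :
    w b ^ D * ∏ i, w (hev D (G 1) (z i)) = w (res D G) := by
  have e : G 0 = C b * (∏ i, linf (z i)) + G 1 * C t := by
    rw [← h]; ring
  have h2 := e4_prod w (G 1) D (hG 1) z Finset.univ
  rw [Finset.card_univ, Fintype.card_fin] at h2
  unfold res
  rw [e, resultant_add_mul_left _ _ _ _ _ (by simp) (hG 1), resultant_C_mul_left, map_mul, map_pow,
    h2.2]

end roots

end Pool.Agent.Lib_helper95.NP
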